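import Pool.Agent.X149.DirichletGrid

/-! Duality and the range of short intervals. -/

set_option autoImplicit false

namespace Pool.Agent.X149.DU

open MeasureTheory Finset Pool.Agent.X149.US

/-- duality: from nonnegative weights to the polynomial -/
theorem duality {K : Type} [Fintype K] (W : Finset ℝ) (y : K → ℝ) (L : ℝ) (hL : 0 ≤ L)
    (hpos : ∀ c : ℝ → ℝ, (∀ t, 0 ≤ c t) → ∑ k, ‖es W c (y k)‖ ^ 2 ≤ L * ∑ t ∈ W, c t ^ 2)
    (b : K → ℂ) : ∑ t ∈ W, ‖∑ k, b k * ph t (y k)‖ ^ 2 ≤ 4 * L * ∑ k, ‖b k‖ ^ 2 := by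
  classical
  -- complex weights
  have hcplx : ∀ c : ℝ → ℂ, ∑ k, ‖ec W c (y k)‖ ^ 2 ≤ 4 * L * ∑ t ∈ W, ‖c t‖ ^ 2 := by
    intro c
    have h1 : ∑ k, ‖ec W c (y k)‖ ^ 2 ≤
        4 * (∑ k, ‖es W (fun t => max (c t).re 0) (y k)‖ ^ 2 +
        ∑ k, ‖es W (fun t => max (-(c t).re) 0) (y k)‖ ^ 2 +
        ∑ k, ‖es W (fun t => max (c t).im 0) (y k)‖ ^ 2 +
        ∑ k, ‖es W (fun t => max (-(c t).im) 0) (y k)‖ ^ 2) := by
      rw [← sum_add_distrib, ← sum_add_distrib, ← sum_add_distrib, mul_sum]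
      exact sum_le_sum (fun k _ => ec_split W c (y k))
    have p1 := hpos (fun t => max (c t).re 0) (fun t => le_max_right _ _)
    have p2 := hpos (fun t => max (-(c t).re) 0) (fun t => le_max_right _ _)
    have p3 := hpos (fun t => max (c t).im 0) (fun t => le_max_right _ _)
    have p4 := hpos (fun t => max (-(c t).im) 0) (fun t => le_max_right _ _)
    have h2 : ∑ t ∈ W, max (c t).re 0 ^ 2 + ∑ t ∈ W, max (-(c t).re) 0 ^ 2 +
        ∑ t ∈ W, max (c t).im 0 ^ 2 + ∑ t ∈ W, max (-(c t).im) 0 ^ 2 = ∑ t ∈ W, ‖c t‖ ^ 2 := by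
      rw [← sum_add_distrib, ← sum_add_distrib, ← sum_add_distrib]
      refine sum_congr rfl (fun t _ => ?_)
      have hm : ∀ x : ℝ, max x 0 ^ 2 + max (-x) 0 ^ 2 = x ^ 2 := by
        intro x
        rcases le_total 0 x with h | h
        · rw [max_eq_left h, max_eq_right (by linarith)]; ring
        · rw [max_eq_right h, max_eq_left (by linarith)]; ring
      rw [hm, add_assoc, hm, ← Complex.normSq_eq_norm_sq, Complex.normSq_apply]
      ring
    rw [← h2]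
    calc _ ≤ _ := h1
      _ ≤ 4 * (L * ∑ t ∈ W, max (c t).re 0 ^ 2 +
          L * ∑ t ∈ W, max (-(c t).re) 0 ^ 2 +
          L * ∑ t ∈ W, max (c t).im 0 ^ 2 +
          L * ∑ t ∈ W, max (-(c t).im) 0 ^ 2) := by
          linarith
      _ = _ := by ring
  obtain ⟨D, hD⟩ : ∃ D : ℝ → ℂ, D = fun t => ∑ k, b k * ph t (y k) := ⟨_, rfl⟩
  have hDt : ∀ t, ∑ k, b k * ph t (y k) = D t := fun t => by rw [hD]
  simp only [hDt]
  obtain ⟨X, hX⟩ : ∃ X : ℝ, X = ∑ t ∈ W, ‖D t‖ ^ 2 := ⟨_, rfl⟩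
  obtain ⟨B, hB⟩ : ∃ B : ℝ, B = ∑ k, ‖b k‖ ^ 2 := ⟨_, rfl⟩
  rw [← hX, ← hB]
  have hX0 : 0 ≤ X := by rw [hX]; exact sum_nonneg (fun _ _ => by positivity)
  have hB0 : 0 ≤ B := by rw [hB]; exact sum_nonneg (fun _ _ => by positivity)
  have h1 : (X : ℂ) = ∑ k, b k * ec W (fun t => (starRingEnd ℂ) (D t)) (y k) := by
    rw [hX]
    push_cast
    have e1 : ∀ t ∈ W, ((‖D t‖ : ℂ)) ^ 2 = (starRingEnd ℂ) (D t) * ∑ k, b k * ph t (y k) := by
      intro t _
      rw [hDt, mul_comm, Complex.mul_conj, Complex.normSq_eq_norm_sq]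
      push_cast
      rfl
    rw [sum_congr rfl e1]
    unfold ec
    simp only [mul_sum]
    rw [sum_comm]
    refine sum_congr rfl (fun k _ => sum_congr rfl (fun t _ => ?_))
    ring
  have h2 : X ≤ ∑ k, ‖b k‖ * ‖ec W (fun t => (starRingEnd ℂ) (D t)) (y k)‖ := by
    calc X = ‖(X : ℂ)‖ := by rw [Complex.norm_real, Real.norm_of_nonneg hX0]
      _ ≤ _ := by
          rw [h1]
          refine (norm_sum_le _ _).trans (le_of_eq (sum_congr rfl (fun k _ => norm_mul _ _)))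
  have h3 : X ^ 2 ≤ B * (4 * L * X) := by
    have h4 := hcplx (fun t => (starRingEnd ℂ) (D t))
    have h5 : ∑ t ∈ W, ‖(starRingEnd ℂ) (D t)‖ ^ 2 = X := by
      rw [hX]
      exact sum_congr rfl (fun t _ => by rw [Complex.norm_conj])
    rw [h5] at h4
    calc X ^ 2 ≤ (∑ k, ‖b k‖ * ‖ec W (fun t => (starRingEnd ℂ) (D t)) (y k)‖) ^ 2 :=
          pow_le_pow_left₀ hX0 h2 2
      _ ≤ (∑ k, ‖b k‖ ^ 2) * ∑ k, ‖ec W (fun t => (starRingEnd ℂ) (D t)) (y k)‖ ^ 2 :=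
          sum_mul_sq_le_sq_mul_sq _ _ _
      _ ≤ _ := by
          rw [← hB]
          exact mul_le_mul_of_nonneg_left h4 hB0
  rcases hX0.eq_or_lt with h | h
  · rw [← h]
    positivity
  · have h4 : X * X ≤ (4 * L * B) * X := by
      calc X * X = X ^ 2 := by ring
        _ ≤ _ := h3
        _ = _ := by ring
    exact le_of_mul_le_mul_right h4 h

/-- the size of a separated set -/
theorem sep_card {T : ℝ} (S : Finset ℝ) (hS : ∀ t ∈ S, 0 ≤ t ∧ t ≤ T)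
    (hsep : ∀ t ∈ S, ∀ u ∈ S, t ≠ u → 1 ≤ |t - u|) : S.card ≤ ⌊T⌋₊ + 1 := by
  have h1 : S.card ≤ (range (⌊T⌋₊ + 1)).card := by
    refine card_le_card_of_injOn (fun t => ⌊t⌋₊) ?_ ?_
    · intro t ht
      simp only [coe_range, Set.mem_Iio]
      have := Nat.floor_le_floor (hS t ht).2
      omega
    · intro t ht u hu htu
      simp only at htu
      by_contra hne
      have h1 := hsep t ht u hu hne
      have h2 := Nat.floor_le (hS t ht).1
      have h3 := Nat.lt_floor_add_one t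
      have h4 := Nat.floor_le (hS u hu).1
      have h5 := Nat.lt_floor_add_one u
      rw [htu] at h2 h3
      have h6 : |t - u| < 1 := by
        rw [abs_lt]
        constructor <;> linarith
      linarith
  rwa [card_range] at h1

theorem sum_inv_sq (N : ℕ) : ∑ n ∈ range N, (1 : ℝ) / ((n : ℝ) + 1) ^ 2 ≤ 2 := by
  have h : ∀ N : ℕ, ∑ n ∈ range (N + 1), (1 : ℝ) / ((n : ℝ) + 1) ^ 2 ≤ 2 - 1 / ((N : ℝ) + 1) := by
    intro N
    induction N with
    | zero => norm_num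
    | succ N ih =>
      rw [sum_range_succ]
      have h1 : (1 : ℝ) / (((N + 1 : ℕ) : ℝ) + 1) ^ 2 ≤ 1 / ((N : ℝ) + 1) -
          1 / (((N + 1 : ℕ) : ℝ) + 1) := by
        push_cast
        have h2 : (0 : ℝ) < (N : ℝ) + 1 := by positivity
        have h3 : (0 : ℝ) < (N : ℝ) + 1 + 1 := by positivity
        rw [div_sub_div _ _ h2.ne' h3.ne', div_le_div_iff₀ (by positivity) (by positivity)]
        nlinarith
      linarith
  rcases Nat.eq_zero_or_pos N with h0 | h0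
  · rw [h0]
    norm_num
  · obtain ⟨m, rfl⟩ : ∃ m, N = m + 1 := ⟨N - 1, by omega⟩
    have h1 := h m
    have h2 : (0 : ℝ) ≤ 1 / ((m : ℝ) + 1) := by positivity
    linarith

/-- **Short intervals**: the large sieve inequality for `T ^ 3 ≤ N` and any `y_n` of
`[n + 1, n + 2]`. -/
theorem short {N : ℕ} {T : ℝ} (hT : 1 ≤ T) (hTN : T ^ 3 ≤ N) (y : Fin N → ℝ)
    (hy : ∀ n : Fin N, ((n : ℕ) : ℝ) + 1 ≤ y n ∧ y n ≤ ((n : ℕ) : ℝ) + 2) (S : Finset ℝ)
    (hS : ∀ t ∈ S, 0 ≤ t ∧ t ≤ T) (hsep : ∀ t ∈ S, ∀ u ∈ S, t ≠ u → 1 ≤ |t - u|)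
    (b : Fin N → ℂ) : ∑ t ∈ S, ‖∑ n, b n * ph t (y n)‖ ^ 2 ≤
      4 * (N * (42 + 16 * Real.log (2 * T))) * ∑ n, ‖b n‖ ^ 2 := by
  classical
  have hN1 : (1 : ℝ) ≤ N := le_trans (one_le_pow₀ hT) hTN
  have hl : 0 ≤ Real.log (2 * T) := Real.log_nonneg (by linarith)
  refine duality S y (N * (42 + 16 * Real.log (2 * T))) (by positivity) ?_ b
  intro c _
  obtain ⟨Q, hQ⟩ : ∃ Q : ℝ, Q = ∑ t ∈ S, c t ^ 2 := ⟨_, rfl⟩
  have hQ0 : 0 ≤ Q := by rw [hQ]; exact sum_nonneg (fun _ _ => sq_nonneg _)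
  rw [← hQ]
  rcases S.eq_empty_or_nonempty with hS0 | hSn
  · have h1 : ∀ x, es S c x = 0 := by
      intro x
      unfold es
      rw [hS0, sum_empty]
    simp only [h1]
    simp only [norm_zero, ne_eq, OfNat.ofNat_ne_zero, not_false_eq_true, zero_pow, sum_const_zero]
    positivity
  have hc1 : (1 : ℝ) ≤ S.card := by exact_mod_cast card_pos.2 hSn
  have hcard : (S.card : ℝ) ≤ 2 * T := by
    have h1 : (S.card : ℝ) ≤ (⌊T⌋₊ : ℝ) + 1 := by exact_mod_cast sep_card S hS hsep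
    have h2 := Nat.floor_le (by linarith : 0 ≤ T)
    linarith
  have hlc : Real.log S.card ≤ Real.log (2 * T) := Real.log_le_log (by linarith) hcard
  -- one point
  have hone : ∀ n : Fin N, ∀ x ∈ Set.Icc (((n : ℕ) : ℝ) + 1) (((n : ℕ) : ℝ) + 2),
      ‖es S c (y n)‖ ^ 2 ≤ 2 * ‖es S c x‖ ^ 2 + 2 * (2 * T * T ^ 2 * Q) *
        (1 / (((n : ℕ) : ℝ) + 1) ^ 2) := by
    intro n x hx
    have hn1 : (0 : ℝ) < ((n : ℕ) : ℝ) + 1 := by positivity
    have hlog : |Real.log (y n) - Real.log x| ≤ 1 / (((n : ℕ) : ℝ) + 1) := by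
      have hkey : ∀ u v : ℝ, ((n : ℕ) : ℝ) + 1 ≤ u → u ≤ v → v ≤ ((n : ℕ) : ℝ) + 2 →
          Real.log v - Real.log u ≤ 1 / (((n : ℕ) : ℝ) + 1) := by
        intro u v hu huv hv
        have hu0 : 0 < u := by linarith
        have hv0 : 0 < v := by linarith
        rw [← Real.log_div hv0.ne' hu0.ne']
        have h1 := Real.log_le_sub_one_of_pos (div_pos hv0 hu0)
        have h2 : v / u - 1 ≤ 1 / (((n : ℕ) : ℝ) + 1) := by
          have h3 : v / u - 1 = (v - u) / u := by field_simp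
          rw [h3, div_le_div_iff₀ hu0 hn1]
          nlinarith
        linarith
      rcases le_total (y n) x with h | h
      · have h1 := hkey (y n) x (hy n).1 h hx.2
        rw [abs_sub_comm, abs_of_nonneg (sub_nonneg.2
          (Real.log_le_log (by linarith [(hy n).1]) h))]
        exact h1
      · have h1 := hkey x (y n) hx.1 h (hy n).2
        rw [abs_of_nonneg (sub_nonneg.2 (Real.log_le_log (by linarith [hx.1]) h))]
        exact h1
    have hdiff : ‖es S c (y n) - es S c x‖ ≤ ∑ t ∈ S, |c t| * (T * (1 / (((n : ℕ) : ℝ) + 1))) := by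
      unfold es
      rw [← sum_sub_distrib]
      refine (norm_sum_le _ _).trans (sum_le_sum (fun t ht => ?_))
      rw [← mul_sub, norm_mul, Complex.norm_real, Real.norm_eq_abs]
      apply mul_le_mul_of_nonneg_left _ (abs_nonneg _)
      have h1 : ph t (y n) - ph t x = ph t x * (Complex.exp (Complex.I *
          ((t * (Real.log (y n) - Real.log x) : ℝ) : ℂ)) - 1) := by
        unfold ph
        rw [mul_sub, mul_one, ← Complex.exp_add]
        congr 2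
        push_cast
        ring
      rw [h1, norm_mul, ph_norm, one_mul]
      refine (Real.norm_exp_I_mul_ofReal_sub_one_le).trans ?_
      rw [Real.norm_eq_abs, abs_mul, abs_of_nonneg (hS t ht).1]
      exact mul_le_mul (hS t ht).2 hlog (abs_nonneg _) (by linarith)
    have hdiff2 : ‖es S c (y n) - es S c x‖ ^ 2 ≤ (2 * T * T ^ 2 * Q) *
        (1 / (((n : ℕ) : ℝ) + 1) ^ 2) := by
      calc ‖es S c (y n) - es S c x‖ ^ 2
          ≤ (∑ t ∈ S, |c t| * (T * (1 / (((n : ℕ) : ℝ) + 1)))) ^ 2 :=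
            pow_le_pow_left₀ (norm_nonneg _) hdiff 2
        _ ≤ (∑ t ∈ S, |c t| ^ 2) * ∑ _t ∈ S, (T * (1 / (((n : ℕ) : ℝ) + 1))) ^ 2 :=
            sum_mul_sq_le_sq_mul_sq _ _ _
        _ = Q * (S.card * (T ^ 2 * (1 / (((n : ℕ) : ℝ) + 1) ^ 2))) := by
            rw [sum_const, nsmul_eq_mul, hQ, mul_pow, div_pow, one_pow]
            simp only [sq_abs]
        _ ≤ Q * (2 * T * (T ^ 2 * (1 / (((n : ℕ) : ℝ) + 1) ^ 2))) := by
            apply mul_le_mul_of_nonneg_left _ hQ0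
            exact mul_le_mul_of_nonneg_right hcard (by positivity)
        _ = _ := by ring
    have h3 : ‖es S c (y n)‖ ≤ ‖es S c x‖ + ‖es S c (y n) - es S c x‖ := by
      have := norm_add_le (es S c x) (es S c (y n) - es S c x)
      rwa [add_sub_cancel] at this
    have h4 := pow_le_pow_left₀ (norm_nonneg _) h3 2
    nlinarith [sq_nonneg (‖es S c x‖ - ‖es S c (y n) - es S c x‖)]
  -- integrate
  have hint : ∀ n : Fin N, ‖es S c (y n)‖ ^ 2 ≤
      2 * (∫ x in (1 + ((n : ℕ) : ℝ))..(1 + (((n : ℕ) + 1 : ℕ) : ℝ)), ‖es S c x‖ ^ 2) +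
        2 * (2 * T * T ^ 2 * Q) * (1 / (((n : ℕ) : ℝ) + 1) ^ 2) := by
    intro n
    obtain ⟨a, ha⟩ : ∃ a : ℝ, a = 2 * (2 * T * T ^ 2 * Q) * (1 / (((n : ℕ) : ℝ) + 1) ^ 2) := ⟨_, rfl⟩
    have h0 : (1 + ((n : ℕ) : ℝ)) ≤ (1 + (((n : ℕ) + 1 : ℕ) : ℝ)) := by
      push_cast
      linarith
    have h1 : ∫ _x in (1 + ((n : ℕ) : ℝ))..(1 + (((n : ℕ) + 1 : ℕ) : ℝ)),
        ‖es S c (y n)‖ ^ 2 ≤ ∫ x in (1 + ((n : ℕ) : ℝ))..(1 + (((n : ℕ) + 1 : ℕ) : ℝ)),
        (2 * ‖es S c x‖ ^ 2 + a) := by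
      apply intervalIntegral.integral_mono_on h0 intervalIntegrable_const
      · exact ((es_int S c _ _).const_mul 2).add intervalIntegrable_const
      · intro x hx
        rw [ha]
        refine hone n x ⟨by linarith [hx.1], ?_⟩
        have := hx.2
        push_cast at this
        linarith
    rw [intervalIntegral.integral_const, intervalIntegral.integral_add
      ((es_int S c _ _).const_mul 2) intervalIntegrable_const, intervalIntegral.integral_const,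
      intervalIntegral.integral_const_mul] at h1
    have h2 : (1 + (((n : ℕ) + 1 : ℕ) : ℝ)) - (1 + ((n : ℕ) : ℝ)) = 1 := by
      push_cast
      ring
    rw [h2, one_smul, one_smul] at h1
    rw [ha] at h1
    exact h1
  have hsum : ∑ n : Fin N, ‖es S c (y n)‖ ^ 2 ≤
      2 * (∫ x in (1 : ℝ)..(1 + (N : ℝ)), ‖es S c x‖ ^ 2) + 2 * (2 * T * T ^ 2 * Q) * 2 := by
    refine (sum_le_sum (fun n _ => hint n)).trans ?_
    rw [sum_add_distrib, ← mul_sum, ← mul_sum]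
    have h1 : ∑ n : Fin N, ∫ x in (1 + ((n : ℕ) : ℝ))..(1 + (((n : ℕ) + 1 : ℕ) : ℝ)),
        ‖es S c x‖ ^ 2 = ∫ x in (1 : ℝ)..(1 + (N : ℝ)), ‖es S c x‖ ^ 2 := by
      rw [← Finset.sum_range (fun n : ℕ => ∫ x in (1 + (n : ℝ))..(1 + ((n + 1 : ℕ) : ℝ)),
        ‖es S c x‖ ^ 2), intervalIntegral.sum_integral_adjacent_intervals
        (a := fun k : ℕ => 1 + (k : ℝ)) (fun k _ => es_int S c _ _)]
      simp
    have h2 : ∑ n : Fin N, (1 : ℝ) / (((n : ℕ) : ℝ) + 1) ^ 2 ≤ 2 := by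
      rw [← Finset.sum_range (fun n : ℕ => (1 : ℝ) / ((n : ℝ) + 1) ^ 2)]
      exact sum_inv_sq N
    rw [h1]
    have h3 : (0 : ℝ) ≤ 2 * (2 * T * T ^ 2 * Q) := by positivity
    have h4 := mul_le_mul_of_nonneg_left h2 h3
    linarith
  refine hsum.trans ?_
  have hms := meansq (a := 1) (b := 1 + (N : ℝ)) (σ := 1) one_pos (by linarith) one_pos S hsep c
  rw [← hQ, div_one] at hms
  have h5 : 1 + (N : ℝ) - 1 + 4 * (1 + (N : ℝ)) * (2 + Real.log S.card) ≤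
      N * (17 + 8 * Real.log (2 * T)) := by
    have h6 : 0 ≤ Real.log S.card := Real.log_nonneg hc1
    nlinarith
  have h6 : ∫ x in (1 : ℝ)..(1 + (N : ℝ)), ‖es S c x‖ ^ 2 ≤
      N * (17 + 8 * Real.log (2 * T)) * Q :=
    hms.trans (mul_le_mul_of_nonneg_right h5 hQ0)
  have h7 : 2 * (2 * T * T ^ 2 * Q) * 2 ≤ 8 * N * Q := by
    have h8 : 2 * (2 * T * T ^ 2 * Q) * 2 = 8 * (T ^ 3) * Q := by ring
    rw [h8]
    apply mul_le_mul_of_nonneg_right _ hQ0
    linarith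
  calc 2 * (∫ x in (1 : ℝ)..(1 + (N : ℝ)), ‖es S c x‖ ^ 2) + 2 * (2 * T * T ^ 2 * Q) * 2
      ≤ 2 * (N * (17 + 8 * Real.log (2 * T)) * Q) + 8 * N * Q := by linarith
    _ = N * (42 + 16 * Real.log (2 * T)) * Q := by ring

end Pool.Agent.X149.DU
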