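import Pool.Agent.X149.DirichletUniform

/-! Sequences of independent random numbers of `[0, 1]`. -/

set_option autoImplicit false

namespace Pool.Agent.X149.DU

open MeasureTheory Finset

/-- the distribution of a sequence of independent uniformly distributed numbers of `[0, 1]` -/
noncomputable def μseq : Measure (ℕ → unitInterval) :=
  Measure.infinitePi (fun _ : ℕ => (volume : Measure unitInterval))

/-- the coordinates with numbers `1, …, N` -/
def coord (N : ℕ) (θ : ℕ → unitInterval) : Fin N → ℝ := fun i => (θ ((i : ℕ) + 1) : ℝ)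

theorem coord_meas (N : ℕ) : Measurable (coord N) := by
  unfold coord
  fun_prop

theorem coord_mem (N : ℕ) (θ : ℕ → unitInterval) : coord N θ ∈ Set.Icc (0 : Fin N → ℝ) 1 :=
  ⟨fun i => (θ ((i : ℕ) + 1)).2.1, fun i => (θ ((i : ℕ) + 1)).2.2⟩

theorem coord_law (N : ℕ) : μseq.map (coord N) = Measure.pi (fun _ : Fin N => U) := by
  symm
  refine Measure.pi_eq (fun s hs => ?_)
  rw [Measure.map_apply (coord_meas N) (MeasurableSet.univ_pi hs)]
  have h1 : coord N ⁻¹' (Set.univ.pi s) = Set.pi
      ((univ : Finset (Fin N)).image (fun i : Fin N => (i : ℕ) + 1) : Finset ℕ)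
      (fun j => if h : j - 1 < N then (Subtype.val : unitInterval → ℝ) ⁻¹' (s ⟨j - 1, h⟩)
        else Set.univ) := by
    ext θ
    simp only [Set.mem_preimage, Set.mem_pi, Set.mem_univ, true_imp_iff, coe_image, coe_univ,
      Set.image_univ, Set.mem_range, forall_exists_index, forall_apply_eq_imp_iff]
    refine forall_congr' (fun i => ?_)
    rw [dif_pos (show (i : ℕ) + 1 - 1 < N by have := i.2; omega)]
    have h2 : (⟨(i : ℕ) + 1 - 1, by have := i.2; omega⟩ : Fin N) = i := by
      apply Fin.ext
      simp
    rw [h2]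
    rfl
  rw [h1]
  unfold μseq
  rw [Measure.infinitePi_pi]
  · rw [prod_image (fun i _ j _ h => Fin.ext (by simpa using h))]
    refine prod_congr rfl (fun i _ => ?_)
    rw [dif_pos (show (i : ℕ) + 1 - 1 < N by have := i.2; omega)]
    have h2 : (⟨(i : ℕ) + 1 - 1, by have := i.2; omega⟩ : Fin N) = i := by
      apply Fin.ext
      simp
    rw [h2]
    have h3 := unitInterval.measurePreserving_coe.measure_preimage (hs i).nullMeasurableSet
    rw [h3]
    rfl
  · intro j _
    split_ifs with h
    · exact measurable_subtype_coe (hs _)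
    · exact MeasurableSet.univ

theorem coord_measure (N : ℕ) {E : Set (Fin N → ℝ)} (hE : MeasurableSet E) :
    μseq (coord N ⁻¹' E) = volume (E ∩ Set.Icc 0 1) := by
  rw [← Measure.map_apply (coord_meas N) hE, coord_law, pi_U, Measure.restrict_apply hE]

end Pool.Agent.X149.DU
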