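import Pool.Agent.X149.CountableLimsup

/-!
Approximation by a sparse countable family of points: almost every point and Hausdorff dimension.
-/

set_option autoImplicit false

open MeasureTheory Filter Topology Set
open scoped ENNReal NNReal

namespace Pool.Agent.X149.MetricBalls

open Pool.Agent.X149.CountableLimsup

/-- the family `E` has at most `B ^ (κ + ε)` members of height at most `B` -/
def Sparse {ι : Type*} (E : Set ι) (h : ι → ℝ) (κ : ℝ) : Prop :=
  ∀ ε : ℝ, 0 < ε → ∃ M : ℝ, ∀ B : ℝ, 1 ≤ B → {i | i ∈ E ∧ h i ≤ B}.Finite ∧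
    (({i | i ∈ E ∧ h i ≤ B}.ncard : ℕ) : ℝ) ≤ M * B ^ (κ + ε)

/-- the members of `E` at distance at most `A H ^ (-τ)` from `x` -/
def Near {X : Type*} [PseudoMetricSpace X] {ι : Type*} (E : Set ι) (h : ι → ℝ) (e : ι → X) (A τ : ℝ)
    (x : X) : Set ι := {i | i ∈ E ∧ dist x (e i) ≤ A * h i ^ (-τ)}

theorem near_null {X : Type*} [PseudoMetricSpace X] [MeasurableSpace X] (μ : Measure X) {K0 d : ℝ}
    (hK0 : 0 ≤ K0) (hμ : ∀ x r, 0 ≤ r → μ (Metric.closedBall x r) ≤ ENNReal.ofReal (K0 * r ^ d))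
    {ι : Type*} [Countable ι] {E : Set ι} {h : ι → ℝ} (h1 : ∀ i, 1 ≤ h i) (e : ι → X) (A : ℝ) {τ κ : ℝ}
    (hE : Sparse E h κ) (hκ0 : 0 ≤ κ) (hκ : κ < d * τ) :
    ∀ᵐ x ∂μ, (Near E h e A τ x).Finite := by
  set A' : ℝ := max A 0 with hA'
  have hA0 : 0 ≤ A' := le_max_right _ _
  obtain ⟨M, hM⟩ := hE ((d * τ - κ) / 2) (by linarith)
  have hs := summable_height (ρ := d * τ) h1 hM (by linarith) (by linarith)
  have hball : ∀ i : E, μ (Metric.closedBall (e i) (A' * h i ^ (-τ))) ≤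
      ENNReal.ofReal ((K0 * A' ^ d) * (h i) ^ (-(d * τ))) := by
    intro i
    have hi := h1 i
    refine (hμ _ _ (by positivity)).trans (ENNReal.ofReal_le_ofReal (le_of_eq ?_))
    rw [Real.mul_rpow hA0 (by positivity), ← Real.rpow_mul (by linarith)]
    rw [show -τ * d = -(d * τ) by ring]
    ring
  have hfin : ∑' i : E, μ (Metric.closedBall (e i) (A' * h i ^ (-τ))) ≠ ∞ := by
    apply ne_top_of_le_ne_top _ (ENNReal.tsum_le_tsum hball)
    exact (hs.mul_left _).tsum_ofReal_ne_top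
  have hae := ae_finite_setOfPred_mem hfin
  filter_upwards [hae] with x hx
  refine (hx.image (fun i : E => (i : ι))).subset ?_
  rintro i ⟨hi1, hi2⟩
  refine ⟨⟨i, hi1⟩, ?_, rfl⟩
  have h3 := h1 i
  show x ∈ Metric.closedBall (e i) (A' * h i ^ (-τ))
  rw [Metric.mem_closedBall]
  exact hi2.trans (mul_le_mul_of_nonneg_right (le_max_left _ _) (by positivity))

theorem near_dim {X : Type*} [MetricSpace X] {ι : Type*} [Countable ι]
    {E : Set ι} {h : ι → ℝ} (h1 : ∀ i, 1 ≤ h i) (e : ι → X) (A : ℝ) {τ κ : ℝ}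
    (hE : Sparse E h κ) (hκ0 : 0 ≤ κ) (hτ : 0 < τ) :
    dimH {x : X | (Near E h e A τ x).Infinite} ≤ ENNReal.ofReal (κ / τ) := by
  borelize X
  set A' : ℝ := max A 0 with hA'
  have hA0 : 0 ≤ A' := le_max_right _ _
  refine le_of_forall_gt_imp_ge_of_dense ?_
  intro d hd
  induction d using ENNReal.recTopCoe with
  | top => exact le_top
  | coe d =>
  rw [ENNReal.ofReal_lt_coe_iff (by positivity)] at hd
  have hd0 : (0 : ℝ) < d := lt_of_le_of_lt (by positivity) hd
  have hρ : κ < d * τ := by rwa [div_lt_iff₀ hτ] at hd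
  apply dimH_le_of_hausdorffMeasure_ne_top
  obtain ⟨M, hM⟩ := hE ((d * τ - κ) / 2) (by linarith)
  have hs := summable_height (ρ := d * τ) h1 hM (by linarith) (by linarith)
  have hdiam : ∀ i : E,
      (Metric.ediam (Metric.closedBall (e i) (A' * h i ^ (-τ)))) ^ (d : ℝ) ≤
      ENNReal.ofReal ((2 * A') ^ (d : ℝ) * (h i) ^ (-(d * τ))) := by
    intro i
    have hi := h1 i
    have h2 : Metric.ediam (Metric.closedBall (e i) (A' * h i ^ (-τ))) ≤
        ENNReal.ofReal (2 * (A' * h i ^ (-τ))) := by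
      apply Metric.ediam_le
      intro u hu v hv
      rw [edist_dist]
      apply ENNReal.ofReal_le_ofReal
      rw [Metric.mem_closedBall] at hu hv
      have := dist_triangle_right u v (e i)
      linarith
    refine (ENNReal.rpow_le_rpow h2 hd0.le).trans ?_
    rw [ENNReal.ofReal_rpow_of_nonneg (by positivity) hd0.le]
    apply ENNReal.ofReal_le_ofReal
    apply le_of_eq
    rw [← mul_assoc, Real.mul_rpow (by positivity) (by positivity), ← Real.rpow_mul (by linarith)]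
    rw [show -τ * (d : ℝ) = -(d * τ) by ring]
  have hfin : ∑' i : E,
      (Metric.ediam (Metric.closedBall (e i) (A' * h i ^ (-τ)))) ^ (d : ℝ) ≠ ∞ := by
    apply ne_top_of_le_ne_top _ (ENNReal.tsum_le_tsum hdiam)
    exact (hs.mul_left _).tsum_ofReal_ne_top
  have hae := hausdorff_null
    (fun i : E => Metric.closedBall (e i) (A' * h i ^ (-τ))) hd0 hfin
  apply ne_top_of_le_ne_top ENNReal.zero_ne_top
  rw [← hae]
  apply measure_mono
  intro x hx hcon
  apply hx
  refine (hcon.image (fun i : E => (i : ι))).subset ?_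
  rintro i ⟨hi1, hi2⟩
  refine ⟨⟨i, hi1⟩, ?_, rfl⟩
  have h3 := h1 i
  show x ∈ Metric.closedBall (e i) (A' * h i ^ (-τ))
  rw [Metric.mem_closedBall]
  exact hi2.trans (mul_le_mul_of_nonneg_right (le_max_left _ _) (by positivity))

/-- balls in `ℂ` -/
lemma complex_ball (x : ℂ) (r : ℝ) (hr : 0 ≤ r) :
    volume (Metric.closedBall x r) ≤ ENNReal.ofReal (Real.pi * r ^ (2 : ℝ)) := by
  rw [Complex.volume_closedBall, Real.rpow_two, ENNReal.ofReal_mul Real.pi_pos.le, mul_comm,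
    ENNReal.ofReal_pow hr]
  apply le_of_eq
  congr 1
  rw [ENNReal.ofReal, Real.toNNReal_of_nonneg Real.pi_pos.le]
  rfl

/-- balls in `ℝ` -/
lemma real_ball (x : ℝ) (r : ℝ) (_hr : 0 ≤ r) :
    volume (Metric.closedBall x r) ≤ ENNReal.ofReal (2 * r ^ (1 : ℝ)) := by
  rw [Real.volume_closedBall, Real.rpow_one]

/-- balls in `ℝ^N` -/
lemma pi_ball {N : ℕ} (x : Fin N → ℝ) (r : ℝ) (hr : 0 ≤ r) :
    volume (Metric.closedBall x r) ≤ ENNReal.ofReal (2 ^ N * r ^ (N : ℝ)) := by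
  rw [Real.volume_pi_closedBall _ hr, Fintype.card_fin, mul_pow, Real.rpow_natCast]

end Pool.Agent.X149.MetricBalls
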