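import Mathlib

/-!
# The polygonal curve through an injective sequence of adjacent lattice points

For an injective sequence `V` of points of `ℤ × ℤ`, consecutive ones being neighbours, the polygonal
curve through them is a closed embedding of `[0, ∞)` in the Euclidean plane.
-/

namespace Pool.Agent.X149.LatticeCurve

open Filter Topology

/-- The Euclidean plane. -/
abbrev Plane : Type := EuclideanSpace ℝ (Fin 2)

/-- Lattice neighbours. -/
def Adj (a b : ℤ × ℤ) : Prop :=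
  (b.1 = a.1 + 1 ∧ b.2 = a.2) ∨ (b.1 = a.1 - 1 ∧ b.2 = a.2) ∨
    (b.1 = a.1 ∧ b.2 = a.2 + 1) ∨ (b.1 = a.1 ∧ b.2 = a.2 - 1)

/-- The point at parameter `θ` on the segment from `a` to `b`. -/
noncomputable def pt (a b : ℤ × ℤ) (θ : ℝ) : Plane :=
  !₂[(a.1 : ℝ) + θ * ((b.1 : ℝ) - a.1), (a.2 : ℝ) + θ * ((b.2 : ℝ) - a.2)]

@[simp] theorem pt_zero (a b : ℤ × ℤ) (θ : ℝ) :
    pt a b θ 0 = (a.1 : ℝ) + θ * ((b.1 : ℝ) - a.1) := rfl

@[simp] theorem pt_one (a b : ℤ × ℤ) (θ : ℝ) :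
    pt a b θ 1 = (a.2 : ℝ) + θ * ((b.2 : ℝ) - a.2) := rfl

/-- The polygonal curve. -/
noncomputable def curve (V : ℕ → ℤ × ℤ) (t : ℝ) : Plane :=
  pt (V ⌊t⌋₊) (V (⌊t⌋₊ + 1)) (t - ⌊t⌋₊)

theorem int_eq_of_frac {a c : ℤ} {θ η : ℝ} (hθ0 : 0 ≤ θ) (hθ1 : θ < 1) (hη0 : 0 ≤ η)
    (hη1 : η < 1) (h : (a : ℝ) + θ = c + η) : a = c := by
  have h1 : (a : ℝ) < c + 1 := by linarith
  have h2 : (c : ℝ) < a + 1 := by linarith
  have h3 : a < c + 1 := by exact_mod_cast h1
  have h4 : c < a + 1 := by exact_mod_cast h2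
  omega

theorem int_eq_of_opp {a c : ℤ} {θ η : ℝ} (hθ0 : 0 ≤ θ) (hθ1 : θ < 1) (hη0 : 0 ≤ η)
    (hη1 : η < 1) (h : (a : ℝ) + θ = c - η) : a = c ∨ c = a + 1 := by
  have h1 : (a : ℝ) ≤ c := by linarith
  have h2 : (c : ℝ) < a + 2 := by linarith
  have h3 : a ≤ c := by exact_mod_cast h1
  have h4 : c < a + 2 := by exact_mod_cast h2
  omega

theorem frac_zero_of_int {a c : ℤ} {θ : ℝ} (hθ0 : 0 ≤ θ) (hθ1 : θ < 1)
    (h : (a : ℝ) + θ = c) : a = c ∧ θ = 0 := by
  have h1 : (a : ℝ) ≤ c := by linarith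
  have h2 : (c : ℝ) < a + 1 := by linarith
  have h3 : a ≤ c := by exact_mod_cast h1
  have h4 : c < a + 1 := by exact_mod_cast h2
  have h5 : a = c := by omega
  subst h5
  exact ⟨rfl, by linarith⟩

theorem frac_zero_of_int' {a c : ℤ} {θ : ℝ} (hθ0 : 0 ≤ θ) (hθ1 : θ < 1)
    (h : (a : ℝ) - θ = c) : a = c ∧ θ = 0 := by
  have h1 : (c : ℝ) ≤ a := by linarith
  have h2 : (a : ℝ) < c + 1 := by linarith
  have h3 : c ≤ a := by exact_mod_cast h1
  have h4 : a < c + 1 := by exact_mod_cast h2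
  have h5 : a = c := by omega
  subst h5
  exact ⟨rfl, by linarith⟩

/-- Two lattice edges sharing a point (with parameters in `[0, 1)`): the starting points agree, or
the edges are opposite. -/
theorem pt_eq {a b c d : ℤ × ℤ} (hab : Adj a b) (hcd : Adj c d) {θ η : ℝ} (hθ0 : 0 ≤ θ)
    (hθ1 : θ < 1) (hη0 : 0 ≤ η) (hη1 : η < 1) (h : pt a b θ = pt c d η) :
    a = c ∨ (a = d ∧ c = b) := by
  have h0 := congrArg (fun p : Plane => p 0) h
  have h1 := congrArg (fun p : Plane => p 1) h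
  simp only [pt_zero, pt_one] at h0 h1
  obtain ⟨a1, a2⟩ := a
  obtain ⟨b1, b2⟩ := b
  obtain ⟨c1, c2⟩ := c
  obtain ⟨d1, d2⟩ := d
  simp only [Adj] at hab hcd
  simp only [Prod.mk.injEq] at *
  have goal : (a1 = c1 ∧ a2 = c2) ∨ ((a1 = d1 ∧ a2 = d2) ∧ c1 = b1 ∧ c2 = b2) := by
    rcases hab with ⟨hb1, hb2⟩ | ⟨hb1, hb2⟩ | ⟨hb1, hb2⟩ | ⟨hb1, hb2⟩ <;>
    rcases hcd with ⟨hd1, hd2⟩ | ⟨hd1, hd2⟩ | ⟨hd1, hd2⟩ | ⟨hd1, hd2⟩ <;>
    simp only [hb1, hb2, hd1, hd2] at h0 h1 <;> push_cast at h0 h1 <;> ring_nf at h0 h1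
    · have e1 := int_eq_of_frac hθ0 hθ1 hη0 hη1 (a := a1) (c := c1) (by linarith)
      have e2 : a2 = c2 := by exact_mod_cast h1
      omega
    · have e1 := int_eq_of_opp hθ0 hθ1 hη0 hη1 (a := a1) (c := c1) (by linarith)
      have e2 : a2 = c2 := by exact_mod_cast h1
      omega
    · have e1 := (frac_zero_of_int hθ0 hθ1 (a := a1) (c := c1) (by linarith)).1
      have e2 := (frac_zero_of_int hη0 hη1 (a := c2) (c := a2) (by linarith)).1
      omega
    · have e1 := (frac_zero_of_int hθ0 hθ1 (a := a1) (c := c1) (by linarith)).1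
      have e2 := (frac_zero_of_int' hη0 hη1 (a := c2) (c := a2) (by linarith)).1
      omega
    · have e1 := int_eq_of_opp hη0 hη1 hθ0 hθ1 (a := c1) (c := a1) (by linarith)
      have e2 : a2 = c2 := by exact_mod_cast h1
      omega
    · have e1 := int_eq_of_frac hη0 hη1 hθ0 hθ1 (a := a1) (c := c1) (by linarith)
      have e2 : a2 = c2 := by exact_mod_cast h1
      omega
    · have e1 := (frac_zero_of_int' hθ0 hθ1 (a := a1) (c := c1) (by linarith)).1
      have e2 := (frac_zero_of_int hη0 hη1 (a := c2) (c := a2) (by linarith)).1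
      omega
    · have e1 := (frac_zero_of_int' hθ0 hθ1 (a := a1) (c := c1) (by linarith)).1
      have e2 := (frac_zero_of_int' hη0 hη1 (a := c2) (c := a2) (by linarith)).1
      omega
    · have e1 := (frac_zero_of_int hη0 hη1 (a := c1) (c := a1) (by linarith)).1
      have e2 := (frac_zero_of_int hθ0 hθ1 (a := a2) (c := c2) (by linarith)).1
      omega
    · have e1 := (frac_zero_of_int' hη0 hη1 (a := c1) (c := a1) (by linarith)).1
      have e2 := (frac_zero_of_int hθ0 hθ1 (a := a2) (c := c2) (by linarith)).1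
      omega
    · have e1 : a1 = c1 := by exact_mod_cast h0
      have e2 := int_eq_of_frac hθ0 hθ1 hη0 hη1 (a := a2) (c := c2) (by linarith)
      omega
    · have e1 : a1 = c1 := by exact_mod_cast h0
      have e2 := int_eq_of_opp hθ0 hθ1 hη0 hη1 (a := a2) (c := c2) (by linarith)
      omega
    · have e1 := (frac_zero_of_int hη0 hη1 (a := c1) (c := a1) (by linarith)).1
      have e2 := (frac_zero_of_int' hθ0 hθ1 (a := a2) (c := c2) (by linarith)).1
      omega
    · have e1 := (frac_zero_of_int' hη0 hη1 (a := c1) (c := a1) (by linarith)).1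
      have e2 := (frac_zero_of_int' hθ0 hθ1 (a := a2) (c := c2) (by linarith)).1
      omega
    · have e1 : a1 = c1 := by exact_mod_cast h0
      have e2 := int_eq_of_opp hη0 hη1 hθ0 hθ1 (a := c2) (c := a2) (by linarith)
      omega
    · have e1 : a1 = c1 := by exact_mod_cast h0
      have e2 := int_eq_of_frac hη0 hη1 hθ0 hθ1 (a := a2) (c := c2) (by linarith)
      omega
  exact goal

theorem pt_inj {a b : ℤ × ℤ} (hab : Adj a b) {θ η : ℝ} (h : pt a b θ = pt a b η) : θ = η := by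
  have h0 := congrArg (fun p : Plane => p 0) h
  have h1 := congrArg (fun p : Plane => p 1) h
  simp only [pt_zero, pt_one] at h0 h1
  rcases hab with ⟨hb1, hb2⟩ | ⟨hb1, hb2⟩ | ⟨hb1, hb2⟩ | ⟨hb1, hb2⟩ <;>
  rw [hb1] at h0 <;> rw [hb2] at h1 <;> push_cast at h0 h1 <;> linarith

variable {V : ℕ → ℤ × ℤ} (hV : Function.Injective V) (hadj : ∀ n, Adj (V n) (V (n + 1)))

include hV hadj in
theorem curve_injOn : Set.InjOn (curve V) (Set.Ici 0) := by
  intro s hs t ht h
  have hs1 := Nat.floor_le (Set.mem_Ici.mp hs)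
  have hs2 := Nat.lt_floor_add_one s
  have ht1 := Nat.floor_le (Set.mem_Ici.mp ht)
  have ht2 := Nat.lt_floor_add_one t
  rw [curve, curve] at h
  rcases pt_eq (hadj _) (hadj _) (by linarith) (by linarith) (by linarith) (by linarith) h with
    h1 | ⟨h1, h2⟩
  · have h3 := hV h1
    rw [h3] at h
    have := pt_inj (hadj _) h
    linarith
  · have h3 := hV h1
    have h4 := hV h2
    omega

include hadj in
theorem curve_eq_of_mem {n : ℕ} {t : ℝ} (h : t ∈ Set.Icc (n : ℝ) (n + 1)) :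
    curve V t = pt (V n) (V (n + 1)) (t - n) := by
  rcases h.2.lt_or_eq with h1 | h1
  · have : ⌊t⌋₊ = n := by
      rw [Nat.floor_eq_iff (le_trans (Nat.cast_nonneg _) h.1)]
      exact ⟨h.1, h1⟩
    rw [curve, this]
  · have : ⌊t⌋₊ = n + 1 := by
      rw [h1]
      exact_mod_cast Nat.floor_natCast (n + 1)
    rw [curve, this, h1]
    ext i
    fin_cases i
    · simp
    · simp

/-- The curve on its natural domain. -/
noncomputable def curveIci (V : ℕ → ℤ × ℤ) (t : Set.Ici (0 : ℝ)) : Plane := curve V t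

include hadj in
theorem continuous_curveIci : Continuous (curveIci V) := by
  let g : ℕ → Set (Set.Ici (0 : ℝ)) := fun n => {t | (t : ℝ) ∈ Set.Icc (n : ℝ) (n + 1)}
  have hlf : LocallyFinite g := by
    intro t
    refine ⟨{s | (s : ℝ) < (t : ℝ) + 1}, ?_, ?_⟩
    · exact (isOpen_lt continuous_subtype_val continuous_const).mem_nhds (by simp)
    · refine (Set.finite_Iic ⌈(t : ℝ) + 1⌉₊).subset ?_
      rintro n ⟨s, hs1, hs2⟩
      have h1 : (n : ℝ) ≤ s := hs1.1
      have h2 : (s : ℝ) < (t : ℝ) + 1 := hs2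
      have h3 := Nat.le_ceil ((t : ℝ) + 1)
      have h4 : (n : ℝ) ≤ ⌈(t : ℝ) + 1⌉₊ := by linarith
      exact_mod_cast h4
  refine hlf.continuous ?_ (fun n => ?_) (fun n => ?_)
  · ext t
    simp only [Set.mem_iUnion, Set.mem_univ, iff_true]
    exact ⟨⌊(t : ℝ)⌋₊, Nat.floor_le t.2, (Nat.lt_floor_add_one _).le⟩
  · exact isClosed_Icc.preimage continuous_subtype_val
  · have hc : Continuous fun t : Set.Ici (0 : ℝ) => pt (V n) (V (n + 1)) ((t : ℝ) - n) := by
      have h1 : Continuous fun θ : ℝ => pt (V n) (V (n + 1)) θ := by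
        unfold pt
        refine (PiLp.continuous_toLp 2 _).comp ?_
        refine continuous_pi fun i => ?_
        fin_cases i <;> simp <;> fun_prop
      exact h1.comp (by fun_prop)
    refine hc.continuousOn.congr fun t ht => ?_
    exact curve_eq_of_mem hadj ht

include hadj in
theorem curve_near (t : ℝ) (ht : 0 ≤ t) (i : Fin 2) :
    |curve V t i - (if i = 0 then ((V ⌊t⌋₊).1 : ℝ) else (V ⌊t⌋₊).2)| ≤ 1 := by
  have h1 := Nat.floor_le ht
  have h2 := Nat.lt_floor_add_one t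
  have h3 := hadj ⌊t⌋₊
  rw [curve]
  fin_cases i
  · simp only [Fin.zero_eta, pt_zero, if_true]
    rw [abs_le]
    rcases h3 with ⟨hb1, hb2⟩ | ⟨hb1, hb2⟩ | ⟨hb1, hb2⟩ | ⟨hb1, hb2⟩ <;> rw [hb1] <;> push_cast <;>
      constructor <;> nlinarith
  · simp only [Fin.mk_one, pt_one, if_neg (one_ne_zero)]
    rw [abs_le]
    rcases h3 with ⟨hb1, hb2⟩ | ⟨hb1, hb2⟩ | ⟨hb1, hb2⟩ | ⟨hb1, hb2⟩ <;> rw [hb2] <;> push_cast <;>
      constructor <;> nlinarith

include hV in
theorem eventually_far (R : ℤ) : ∀ᶠ n in atTop, R < |(V n).1| ∨ R < |(V n).2| := by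
  have hfin : {n | V n ∈ (Set.Icc (-R) R ×ˢ Set.Icc (-R) R : Set (ℤ × ℤ))}.Finite :=
    ((Set.finite_Icc _ _).prod (Set.finite_Icc _ _)).preimage hV.injOn
  have h1 : ∀ᶠ n in cofinite, n ∉ {n | V n ∈ (Set.Icc (-R) R ×ˢ Set.Icc (-R) R : Set (ℤ × ℤ))} :=
    hfin.eventually_cofinite_notMem
  rw [Nat.cofinite_eq_atTop] at h1
  filter_upwards [h1] with n hn
  by_contra hcon
  push Not at hcon
  apply hn
  exact ⟨abs_le.mp hcon.1, abs_le.mp hcon.2⟩

include hV hadj in
theorem tendsto_curveIci :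
    Tendsto (curveIci V) (cocompact (Set.Ici (0 : ℝ))) (cocompact Plane) := by
  apply tendsto_cocompact_of_tendsto_dist_comp_atTop (0 : Plane)
  rw [tendsto_atTop]
  intro b
  -- the parameter tends to infinity
  have h1 : Tendsto (Subtype.val : Set.Ici (0 : ℝ) → ℝ) (cocompact (Set.Ici (0 : ℝ)))
      (cocompact ℝ) := (isClosed_Ici.isClosedEmbedding_subtypeVal).tendsto_cocompact
  have h2 : Tendsto (fun t : Set.Ici (0 : ℝ) => ‖(t : ℝ)‖) (cocompact (Set.Ici (0 : ℝ))) atTop :=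
    tendsto_norm_cocompact_atTop.comp h1
  have h3 : Tendsto (fun t : Set.Ici (0 : ℝ) => (t : ℝ)) (cocompact (Set.Ici (0 : ℝ))) atTop := by
    refine h2.congr fun t => ?_
    exact Real.norm_of_nonneg t.2
  have h4 : Tendsto (fun t : Set.Ici (0 : ℝ) => ⌊(t : ℝ)⌋₊) (cocompact (Set.Ici (0 : ℝ))) atTop :=
    tendsto_nat_floor_atTop.comp h3
  filter_upwards [h4.eventually (eventually_far hV (⌈b⌉ + 1))] with t ht
  rw [dist_zero_right]
  have hb := Int.le_ceil b
  rcases ht with ht | ht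
  · have h5 : (((⌈b⌉ + 1 : ℤ)) : ℝ) < |((V ⌊(t : ℝ)⌋₊).1 : ℝ)| := by exact_mod_cast ht
    push_cast at h5
    have h6 := curve_near hadj t t.2 0
    rw [if_pos rfl] at h6
    have h7 := PiLp.norm_apply_le (curveIci V t) 0
    rw [Real.norm_eq_abs] at h7
    have h8 : |((V ⌊(t : ℝ)⌋₊).1 : ℝ)| ≤ |curve V t 0| + |curve V t 0 - (V ⌊(t : ℝ)⌋₊).1| := by
      rw [abs_sub_comm (curve V t 0)]
      have := abs_add_le (curve V t 0) (((V ⌊(t : ℝ)⌋₊).1 : ℝ) - curve V t 0)
      rwa [add_sub_cancel] at this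
    have h9 : curveIci V t 0 = curve V t 0 := rfl
    rw [h9] at h7
    linarith
  · have h5 : (((⌈b⌉ + 1 : ℤ)) : ℝ) < |((V ⌊(t : ℝ)⌋₊).2 : ℝ)| := by exact_mod_cast ht
    push_cast at h5
    have h6 := curve_near hadj t t.2 1
    rw [if_neg one_ne_zero] at h6
    have h7 := PiLp.norm_apply_le (curveIci V t) 1
    rw [Real.norm_eq_abs] at h7
    have h8 : |((V ⌊(t : ℝ)⌋₊).2 : ℝ)| ≤ |curve V t 1| + |curve V t 1 - (V ⌊(t : ℝ)⌋₊).2| := by
      rw [abs_sub_comm (curve V t 1)]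
      have := abs_add_le (curve V t 1) (((V ⌊(t : ℝ)⌋₊).2 : ℝ) - curve V t 1)
      rwa [add_sub_cancel] at this
    have h9 : curveIci V t 1 = curve V t 1 := rfl
    rw [h9] at h7
    linarith

include hV hadj in
/-- The polygonal curve is a closed embedding of `[0, ∞)`. -/
theorem isClosedEmbedding_curveIci : IsClosedEmbedding (curveIci V) := by
  have hc := continuous_curveIci hadj
  have hp : IsProperMap (curveIci V) :=
    isProperMap_iff_tendsto_cocompact.mpr ⟨hc, tendsto_curveIci hV hadj⟩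
  exact IsClosedEmbedding.of_continuous_injective_isClosedMap hc
    (fun s t h => Subtype.ext (curve_injOn hV hadj s.2 t.2 h)) hp.isClosedMap

include hadj in
/-- The range of the curve is the union of the edges. -/
theorem range_curveIci :
    Set.range (curveIci V) = ⋃ n, (pt (V n) (V (n + 1))) '' Set.Icc 0 1 := by
  ext q
  rw [Set.mem_range, Set.mem_iUnion]
  constructor
  · rintro ⟨t, rfl⟩
    refine ⟨⌊(t : ℝ)⌋₊, (t : ℝ) - ⌊(t : ℝ)⌋₊, ⟨?_, ?_⟩, rfl⟩
    · have := Nat.floor_le (Set.mem_Ici.mp t.2)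
      linarith
    · have := Nat.lt_floor_add_one (t : ℝ)
      linarith
  · rintro ⟨n, θ, ⟨h0, h1⟩, rfl⟩
    have h2 : (0 : ℝ) ≤ (n : ℝ) := Nat.cast_nonneg n
    refine ⟨⟨n + θ, Set.mem_Ici.mpr (by linarith)⟩, ?_⟩
    change curve V (n + θ) = _
    rw [curve_eq_of_mem hadj (n := n) ⟨by linarith, by linarith⟩]
    congr 1
    ring

end Pool.Agent.X149.LatticeCurve
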