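import Mathlib

/-!
Borel-Cantelli arguments for countable families counted by a height.
-/

set_option autoImplicit false

open MeasureTheory Filter Topology Set
open scoped ENNReal

namespace Pool.Agent.X149.CountableLimsup

/-- a series over a set with few elements of bounded height -/
theorem summable_height {ι : Type*} {E : Set ι} {h : ι → ℝ} (h1 : ∀ i, 1 ≤ h i) {M κ ρ : ℝ}
    (hcount : ∀ B : ℝ, 1 ≤ B → {i | i ∈ E ∧ h i ≤ B}.Finite ∧
      (({i | i ∈ E ∧ h i ≤ B}.ncard : ℕ) : ℝ) ≤ M * B ^ κ) (hκρ : κ < ρ) (hρ : 0 ≤ ρ) :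
    Summable fun i : E => (h i) ^ (-ρ) := by
  classical
  set q : ℝ := (2 : ℝ) ^ (κ - ρ) with hq
  have hq0 : 0 < q := by positivity
  have hq1 : q < 1 := Real.rpow_lt_one_of_one_lt_of_neg (by norm_num) (by linarith)
  have hM : 0 ≤ M := by
    have h2 := (hcount 1 le_rfl).2
    rw [Real.one_rpow, mul_one] at h2
    exact (Nat.cast_nonneg _).trans h2
  refine summable_of_sum_le (c := M * 2 ^ κ * (1 - q)⁻¹) (fun i => by have := h1 i; positivity) fun F => ?_
  choose! j hj1 hj2 using fun i : E => exists_nat_pow_near (h1 i) (by norm_num : (1 : ℝ) < 2)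
  set J : ℕ := F.sup j + 1 with hJ
  have hJi : ∀ i ∈ F, j i < J := fun i hi => Nat.lt_succ_of_le (Finset.le_sup (f := j) hi)
  have e1 : ∑ i ∈ F, (h i) ^ (-ρ) ≤
      ∑ i ∈ F, ∑ t ∈ Finset.range J, (if h i ≤ 2 ^ (t + 1) then ((2 : ℝ) ^ t) ^ (-ρ) else 0) := by
    apply Finset.sum_le_sum
    intro i hi
    have e2 : (h i) ^ (-ρ) ≤ (if h i ≤ 2 ^ (j i + 1) then ((2 : ℝ) ^ (j i)) ^ (-ρ) else 0) := by
      rw [if_pos (hj2 i).le]
      exact Real.rpow_le_rpow_of_nonpos (by positivity) (hj1 i) (by linarith)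
    refine e2.trans ?_
    exact Finset.single_le_sum
      (f := fun t => (if h i ≤ 2 ^ (t + 1) then ((2 : ℝ) ^ t) ^ (-ρ) else 0))
      (fun t _ => by split_ifs <;> positivity) (Finset.mem_range.2 (hJi i hi))
  refine e1.trans ?_
  rw [Finset.sum_comm]
  have e3 : ∀ t ∈ Finset.range J,
      ∑ i ∈ F, (if h i ≤ 2 ^ (t + 1) then ((2 : ℝ) ^ t) ^ (-ρ) else 0) ≤ M * 2 ^ κ * q ^ t := by
    intro t _
    rw [← Finset.sum_filter, Finset.sum_const, nsmul_eq_mul]
    have hB : (1 : ℝ) ≤ 2 ^ (t + 1) := one_le_pow₀ (by norm_num)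
    obtain ⟨g1, g2⟩ := hcount (2 ^ (t + 1)) hB
    have e4 : ((F.filter (fun i : E => h i ≤ 2 ^ (t + 1))).card : ℝ) ≤ M * (2 ^ (t + 1)) ^ κ := by
      refine le_trans ?_ g2
      apply Nat.cast_le.2
      rw [Set.ncard_eq_toFinset_card _ g1]
      apply Finset.card_le_card_of_injOn (fun i : E => (i : ι))
      · intro i hi
        rw [Finset.mem_coe, Finset.mem_filter] at hi
        rw [Finset.mem_coe, Set.Finite.mem_toFinset]
        exact ⟨i.2, hi.2⟩
      · intro i _ i' _ hii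
        exact Subtype.ext hii
    have e5 : (0 : ℝ) ≤ ((2 : ℝ) ^ t) ^ (-ρ) := by positivity
    refine (mul_le_mul_of_nonneg_right e4 e5).trans (le_of_eq ?_)
    have e6 : ((2 : ℝ) ^ (t + 1)) ^ κ = 2 ^ κ * ((2 : ℝ) ^ t) ^ κ := by
      rw [pow_succ, Real.mul_rpow (by positivity) (by norm_num)]
      ring
    rw [e6]
    have e7 : ((2 : ℝ) ^ t) ^ κ * ((2 : ℝ) ^ t) ^ (-ρ) = q ^ t := by
      rw [← Real.rpow_add (by positivity), hq, ← Real.rpow_natCast, ← Real.rpow_natCast,
        ← Real.rpow_mul (by norm_num), ← Real.rpow_mul (by norm_num)]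
      congr 1
      ring
    rw [← e7]
    ring
  refine (Finset.sum_le_sum e3).trans ?_
  rw [← Finset.mul_sum]
  apply mul_le_mul_of_nonneg_left _ (by positivity)
  have h2 := (summable_geometric_of_lt_one hq0.le hq1).sum_le_tsum (Finset.range J)
    (fun _ _ => by positivity)
  rwa [tsum_geometric_of_lt_one hq0.le hq1] at h2

/-- the Hausdorff-Cantelli lemma -/
theorem hausdorff_null {X : Type*} [EMetricSpace X] [MeasurableSpace X] [BorelSpace X] {ι : Type*}
    [Countable ι] (J : ι → Set X) {s : ℝ} (hs : 0 < s)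
    (hsum : ∑' i, (Metric.ediam (J i)) ^ s ≠ ∞) : μH[s] {x | {i | x ∈ J i}.Infinite} = 0 := by
  have htail := ENNReal.tendsto_tsum_compl_atTop_zero hsum
  have hle := Measure.hausdorffMeasure_le_liminf_tsum (ι := fun F : Finset ι => {i // i ∉ F}) s
    {x | {i | x ∈ J i}.Infinite} (l := atTop)
    (fun F => (∑' i : {i // i ∉ F}, (Metric.ediam (J i)) ^ s) ^ (1 / s))
    (by
      have h1 := htail.ennrpow_const (1 / s)
      rwa [ENNReal.zero_rpow_of_pos (by positivity)] at h1)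
    (fun F i => J i)
    (Eventually.of_forall fun F i => by
      have h1 : (Metric.ediam (J i)) ^ s ≤ ∑' i : {i // i ∉ F}, (Metric.ediam (J i)) ^ s :=
        ENNReal.le_tsum (f := fun i : {i // i ∉ F} => (Metric.ediam (J i)) ^ s) i
      have h2 := ENNReal.rpow_le_rpow h1 (z := 1 / s) (by positivity)
      rw [← ENNReal.rpow_mul, mul_one_div_cancel hs.ne', ENNReal.rpow_one] at h2
      exact h2)
    (Eventually.of_forall fun F => by
      intro x hx
      obtain ⟨i, hi, hiF⟩ := hx.exists_notMem_finset F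
      exact mem_iUnion.2 ⟨⟨i, hiF⟩, hi⟩)
  refine le_antisymm (hle.trans ?_) bot_le
  exact htail.liminf_eq.le

end Pool.Agent.X149.CountableLimsup
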