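import Mathlib

/-!
Hausdorff dimension of the set of parameters `α` for which `Φ_k(α)` falls infinitely often in a sparse
union of unit intervals, for maps `Φ_k` with logarithmic derivative bounded below.
-/

namespace Pool.Agent.X149.LimsupDim

open MeasureTheory Filter Topology ENNReal Set

/-- The sum of `n^{-ρ}` over a set with few elements in dyadic blocks. -/
theorem summable_bad {S : Set ℕ} [DecidablePred (· ∈ S)] {C γ ρ : ℝ} (hC : 0 ≤ C)
    (hcount : ∀ K : ℕ, 1 ≤ K →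
      (((Finset.Ico K (2 * K)).filter (· ∈ S)).card : ℝ) ≤ C * (K : ℝ) ^ (1 - γ))
    (hρ0 : 0 ≤ ρ) (hρ : 1 - γ < ρ) :
    Summable fun n : ℕ => if n ∈ S ∧ 1 ≤ n then (n : ℝ) ^ (-ρ) else 0 := by
  set f : ℕ → ℝ := fun n => if n ∈ S ∧ 1 ≤ n then (n : ℝ) ^ (-ρ) else 0 with hf
  have hf0 : ∀ n, 0 ≤ f n := by
    intro n
    simp only [hf]
    split_ifs
    · positivity
    · exact le_rfl
  set q : ℝ := (2 : ℝ) ^ (1 - γ - ρ) with hq
  have hq0 : 0 < q := by positivity
  have hq1 : q < 1 := Real.rpow_lt_one_of_one_lt_of_neg (by norm_num) (by linarith)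
  -- one block
  have hblock : ∀ j : ℕ, ∑ n ∈ Finset.Ico (2 ^ j) (2 ^ (j + 1)), f n ≤ C * q ^ j := by
    intro j
    have hj : (1 : ℕ) ≤ 2 ^ j := Nat.one_le_two_pow
    have h1 : ∑ n ∈ Finset.Ico (2 ^ j) (2 ^ (j + 1)), f n ≤
        ∑ n ∈ (Finset.Ico (2 ^ j) (2 * 2 ^ j)).filter (· ∈ S), ((2 : ℝ) ^ j) ^ (-ρ) := by
      rw [Finset.sum_filter, show 2 * 2 ^ j = 2 ^ (j + 1) from by ring]
      apply Finset.sum_le_sum
      intro n hn
      rw [Finset.mem_Ico] at hn
      simp only [hf]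
      by_cases hnS : n ∈ S
      · rw [if_pos ⟨hnS, hj.trans hn.1⟩, if_pos hnS]
        apply Real.rpow_le_rpow_of_nonpos (by positivity) _ (by linarith)
        exact_mod_cast hn.1
      · rw [if_neg (fun h => hnS h.1), if_neg hnS]
    refine h1.trans ?_
    rw [Finset.sum_const, nsmul_eq_mul]
    have h2 := hcount (2 ^ j) hj
    have h3 : (0 : ℝ) ≤ ((2 : ℝ) ^ j) ^ (-ρ) := by positivity
    calc _ ≤ (C * ((2 ^ j : ℕ) : ℝ) ^ (1 - γ)) * ((2 : ℝ) ^ j) ^ (-ρ) :=
          mul_le_mul_of_nonneg_right h2 h3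
      _ = C * (((2 : ℝ) ^ j) ^ (1 - γ) * ((2 : ℝ) ^ j) ^ (-ρ)) := by push_cast; ring
      _ = C * q ^ j := by
          rw [← Real.rpow_add (by positivity), hq, ← Real.rpow_natCast, ← Real.rpow_natCast,
            ← Real.rpow_mul (by norm_num), ← Real.rpow_mul (by norm_num)]
          congr 2
          ring
  have hpow : ∀ J : ℕ, ∑ n ∈ Finset.range (2 ^ J), f n ≤ C * (1 - q)⁻¹ := by
    intro J
    have h1 : ∑ n ∈ Finset.range (2 ^ J), f n ≤ ∑ j ∈ Finset.range J, C * q ^ j := by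
      induction J with
      | zero => simp [hf]
      | succ J ih =>
        rw [Finset.sum_range_succ, Finset.range_eq_Ico,
          ← Finset.sum_Ico_consecutive f (Nat.zero_le (2 ^ J)) (Nat.pow_le_pow_right (by norm_num) (Nat.le_succ J))]
        rw [← Finset.range_eq_Ico]
        exact add_le_add ih (hblock J)
    refine h1.trans ?_
    rw [← Finset.mul_sum]
    apply mul_le_mul_of_nonneg_left _ hC
    have h2 := (summable_geometric_of_lt_one hq0.le hq1).sum_le_tsum (Finset.range J)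
      (fun _ _ => by positivity)
    rwa [tsum_geometric_of_lt_one hq0.le hq1] at h2
  refine summable_of_sum_range_le (c := C * (1 - q)⁻¹) hf0 fun N => ?_
  refine le_trans ?_ (hpow N)
  apply Finset.sum_le_sum_of_subset_of_nonneg
  · intro n hn
    rw [Finset.mem_range] at hn ⊢
    exact hn.trans (Nat.lt_two_pow_self)
  · intro n _ _
    exact hf0 n

theorem null {S : Set ℕ} [DecidablePred (· ∈ S)] {C γ : ℝ} (hC : 0 ≤ C) (hγ : γ ≤ 1)
    (hcount : ∀ K : ℕ, 1 ≤ K →
      (((Finset.Ico K (2 * K)).filter (· ∈ S)).card : ℝ) ≤ C * (K : ℝ) ^ (1 - γ))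
    {I : Set ℝ} (Φ : ℕ → ℝ → ℝ) {m : ℝ} (hm : 0 < m) (L : ℕ → ℝ) (hL : ∀ k, 1 ≤ L k)
    (hLΦ : ∀ k, ∀ α ∈ I, L k ≤ Φ k α)
    (hexp : ∀ k, ∀ α ∈ I, ∀ β ∈ I, α ≤ β → m * (β - α) ≤ Real.log (Φ k β) - Real.log (Φ k α))
    {σ s : ℝ} (hs : 0 < s) (hσ0 : 0 ≤ σ) (hσ : σ < s - 1 + γ) (hsum : Summable fun k => (L k) ^ (-σ)) :
    μH[s] {α | α ∈ I ∧ ∃ᶠ k in atTop, ∃ n ∈ S, (n : ℝ) ≤ Φ k α ∧ Φ k α < n + 1} = 0 := by
  -- the pieces
  let J : ℕ → ℕ → Set ℝ := fun k n => {α | α ∈ I ∧ n ∈ S ∧ (n : ℝ) ≤ Φ k α ∧ Φ k α < n + 1}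
  set f : ℕ → ℝ := fun n => if n ∈ S ∧ 1 ≤ n then (n : ℝ) ^ (-(s - σ)) else 0 with hf
  have hfs : Summable f := summable_bad hC hcount (by linarith) (by linarith)
  have hf0 : ∀ n, 0 ≤ f n := by
    intro n
    simp only [hf]
    split_ifs
    · positivity
    · exact le_rfl
  set A : ℝ := (1 / m) ^ s * 2 ^ σ with hA
  have hA0 : 0 ≤ A := by positivity
  have hdiam : ∀ k n, (Metric.ediam (J k n)) ^ s ≤
      ENNReal.ofReal (A * f n) * ENNReal.ofReal ((L k) ^ (-σ)) := by
    intro k n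
    by_cases hne : (J k n).Nonempty
    · obtain ⟨α0, hα0, hnS, hn1, hn2⟩ := hne
      have hLn : L k < n + 1 := (hLΦ k α0 hα0).trans_lt hn2
      have hn : 1 ≤ n := by
        by_contra hc
        have : n = 0 := by omega
        subst this
        have := hL k
        norm_num at hLn
        linarith
      have hn0 : (1 : ℝ) ≤ n := by exact_mod_cast hn
      have hd : Metric.ediam (J k n) ≤ ENNReal.ofReal (1 / (m * n)) := by
        apply Metric.ediam_le
        intro α hα β hβ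
        rw [edist_dist]
        apply ENNReal.ofReal_le_ofReal
        -- symmetric in the two points
        have key : ∀ α ∈ J k n, ∀ β ∈ J k n, α ≤ β → β - α ≤ 1 / (m * n) := by
          intro α hα β hβ hab
          have h1 := hexp k α hα.1 β hβ.1 hab
          have hpos : 0 < Φ k α := by linarith [hα.2.2.1]
          have h2 : Real.log (Φ k β) - Real.log (Φ k α) ≤ 1 / n := by
            rw [← Real.log_div (by linarith [hβ.2.2.1]) hpos.ne']
            have h3 : Φ k β / Φ k α ≤ 1 + 1 / n := by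
              rw [div_le_iff₀ hpos]
              have h4 : (n : ℝ) + 1 = (1 + 1 / n) * n := by field_simp
              have h5 : (1 + 1 / (n : ℝ)) * n ≤ (1 + 1 / n) * Φ k α :=
                mul_le_mul_of_nonneg_left hα.2.2.1 (by positivity)
              linarith [hβ.2.2.2]
            have h6 : Real.log (Φ k β / Φ k α) ≤ Φ k β / Φ k α - 1 :=
              Real.log_le_sub_one_of_pos (div_pos (by linarith [hβ.2.2.1]) hpos)
            linarith
          rw [le_div_iff₀ (by positivity)]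
          have h7 : m * (β - α) ≤ 1 / n := h1.trans h2
          rw [le_div_iff₀ (by positivity)] at h7
          linarith
        rcases le_total α β with h | h
        · rw [dist_comm, Real.dist_eq, abs_of_nonneg (by linarith)]
          exact key α hα β hβ h
        · rw [Real.dist_eq, abs_of_nonneg (by linarith)]
          exact key β hβ α hα h
      have hreal : (1 / (m * n)) ^ s ≤ A * f n * (L k) ^ (-σ) := by
        have hLk : 0 < L k := by linarith [hL k]
        have e1 : f n = (n : ℝ) ^ (-(s - σ)) := by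
          simp only [hf]
          rw [if_pos ⟨hnS, hn⟩]
        rw [e1, hA]
        have e2 : (1 / (m * (n : ℝ))) ^ s = (1 / m) ^ s * (n : ℝ) ^ (-s) := by
          rw [show 1 / (m * (n : ℝ)) = (1 / m) * (n : ℝ)⁻¹ from by field_simp,
            Real.mul_rpow (by positivity) (by positivity),
            Real.inv_rpow (by positivity), Real.rpow_neg (by positivity)]
        have e3 : (n : ℝ) ^ (-(s - σ)) = (n : ℝ) ^ (-s) * (n : ℝ) ^ σ := by
          rw [← Real.rpow_add (by positivity)]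
          congr 1
          ring
        rw [e2, e3]
        have h8 : 1 ≤ (2 : ℝ) ^ σ * (n : ℝ) ^ σ * (L k) ^ (-σ) := by
          rw [Real.rpow_neg hLk.le, ← Real.mul_rpow (by norm_num) (by positivity), ← div_eq_mul_inv,
            ← Real.div_rpow (by positivity) hLk.le]
          apply Real.one_le_rpow _ hσ0
          rw [one_le_div hLk]
          linarith
        have h9 : 0 ≤ (1 / m) ^ s * (n : ℝ) ^ (-s) := by positivity
        calc _ = (1 / m) ^ s * (n : ℝ) ^ (-s) * 1 := by ring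
          _ ≤ (1 / m) ^ s * (n : ℝ) ^ (-s) * ((2 : ℝ) ^ σ * (n : ℝ) ^ σ * (L k) ^ (-σ)) :=
              mul_le_mul_of_nonneg_left h8 h9
          _ = _ := by ring
      rw [← ENNReal.ofReal_mul (mul_nonneg hA0 (hf0 n))]
      calc (Metric.ediam (J k n)) ^ s ≤ (ENNReal.ofReal (1 / (m * n))) ^ s :=
            ENNReal.rpow_le_rpow hd hs.le
        _ = ENNReal.ofReal ((1 / (m * n)) ^ s) := ENNReal.ofReal_rpow_of_pos (by positivity)
        _ ≤ _ := ENNReal.ofReal_le_ofReal hreal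
    · rw [Set.not_nonempty_iff_eq_empty.mp hne, Metric.ediam_empty, ENNReal.zero_rpow_of_pos hs]
      exact bot_le
  -- the total
  have hB : ∑' n, ENNReal.ofReal (A * f n) ≠ ∞ := (hfs.mul_left A).tsum_ofReal_ne_top
  have hLs : ∑' k, ENNReal.ofReal ((L k) ^ (-σ)) ≠ ∞ := hsum.tsum_ofReal_ne_top
  have htail := ENNReal.tendsto_sum_nat_add _ hLs
  set B := ∑' n, ENNReal.ofReal (A * f n) with hBd
  have hprod : Tendsto (fun K => B * ∑' k, ENNReal.ofReal ((L (k + K)) ^ (-σ))) atTop (𝓝 0) := by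
    have := ENNReal.Tendsto.const_mul (a := B) htail (Or.inr hB)
    rwa [mul_zero] at this
  have hsumle : ∀ K, ∑' x : ℕ × ℕ, (Metric.ediam (J (x.1 + K) x.2)) ^ s ≤
      B * ∑' k, ENNReal.ofReal ((L (k + K)) ^ (-σ)) := by
    intro K
    calc _ ≤ ∑' x : ℕ × ℕ, ENNReal.ofReal (A * f x.2) * ENNReal.ofReal ((L (x.1 + K)) ^ (-σ)) :=
          ENNReal.tsum_le_tsum fun x => hdiam _ _
      _ = ∑' k, ∑' n, ENNReal.ofReal (A * f n) * ENNReal.ofReal ((L (k + K)) ^ (-σ)) :=
          ENNReal.tsum_prod (f := fun k n => ENNReal.ofReal (A * f n) * ENNReal.ofReal ((L (k + K)) ^ (-σ)))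
      _ = ∑' k, B * ENNReal.ofReal ((L (k + K)) ^ (-σ)) := by
          congr 1
          funext k
          rw [ENNReal.tsum_mul_right]
      _ = _ := ENNReal.tsum_mul_left
  have hle := Measure.hausdorffMeasure_le_liminf_tsum (ι := fun _ : ℕ => ℕ × ℕ) s
    {α | α ∈ I ∧ ∃ᶠ k in atTop, ∃ n ∈ S, (n : ℝ) ≤ Φ k α ∧ Φ k α < n + 1} (l := atTop)
    (fun K => (B * ∑' k, ENNReal.ofReal ((L (k + K)) ^ (-σ))) ^ (1 / s))
    (by
      have h1 := hprod.ennrpow_const (1 / s)
      rwa [ENNReal.zero_rpow_of_pos (by positivity)] at h1)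
    (fun K x => J (x.1 + K) x.2)
    (Eventually.of_forall fun K x => by
      have h1 : (Metric.ediam (J (x.1 + K) x.2)) ^ s ≤ B * ∑' k, ENNReal.ofReal ((L (k + K)) ^ (-σ)) :=
        (ENNReal.le_tsum (f := fun x : ℕ × ℕ => (Metric.ediam (J (x.1 + K) x.2)) ^ s) x).trans (hsumle K)
      have h2 := ENNReal.rpow_le_rpow h1 (z := 1 / s) (by positivity)
      rw [← ENNReal.rpow_mul, mul_one_div_cancel hs.ne', ENNReal.rpow_one] at h2
      exact h2)
    (Eventually.of_forall fun K => by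
      rintro α ⟨hα, hfr⟩
      obtain ⟨k, hk, n, hn, h1, h2⟩ := (Filter.frequently_atTop.mp hfr) K
      rw [Set.mem_iUnion]
      refine ⟨(k - K, n), ?_⟩
      change α ∈ J (k - K + K) n
      rw [Nat.sub_add_cancel hk]
      exact ⟨hα, hn, h1, h2⟩)
  refine le_antisymm (hle.trans ?_) bot_le
  have h3 : liminf (fun K => ∑' x : ℕ × ℕ, (Metric.ediam (J (x.1 + K) x.2)) ^ s) atTop ≤
      liminf (fun K => B * ∑' k, ENNReal.ofReal ((L (k + K)) ^ (-σ))) atTop :=
    liminf_le_liminf (Eventually.of_forall hsumle)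
  exact h3.trans hprod.liminf_eq.le

end Pool.Agent.X149.LimsupDim
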