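import Pool.Agent.X149.DirichletSieve

/-! Real 1-separated sets and grids. -/

set_option autoImplicit false

namespace Pool.Agent.X149.DU

open MeasureTheory Finset Pool.Agent.X149.US

theorem ph_lip (t u y : ℝ) : ‖ph t y - ph u y‖ ≤ |t - u| * |Real.log y| := by
  have h1 : ph t y - ph u y = ph u y * (Complex.exp (Complex.I * (((t - u) * Real.log y : ℝ) : ℂ)) -
      1) := by
    unfold ph
    rw [mul_sub, mul_one, ← Complex.exp_add]
    congr 2
    push_cast
    ring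
  rw [h1, norm_mul, ph_norm, one_mul, ← abs_mul]
  exact Real.norm_exp_I_mul_ofReal_sub_one_le

/-- the grid point below `t` -/
noncomputable def gp (G : ℕ) (t : ℝ) : ℝ := (⌊t * G⌋₊ : ℝ) / G

/-- the grid of mesh `1 / G` in `[0, T]` -/
noncomputable def grid (G : ℕ) (T : ℝ) : Finset ℝ :=
  (range (⌊T * G⌋₊ + 1)).image (fun k : ℕ => (k : ℝ) / G)

theorem grid_card_le (G : ℕ) (T : ℝ) : (grid G T).card ≤ ⌊T * G⌋₊ + 1 :=
  card_image_le.trans (by rw [card_range])

theorem grid_nonempty (G : ℕ) (T : ℝ) : (grid G T).Nonempty :=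
  ⟨_, mem_image.2 ⟨0, mem_range.2 (by omega), rfl⟩⟩

theorem gp_mem {G : ℕ} {T t : ℝ} (htT : t ≤ T) : gp G t ∈ grid G T := by
  refine mem_image.2 ⟨⌊t * G⌋₊, mem_range.2 ?_, rfl⟩
  have := Nat.floor_le_floor (mul_le_mul_of_nonneg_right htT (Nat.cast_nonneg G))
  omega

theorem gp_close {G : ℕ} (hG : 0 < G) {t : ℝ} (ht : 0 ≤ t) : |t - gp G t| ≤ 1 / G := by
  have hG0 : (0 : ℝ) < G := by exact_mod_cast hG
  unfold gp
  have h1 := Nat.floor_le (show 0 ≤ t * G by positivity)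
  have h2 := Nat.lt_floor_add_one (t * G)
  have h3 : t - (⌊t * G⌋₊ : ℝ) / G = (t * G - ⌊t * G⌋₊) / G := by field_simp
  rw [h3, abs_div, abs_of_pos hG0]
  apply div_le_div_of_nonneg_right _ hG0.le
  rw [abs_of_nonneg (by linarith)]
  linarith

theorem gp_sep {G : ℕ} (hG : 4 ≤ G) {t u : ℝ} (ht : 0 ≤ t) (hu : 0 ≤ u) (htu : 1 ≤ |t - u|) :
    1 / 2 ≤ |gp G t - gp G u| := by
  have hG0 : (4 : ℝ) ≤ G := by exact_mod_cast hG
  have h1 := gp_close (by omega : 0 < G) ht
  have h2 := gp_close (by omega : 0 < G) hu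
  have h3 : (1 : ℝ) / G ≤ 1 / 4 := one_div_le_one_div_of_le (by norm_num) hG0
  have h4 : |t - u| ≤ |gp G t - gp G u| + |t - gp G t| + |u - gp G u| := by
    have e : t - u = (gp G t - gp G u) + (t - gp G t) - (u - gp G u) := by ring
    calc |t - u| = |(gp G t - gp G u) + (t - gp G t) - (u - gp G u)| := by rw [← e]
      _ ≤ |(gp G t - gp G u) + (t - gp G t)| + |u - gp G u| := abs_sub _ _
      _ ≤ _ := by
          have := abs_add_le (gp G t - gp G u) (t - gp G t)
          linarith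
  linarith

end Pool.Agent.X149.DU
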