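import Pool.Agent.X149.DirichletUniform

/-! The large sieve inequality for Dirichlet polynomials with random frequencies. -/

set_option autoImplicit false

namespace Pool.Agent.X149.DU

open MeasureTheory Finset Pool.Agent.X149.US

/-- the exponential sum with complex weights -/
noncomputable def ec (W : Finset ℝ) (c : ℝ → ℂ) (y : ℝ) : ℂ := ∑ t ∈ W, c t * ph t y

theorem ec_split (W : Finset ℝ) (c : ℝ → ℂ) (y : ℝ) :
    ‖ec W c y‖ ^ 2 ≤ 4 * (‖es W (fun t => max (c t).re 0) y‖ ^ 2 +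
      ‖es W (fun t => max (-(c t).re) 0) y‖ ^ 2 + ‖es W (fun t => max (c t).im 0) y‖ ^ 2 +
      ‖es W (fun t => max (-(c t).im) 0) y‖ ^ 2) := by
  have h1 : ec W c y = (es W (fun t => max (c t).re 0) y - es W (fun t => max (-(c t).re) 0) y) +
      Complex.I * (es W (fun t => max (c t).im 0) y - es W (fun t => max (-(c t).im) 0) y) := by
    unfold ec es
    rw [← sum_sub_distrib, ← sum_sub_distrib, mul_sum, ← sum_add_distrib]
    refine sum_congr rfl (fun t _ => ?_)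
    have hm : ∀ x : ℝ, max x 0 - max (-x) 0 = x := by
      intro x
      rcases le_total 0 x with h | h
      · rw [max_eq_left h, max_eq_right (by linarith), sub_zero]
      · rw [max_eq_right h, max_eq_left (by linarith)]
        ring
    have hre := hm (c t).re
    have him := hm (c t).im
    have e : c t = (((max (c t).re 0 - max (-(c t).re) 0 : ℝ) : ℂ)) +
        Complex.I * (((max (c t).im 0 - max (-(c t).im) 0 : ℝ) : ℂ)) := by
      rw [hre, him, mul_comm]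
      exact (Complex.re_add_im (c t)).symm
    nth_rewrite 1 [e]
    push_cast
    ring
  obtain ⟨A, hA⟩ : ∃ A, A = ‖es W (fun t => max (c t).re 0) y‖ := ⟨_, rfl⟩
  obtain ⟨B, hB⟩ : ∃ B, B = ‖es W (fun t => max (-(c t).re) 0) y‖ := ⟨_, rfl⟩
  obtain ⟨C, hC⟩ : ∃ C, C = ‖es W (fun t => max (c t).im 0) y‖ := ⟨_, rfl⟩
  obtain ⟨D, hD⟩ : ∃ D, D = ‖es W (fun t => max (-(c t).im) 0) y‖ := ⟨_, rfl⟩
  have h2 : ‖ec W c y‖ ≤ A + B + (C + D) := by
    rw [h1, hA, hB, hC, hD]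
    refine (norm_add_le _ _).trans (add_le_add (norm_sub_le _ _) ?_)
    rw [norm_mul, Complex.norm_I, one_mul]
    exact norm_sub_le _ _
  rw [← hA, ← hB, ← hC, ← hD]
  have h3 : ‖ec W c y‖ ^ 2 ≤ (A + B + (C + D)) ^ 2 := pow_le_pow_left₀ (norm_nonneg _) h2 2
  nlinarith [sq_nonneg (A - B), sq_nonneg (A - C), sq_nonneg (A - D), sq_nonneg (B - C),
    sq_nonneg (B - D), sq_nonneg (C - D)]

/-- the constant of the large sieve inequality -/
noncomputable def Lam (M H J : ℕ) (a σ η w ℓ : ℝ) : ℝ :=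
  w * (M * H) / 4 ^ J + 4 * (J + 1) *
    (8 * (η⁻¹ * (M * H + 4 * (a + M * H) * (2 + Real.log w) / σ)) + w * ℓ)

theorem Lam_nonneg (M H J : ℕ) {a σ η w ℓ : ℝ} (ha : 0 ≤ a) (hσ : 0 ≤ σ) (hη : 0 ≤ η)
    (hw : 0 ≤ w) (hlw : 0 ≤ Real.log w) (hℓ : 0 ≤ ℓ) : 0 ≤ Lam M H J a σ η w ℓ := by
  unfold Lam
  have h1 : (0 : ℝ) ≤ M * H := by positivity
  have h2 : 0 ≤ w * (M * H) / 4 ^ J := div_nonneg (mul_nonneg hw h1) (by positivity)
  have h3 : 0 ≤ η⁻¹ := inv_nonneg.2 hη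
  have h4 : 0 ≤ 4 * (a + (M : ℝ) * H) * (2 + Real.log w) / σ :=
    div_nonneg (mul_nonneg (by linarith) (by linarith)) hσ
  have h5 : 0 ≤ η⁻¹ * (M * H + 4 * (a + M * H) * (2 + Real.log w) / σ) :=
    mul_nonneg h3 (add_nonneg h1 h4)
  have h6 : 0 ≤ w * ℓ := mul_nonneg hw hℓ
  have h7 : (0 : ℝ) ≤ 4 * (J + 1) := by positivity
  have h8 := mul_nonneg h7 (by linarith : 0 ≤ 8 * (η⁻¹ * (M * H + 4 * (a + M * H) *
    (2 + Real.log w) / σ)) + w * ℓ)
  linarith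

/-- **Large sieve.** -/
theorem sieve (𝒯 : Finset ℝ) (h𝒯 : 𝒯.Nonempty) (M H : ℕ) (hH : 1 ≤ H) (a η δ : ℝ) (ha : 0 < a)
    (hη : 0 < η) (hη1 : η ≤ 1) (hδ : 0 < δ) (hδ1 : δ ≤ 1) :
    ∃ E : Set (Fin M → ℝ), MeasurableSet E ∧ volume (E ∩ Set.Icc 0 1) ≤ ENNReal.ofReal δ ∧
      ∀ θ ∉ E, ∀ b : Fin H × Fin M → ℂ, ∀ σ : ℝ, 0 < σ → ∀ W ⊆ 𝒯,
        (∀ t ∈ W, ∀ u ∈ W, t ≠ u → σ ≤ |t - u|) → ∀ J : ℕ,
        ∑ t ∈ W, ‖∑ k : Fin H × Fin M, b k *
          ph t (a + (((k.1 : ℕ) + H * (k.2 : ℕ) : ℕ) : ℝ) + η * θ k.2)‖ ^ 2 ≤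
          4 * Lam M H J a σ η W.card (lossT M H 𝒯.card δ) * ∑ k, ‖b k‖ ^ 2 := by
  classical
  obtain ⟨E, hE1, hE2, hE3⟩ := basic 𝒯 h𝒯 M H hH a η δ hδ hδ1
  refine ⟨E, hE1, hE2, ?_⟩
  intro θ hθ b σ hσ W hW hsep J
  obtain ⟨y, hy⟩ : ∃ y : Fin H × Fin M → ℝ, y = fun k =>
    a + (((k.1 : ℕ) + H * (k.2 : ℕ) : ℕ) : ℝ) + η * θ k.2 := ⟨_, rfl⟩
  have hyk : ∀ k : Fin H × Fin M, a + (((k.1 : ℕ) + H * (k.2 : ℕ) : ℕ) : ℝ) + η * θ k.2 = y k :=
    fun k => by rw [hy]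
  simp only [hyk]
  have hbas := hE3 θ hθ
  have hbas' : ∀ q : ℝ → ℝ, (∀ t, 0 ≤ q t) → ∑ t ∈ 𝒯, q t = 1 → ∀ j : ℕ,
        ((univ.filter (fun k : Fin H × Fin M => (1 / 2 : ℝ) ^ j ≤ ‖es 𝒯 q (y k)‖)).card : ℝ) ≤
        4 ^ j * (8 * (∑ n ∈ range (M * H), ∫ x in (0 : ℝ)..1, ‖es 𝒯 q (a + n + η * x)‖ ^ 2) +
          lossT M H 𝒯.card δ) := by
    intro q hq hqs j
    have := hbas q hq hqs j
    rw [hy]
    exact this
  rcases W.eq_empty_or_nonempty with hW0 | hWn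
  · rw [hW0]
    rw [sum_empty, card_empty, Nat.cast_zero]
    have h1 : 0 ≤ ∑ k, ‖b k‖ ^ 2 := sum_nonneg (fun _ _ => by positivity)
    have hcT : (1 : ℝ) ≤ 𝒯.card := by exact_mod_cast card_pos.2 h𝒯
    have hlossp := lossT_pos (M := M) hH hcT hδ hδ1
    have hH0 : (0 : ℝ) < H := by exact_mod_cast hH
    have h2 := Lam_nonneg M H J ha.le hσ.le hη.le le_rfl (by rw [Real.log_zero])
      (by linarith : 0 ≤ lossT M H 𝒯.card δ)
    exact mul_nonneg (mul_nonneg (by norm_num) h2) h1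
  have hw1 : (1 : ℝ) ≤ W.card := by exact_mod_cast card_pos.2 hWn
  have hcT : (1 : ℝ) ≤ 𝒯.card := by exact_mod_cast card_pos.2 h𝒯
  have hlossp := lossT_pos (M := M) hH hcT hδ hδ1
  have hH0 : (0 : ℝ) < H := by exact_mod_cast hH
  have hlogw : 0 ≤ Real.log W.card := Real.log_nonneg hw1
  have hLam0 : 0 ≤ Lam M H J a σ η W.card (lossT M H 𝒯.card δ) :=
    Lam_nonneg M H J ha.le hσ.le hη.le (by linarith) hlogw (by linarith)
  -- nonnegative weights
  have hpos : ∀ c : ℝ → ℝ, (∀ t, 0 ≤ c t) → ∑ k, ‖es W c (y k)‖ ^ 2 ≤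
      Lam M H J a σ η W.card (lossT M H 𝒯.card δ) * ∑ t ∈ W, c t ^ 2 := by
    intro c hc
    have hS0 : 0 ≤ ∑ t ∈ W, c t := sum_nonneg (fun t _ => hc t)
    rcases hS0.eq_or_lt with hS | hS
    · have hz : ∀ t ∈ W, c t = 0 := (sum_eq_zero_iff_of_nonneg (fun t _ => hc t)).1 hS.symm
      have hes : ∀ x, es W c x = 0 := by
        intro x
        unfold es
        refine sum_eq_zero (fun t ht => ?_)
        rw [hz t ht]
        simp
      simp only [hes]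
      simp only [norm_zero, ne_eq, OfNat.ofNat_ne_zero, not_false_eq_true, zero_pow,
        sum_const_zero]
      exact mul_nonneg hLam0 (sum_nonneg (fun _ _ => by positivity))
    · obtain ⟨S, hSd⟩ : ∃ S, S = ∑ t ∈ W, c t := ⟨_, rfl⟩
      rw [← hSd] at hS
      obtain ⟨q, hqd⟩ : ∃ q : ℝ → ℝ, q = fun t => if t ∈ W then c t / S else 0 := ⟨_, rfl⟩
      have hq0 : ∀ t, t ∉ W → q t = 0 := fun t ht => by rw [hqd]; simp [ht]
      have hqW : ∀ t ∈ W, q t = c t / S := fun t ht => by rw [hqd]; simp [ht]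
      have hqn : ∀ t, 0 ≤ q t := fun t => by
        rw [hqd]
        simp only
        split_ifs
        · exact div_nonneg (hc t) hS.le
        · exact le_rfl
      have hqs : ∑ t ∈ 𝒯, q t = 1 := by
        rw [← sum_subset hW (fun t _ ht => hq0 t ht), sum_congr rfl hqW, ← sum_div, ← hSd,
          div_self hS.ne']
      have hes : ∀ x, es W c x = (S : ℂ) * es 𝒯 q x := by
        intro x
        rw [es_ext 𝒯 W hW q hq0]
        unfold es
        rw [mul_sum]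
        refine sum_congr rfl (fun t ht => ?_)
        rw [hqW t ht, ← mul_assoc, ← Complex.ofReal_mul, mul_div_cancel₀ _ hS.ne']
      have hcount := hbas' q hqn hqs
      have hmom := mom_le 𝒯 W hW q hq0 ha hσ hη hη1 hsep (M * H)
      push_cast at hmom
      have hq2 : ∑ t ∈ W, q t ^ 2 = (∑ t ∈ W, c t ^ 2) / S ^ 2 := by
        rw [sum_div]
        refine sum_congr rfl (fun t ht => ?_)
        rw [hqW t ht, div_pow]
      rw [hq2] at hmom
      obtain ⟨Q, hQ⟩ : ∃ Q : ℝ, Q = 8 * (η⁻¹ * ((M * H + 4 * (a + M * H) *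
        (2 + Real.log W.card) / σ) * ((∑ t ∈ W, c t ^ 2) / S ^ 2))) + lossT M H 𝒯.card δ := ⟨_, rfl⟩
      have hcount2 : ∀ j : ℕ, ((univ.filter (fun k : Fin H × Fin M => (1 / 2 : ℝ) ^ j ≤
          ‖es 𝒯 q (y k)‖)).card : ℝ) ≤ 4 ^ j * Q := by
        intro j
        refine (hcount j).trans ?_
        apply mul_le_mul_of_nonneg_left _ (by positivity)
        rw [hQ]
        linarith
      have hnorm1 : ∀ x, ‖es 𝒯 q x‖ ≤ 1 := by
        intro x
        refine (es_norm 𝒯 q x).trans (le_of_eq ?_)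
        rw [← hqs]
        exact sum_congr rfl (fun t _ => abs_of_nonneg (hqn t))
      have hsum := sum_two (fun k : Fin H × Fin M => ‖es 𝒯 q (y k)‖) (fun k => norm_nonneg _)
        (fun k => hnorm1 _) Q hcount2 J
      have hN : (Fintype.card (Fin H × Fin M) : ℝ) = M * H := by
        rw [Fintype.card_prod, Fintype.card_fin, Fintype.card_fin]
        push_cast
        ring
      rw [hN] at hsum
      have hCS : S ^ 2 ≤ W.card * ∑ t ∈ W, c t ^ 2 := by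
        rw [hSd]
        exact sq_sum_le_card_mul_sum_sq
      have hS2 : 0 < S ^ 2 := by positivity
      calc ∑ k, ‖es W c (y k)‖ ^ 2 = S ^ 2 * ∑ k, ‖es 𝒯 q (y k)‖ ^ 2 := by
            rw [mul_sum]
            refine sum_congr rfl (fun k _ => ?_)
            rw [hes, norm_mul, Complex.norm_real, mul_pow, Real.norm_eq_abs, sq_abs]
        _ ≤ S ^ 2 * (M * H / 4 ^ J + 4 * (J + 1) * Q) :=
            mul_le_mul_of_nonneg_left hsum hS2.le
        _ = S ^ 2 * (M * H / 4 ^ J) + 4 * (J + 1) * (8 * (η⁻¹ * ((M * H + 4 * (a + M * H) *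
              (2 + Real.log W.card) / σ) * ∑ t ∈ W, c t ^ 2)) + S ^ 2 * lossT M H 𝒯.card δ) := by
            rw [hQ]
            field_simp
        _ ≤ (W.card * ∑ t ∈ W, c t ^ 2) * (M * H / 4 ^ J) + 4 * (J + 1) *
              (8 * (η⁻¹ * ((M * H + 4 * (a + M * H) *
              (2 + Real.log W.card) / σ) * ∑ t ∈ W, c t ^ 2)) +
              (W.card * ∑ t ∈ W, c t ^ 2) * lossT M H 𝒯.card δ) := by
            have h1 := mul_le_mul_of_nonneg_right hCS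
              (by positivity : (0 : ℝ) ≤ M * H / 4 ^ J)
            have h2 := mul_le_mul_of_nonneg_right hCS
              (by linarith : (0 : ℝ) ≤ lossT M H 𝒯.card δ)
            have h3 : (0 : ℝ) ≤ 4 * (J + 1) := by positivity
            have h4 := mul_le_mul_of_nonneg_left h2 h3
            linarith
        _ = _ := by
            unfold Lam
            ring
  -- complex weights
  have hcplx : ∀ c : ℝ → ℂ, ∑ k, ‖ec W c (y k)‖ ^ 2 ≤
      4 * Lam M H J a σ η W.card (lossT M H 𝒯.card δ) * ∑ t ∈ W, ‖c t‖ ^ 2 := by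
    intro c
    have h1 : ∑ k, ‖ec W c (y k)‖ ^ 2 ≤
        4 * (∑ k, ‖es W (fun t => max (c t).re 0) (y k)‖ ^ 2 +
        ∑ k, ‖es W (fun t => max (-(c t).re) 0) (y k)‖ ^ 2 +
        ∑ k, ‖es W (fun t => max (c t).im 0) (y k)‖ ^ 2 +
        ∑ k, ‖es W (fun t => max (-(c t).im) 0) (y k)‖ ^ 2) := by
      rw [← sum_add_distrib, ← sum_add_distrib, ← sum_add_distrib, mul_sum]
      exact sum_le_sum (fun k _ => ec_split W c (y k))
    have p1 := hpos (fun t => max (c t).re 0) (fun t => le_max_right _ _)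
    have p2 := hpos (fun t => max (-(c t).re) 0) (fun t => le_max_right _ _)
    have p3 := hpos (fun t => max (c t).im 0) (fun t => le_max_right _ _)
    have p4 := hpos (fun t => max (-(c t).im) 0) (fun t => le_max_right _ _)
    have h2 : ∑ t ∈ W, max (c t).re 0 ^ 2 + ∑ t ∈ W, max (-(c t).re) 0 ^ 2 +
        ∑ t ∈ W, max (c t).im 0 ^ 2 + ∑ t ∈ W, max (-(c t).im) 0 ^ 2 = ∑ t ∈ W, ‖c t‖ ^ 2 := by
      rw [← sum_add_distrib, ← sum_add_distrib, ← sum_add_distrib]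
      refine sum_congr rfl (fun t _ => ?_)
      have hm : ∀ x : ℝ, max x 0 ^ 2 + max (-x) 0 ^ 2 = x ^ 2 := by
        intro x
        rcases le_total 0 x with h | h
        · rw [max_eq_left h, max_eq_right (by linarith)]; ring
        · rw [max_eq_right h, max_eq_left (by linarith)]; ring
      rw [hm, add_assoc, hm, ← Complex.normSq_eq_norm_sq, Complex.normSq_apply]
      ring
    rw [← h2]
    calc _ ≤ _ := h1
      _ ≤ 4 * (Lam M H J a σ η W.card (lossT M H 𝒯.card δ) * ∑ t ∈ W, max (c t).re 0 ^ 2 +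
          Lam M H J a σ η W.card (lossT M H 𝒯.card δ) * ∑ t ∈ W, max (-(c t).re) 0 ^ 2 +
          Lam M H J a σ η W.card (lossT M H 𝒯.card δ) * ∑ t ∈ W, max (c t).im 0 ^ 2 +
          Lam M H J a σ η W.card (lossT M H 𝒯.card δ) * ∑ t ∈ W, max (-(c t).im) 0 ^ 2) := by
          linarith
      _ = _ := by ring
  -- duality
  obtain ⟨D, hD⟩ : ∃ D : ℝ → ℂ, D = fun t => ∑ k, b k * ph t (y k) := ⟨_, rfl⟩
  have hDt : ∀ t, ∑ k, b k * ph t (y k) = D t := fun t => by rw [hD]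
  simp only [hDt]
  obtain ⟨X, hX⟩ : ∃ X : ℝ, X = ∑ t ∈ W, ‖D t‖ ^ 2 := ⟨_, rfl⟩
  obtain ⟨B, hB⟩ : ∃ B : ℝ, B = ∑ k, ‖b k‖ ^ 2 := ⟨_, rfl⟩
  rw [← hX, ← hB]
  have hX0 : 0 ≤ X := by rw [hX]; exact sum_nonneg (fun _ _ => by positivity)
  have hB0 : 0 ≤ B := by rw [hB]; exact sum_nonneg (fun _ _ => by positivity)
  have h1 : (X : ℂ) = ∑ k, b k * ec W (fun t => (starRingEnd ℂ) (D t)) (y k) := by
    rw [hX]
    push_cast
    have e1 : ∀ t ∈ W, ((‖D t‖ : ℂ)) ^ 2 = (starRingEnd ℂ) (D t) * ∑ k, b k * ph t (y k) := by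
      intro t _
      rw [hDt, mul_comm, Complex.mul_conj, Complex.normSq_eq_norm_sq]
      push_cast
      rfl
    rw [sum_congr rfl e1]
    unfold ec
    simp only [mul_sum]
    rw [sum_comm]
    refine sum_congr rfl (fun k _ => sum_congr rfl (fun t _ => ?_))
    ring
  have h2 : X ≤ ∑ k, ‖b k‖ * ‖ec W (fun t => (starRingEnd ℂ) (D t)) (y k)‖ := by
    calc X = ‖(X : ℂ)‖ := by rw [Complex.norm_real, Real.norm_of_nonneg hX0]
      _ ≤ _ := by
          rw [h1]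
          refine (norm_sum_le _ _).trans (le_of_eq (sum_congr rfl (fun k _ => norm_mul _ _)))
  have h3 : X ^ 2 ≤ B * (4 * Lam M H J a σ η W.card (lossT M H 𝒯.card δ) * X) := by
    have h4 := hcplx (fun t => (starRingEnd ℂ) (D t))
    have h5 : ∑ t ∈ W, ‖(starRingEnd ℂ) (D t)‖ ^ 2 = X := by
      rw [hX]
      exact sum_congr rfl (fun t _ => by rw [Complex.norm_conj])
    rw [h5] at h4
    calc X ^ 2 ≤ (∑ k, ‖b k‖ * ‖ec W (fun t => (starRingEnd ℂ) (D t)) (y k)‖) ^ 2 :=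
          pow_le_pow_left₀ hX0 h2 2
      _ ≤ (∑ k, ‖b k‖ ^ 2) * ∑ k, ‖ec W (fun t => (starRingEnd ℂ) (D t)) (y k)‖ ^ 2 :=
          sum_mul_sq_le_sq_mul_sq _ _ _
      _ ≤ _ := by
          rw [← hB]
          exact mul_le_mul_of_nonneg_left h4 hB0
  rcases hX0.eq_or_lt with h | h
  · rw [← h]
    positivity
  · have h4 : X * X ≤ (4 * Lam M H J a σ η W.card (lossT M H 𝒯.card δ) * B) * X := by
      calc X * X = X ^ 2 := by ring
        _ ≤ _ := h3
        _ = _ := by ring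
    exact le_of_mul_le_mul_right h4 h

end Pool.Agent.X149.DU
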