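import Pool.Agent.X149.SampleUniform

/-! Generalised Dirichlet polynomials with random frequencies: analytic estimates. -/

set_option autoImplicit false

namespace Pool.Agent.X149.DU

open MeasureTheory Finset Pool.Agent.X149.US

/-- `y ^ (i t)` -/
noncomputable def ph (t y : ℝ) : ℂ := Complex.exp (Complex.I * ((t * Real.log y : ℝ) : ℂ))

theorem ph_norm (t y : ℝ) : ‖ph t y‖ = 1 := by
  unfold ph
  rw [mul_comm, Complex.norm_exp_ofReal_mul_I]

theorem ph_meas (t : ℝ) : Measurable (ph t) := by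
  unfold ph
  exact Complex.measurable_exp.comp (measurable_const.mul
    (Complex.measurable_ofReal.comp (measurable_const.mul Real.measurable_log)))

theorem ph_mul_conj (t u y : ℝ) : ph t y * (starRingEnd ℂ) (ph u y) = ph (t - u) y := by
  unfold ph
  rw [← Complex.exp_conj, ← Complex.exp_add]
  congr 1
  rw [map_mul, Complex.conj_I, Complex.conj_ofReal]
  push_cast
  ring

theorem ph_cpow {t y : ℝ} (hy : 0 < y) : ph t y = (y : ℂ) ^ ((t : ℂ) * Complex.I) := by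
  unfold ph
  rw [Complex.cpow_def_of_ne_zero (by exact_mod_cast hy.ne'), ← Complex.ofReal_log hy.le]
  congr 1
  push_cast
  ring

theorem ph_cont (a b t : ℝ) :
    IntervalIntegrable (ph t) volume a b := by
  refine intervalIntegrable_const (c := (1 : ℝ)) |>.mono_fun ?_ ?_
  · exact (ph_meas t).aestronglyMeasurable
  · exact Filter.Eventually.of_forall (fun y => by simp [ph_norm])

theorem ker {a b u : ℝ} (ha : 0 < a) (hab : a ≤ b) (hu : u ≠ 0) :
    ‖∫ y in a..b, ph u y‖ ≤ 2 * b / |u| := by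
  have hb : 0 < b := ha.trans_le hab
  have h1 : ∫ y in a..b, ph u y = ∫ y in a..b, (y : ℂ) ^ ((u : ℂ) * Complex.I) := by
    refine intervalIntegral.integral_congr (fun y hy => ?_)
    rw [Set.uIcc_of_le hab] at hy
    exact ph_cpow (ha.trans_le hy.1)
  rw [h1, integral_cpow (Or.inl (by simp))]
  rw [norm_div]
  have hre : ((u : ℂ) * Complex.I + 1).re = 1 := by simp
  have him : ((u : ℂ) * Complex.I + 1).im = u := by simp
  have h2 : |u| ≤ ‖(u : ℂ) * Complex.I + 1‖ := by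
    have := Complex.abs_im_le_norm ((u : ℂ) * Complex.I + 1)
    rwa [him] at this
  have h3 : ‖(b : ℂ) ^ ((u : ℂ) * Complex.I + 1) - (a : ℂ) ^ ((u : ℂ) * Complex.I + 1)‖ ≤ 2 * b := by
    refine (norm_sub_le _ _).trans ?_
    rw [Complex.norm_cpow_eq_rpow_re_of_pos hb, Complex.norm_cpow_eq_rpow_re_of_pos ha, hre,
      Real.rpow_one, Real.rpow_one]
    linarith
  have hu0 : 0 < |u| := abs_pos.2 hu
  calc ‖(b : ℂ) ^ ((u : ℂ) * Complex.I + 1) - (a : ℂ) ^ ((u : ℂ) * Complex.I + 1)‖ /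
        ‖(u : ℂ) * Complex.I + 1‖ ≤ 2 * b / ‖(u : ℂ) * Complex.I + 1‖ := by
        apply div_le_div_of_nonneg_right h3 (norm_nonneg _)
    _ ≤ 2 * b / |u| := by
        apply div_le_div_of_nonneg_left (by positivity) hu0 h2

/-- the sum of the reciprocals of the distances, one side -/
theorem side {σ : ℝ} (hσ : 0 < σ) (S : Finset ℝ) (R : ℕ) (hR : 1 ≤ R) (hS : S.card ≤ R)
    (g : ℝ → ℝ) (hg : ∀ t ∈ S, σ ≤ g t)
    (hsep : ∀ t ∈ S, ∀ u ∈ S, t ≠ u → σ ≤ |g t - g u|) :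
    ∑ t ∈ S, 1 / g t ≤ (2 + Real.log R) / σ := by
  classical
  have hR0 : (0 : ℝ) < R := by exact_mod_cast hR
  have hfl : ∀ t ∈ S, 1 ≤ ⌊g t / σ⌋₊ := by
    intro t ht
    rw [Nat.one_le_floor_iff, le_div_iff₀ hσ, one_mul]
    exact hg t ht
  have hinj : ∀ t ∈ S, ∀ u ∈ S, ⌊g t / σ⌋₊ = ⌊g u / σ⌋₊ → t = u := by
    intro t ht u hu htu
    by_contra hne
    have h1 := hsep t ht u hu hne
    have p1 := Nat.floor_le (show 0 ≤ g t / σ from div_nonneg (hσ.le.trans (hg t ht)) hσ.le)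
    have p2 := Nat.floor_le (show 0 ≤ g u / σ from div_nonneg (hσ.le.trans (hg u hu)) hσ.le)
    have p3 := Nat.lt_floor_add_one (g t / σ)
    have p4 := Nat.lt_floor_add_one (g u / σ)
    rw [htu] at p1 p3
    have h2 : |g t / σ - g u / σ| < 1 := by
      rw [abs_lt]
      constructor <;> linarith
    rw [← sub_div, abs_div, abs_of_pos hσ, div_lt_one hσ] at h2
    linarith
  have hterm : ∀ t ∈ S, 1 / g t ≤ 1 / σ * (1 / (⌊g t / σ⌋₊ : ℝ)) := by
    intro t ht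
    have h1 : (1 : ℝ) ≤ ⌊g t / σ⌋₊ := by exact_mod_cast hfl t ht
    have p1 := Nat.floor_le (show 0 ≤ g t / σ from div_nonneg (hσ.le.trans (hg t ht)) hσ.le)
    rw [le_div_iff₀ hσ] at p1
    rw [one_div_mul_one_div]
    apply one_div_le_one_div_of_le (by positivity)
    linarith
  have hle : ∀ t ∈ S, (1 / (⌊g t / σ⌋₊ : ℝ)) ≤
      (if ⌊g t / σ⌋₊ ≤ R then 1 / (⌊g t / σ⌋₊ : ℝ) else 0) + 1 / R := by
    intro t ht
    split_ifs with h
    · have : 0 ≤ 1 / (R : ℝ) := by positivity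
      linarith
    · rw [zero_add]
      apply one_div_le_one_div_of_le hR0
      exact_mod_cast (not_le.1 h).le
  have h1 : ∑ t ∈ S, (if ⌊g t / σ⌋₊ ≤ R then 1 / (⌊g t / σ⌋₊ : ℝ) else 0) ≤ 1 + Real.log R := by
    rw [← sum_filter]
    have h2 : ∑ t ∈ S.filter (fun t => ⌊g t / σ⌋₊ ≤ R), 1 / (⌊g t / σ⌋₊ : ℝ) =
        ∑ k ∈ (S.filter (fun t => ⌊g t / σ⌋₊ ≤ R)).image (fun t => ⌊g t / σ⌋₊), 1 / (k : ℝ) := by
      rw [sum_image]
      intro t ht u hu htu
      exact hinj t (mem_filter.1 ht).1 u (mem_filter.1 hu).1 htu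
    rw [h2]
    have h3 : (S.filter (fun t => ⌊g t / σ⌋₊ ≤ R)).image (fun t => ⌊g t / σ⌋₊) ⊆ Icc 1 R := by
      intro k hk
      obtain ⟨t, ht, rfl⟩ := mem_image.1 hk
      exact mem_Icc.2 ⟨hfl t (mem_filter.1 ht).1, (mem_filter.1 ht).2⟩
    calc ∑ k ∈ (S.filter (fun t => ⌊g t / σ⌋₊ ≤ R)).image (fun t => ⌊g t / σ⌋₊), 1 / (k : ℝ)
        ≤ ∑ k ∈ Icc 1 R, 1 / (k : ℝ) := sum_le_sum_of_subset_of_nonneg h3
          (fun _ _ _ => by positivity)
      _ = (harmonic R : ℝ) := by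
          rw [harmonic_eq_sum_Icc]
          push_cast
          simp
      _ ≤ 1 + Real.log R := harmonic_le_one_add_log R
  have h2 : ∑ t ∈ S, 1 / (R : ℝ) ≤ 1 := by
    rw [sum_const, nsmul_eq_mul, mul_one_div, div_le_one hR0]
    exact_mod_cast hS
  calc ∑ t ∈ S, 1 / g t ≤ ∑ t ∈ S, 1 / σ * (1 / (⌊g t / σ⌋₊ : ℝ)) := sum_le_sum hterm
    _ = 1 / σ * ∑ t ∈ S, (1 / (⌊g t / σ⌋₊ : ℝ)) := by rw [mul_sum]
    _ ≤ 1 / σ * (2 + Real.log R) := by
        apply mul_le_mul_of_nonneg_left _ (by positivity)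
        have h3 := sum_le_sum hle
        rw [sum_add_distrib] at h3
        linarith
    _ = _ := by ring

/-- the sum of the reciprocals of the distances -/
theorem recip {σ : ℝ} (hσ : 0 < σ) (W : Finset ℝ)
    (hsep : ∀ t ∈ W, ∀ u ∈ W, t ≠ u → σ ≤ |t - u|) (t : ℝ) (ht : t ∈ W) :
    ∑ u ∈ W.erase t, 1 / |t - u| ≤ 2 * (2 + Real.log W.card) / σ := by
  classical
  have hW : 1 ≤ W.card := card_pos.2 ⟨t, ht⟩
  have h1 := side hσ ((W.erase t).filter (fun u => t < u)) W.card hW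
    ((card_filter_le _ _).trans (card_le_card (erase_subset _ _))) (fun u => u - t) (by
      intro u hu
      obtain ⟨h1, h2⟩ := mem_filter.1 hu
      have := hsep t ht u (mem_of_mem_erase h1) h2.ne
      rw [abs_sub_comm, abs_of_pos (by linarith)] at this
      exact this) (by
      intro u hu v hv huv
      have := hsep u (mem_of_mem_erase (mem_filter.1 hu).1) v
        (mem_of_mem_erase (mem_filter.1 hv).1) huv
      simpa using this)
  have h2 := side hσ ((W.erase t).filter (fun u => ¬ t < u)) W.card hW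
    ((card_filter_le _ _).trans (card_le_card (erase_subset _ _))) (fun u => t - u) (by
      intro u hu
      obtain ⟨h1, h2⟩ := mem_filter.1 hu
      have h3 : u ≠ t := (mem_erase.1 h1).1
      have := hsep t ht u (mem_of_mem_erase h1) h3.symm
      rw [abs_of_nonneg (by linarith)] at this
      exact this) (by
      intro u hu v hv huv
      have := hsep u (mem_of_mem_erase (mem_filter.1 hu).1) v
        (mem_of_mem_erase (mem_filter.1 hv).1) huv
      rw [abs_sub_comm] at this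
      simpa using this)
  rw [← sum_filter_add_sum_filter_not (W.erase t) (fun u => t < u)]
  have e1 : ∑ u ∈ (W.erase t).filter (fun u => t < u), 1 / |t - u| =
      ∑ u ∈ (W.erase t).filter (fun u => t < u), 1 / (u - t) := by
    refine sum_congr rfl (fun u hu => ?_)
    have := (mem_filter.1 hu).2
    rw [abs_sub_comm, abs_of_pos (by linarith)]
  have e2 : ∑ u ∈ (W.erase t).filter (fun u => ¬ t < u), 1 / |t - u| =
      ∑ u ∈ (W.erase t).filter (fun u => ¬ t < u), 1 / (t - u) := by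
    refine sum_congr rfl (fun u hu => ?_)
    have := (mem_filter.1 hu).2
    rw [abs_of_nonneg (by linarith)]
  rw [e1, e2]
  calc _ ≤ (2 + Real.log W.card) / σ + (2 + Real.log W.card) / σ := add_le_add h1 h2
    _ = _ := by ring

/-- the weighted exponential sum -/
noncomputable def es (W : Finset ℝ) (q : ℝ → ℝ) (y : ℝ) : ℂ := ∑ t ∈ W, (q t : ℂ) * ph t y

theorem es_meas (W : Finset ℝ) (q : ℝ → ℝ) : Measurable (es W q) := by
  unfold es
  exact Finset.measurable_fun_sum _ (fun t _ => measurable_const.mul (ph_meas t))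

theorem es_norm (W : Finset ℝ) (q : ℝ → ℝ) (y : ℝ) : ‖es W q y‖ ≤ ∑ t ∈ W, |q t| := by
  unfold es
  refine (norm_sum_le _ _).trans (sum_le_sum (fun t _ => ?_))
  rw [norm_mul, ph_norm, mul_one, Complex.norm_real, Real.norm_eq_abs]

theorem es_int (W : Finset ℝ) (q : ℝ → ℝ) (a b : ℝ) :
    IntervalIntegrable (fun y => ‖es W q y‖ ^ 2) volume a b := by
  refine (intervalIntegrable_const (c := (∑ t ∈ W, |q t|) ^ 2)).mono_fun ?_ ?_
  · exact ((es_meas W q).norm.pow_const 2).aestronglyMeasurable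
  · refine Filter.Eventually.of_forall (fun y => ?_)
    simp only
    rw [Real.norm_of_nonneg (by positivity), Real.norm_of_nonneg (by positivity)]
    exact pow_le_pow_left₀ (norm_nonneg _) (es_norm W q y) 2

/-- **Mean square.** -/
theorem meansq {a b σ : ℝ} (ha : 0 < a) (hab : a ≤ b) (hσ : 0 < σ) (W : Finset ℝ)
    (hsep : ∀ t ∈ W, ∀ u ∈ W, t ≠ u → σ ≤ |t - u|) (q : ℝ → ℝ) :
    ∫ y in a..b, ‖es W q y‖ ^ 2 ≤
      ((b - a) + 4 * b * (2 + Real.log W.card) / σ) * ∑ t ∈ W, q t ^ 2 := by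
  classical
  have hb : 0 < b := ha.trans_le hab
  have hint : ∀ t u : ℝ, IntervalIntegrable (fun y => ((q t * q u : ℝ) : ℂ) * ph (t - u) y)
      volume a b := fun t u => (ph_cont a b (t - u)).const_mul _
  have h1 : ((∫ y in a..b, ‖es W q y‖ ^ 2 : ℝ) : ℂ) =
      ∑ t ∈ W, ∑ u ∈ W, ((q t * q u : ℝ) : ℂ) * ∫ y in a..b, ph (t - u) y := by
    rw [← intervalIntegral.integral_ofReal]
    have h2 : ∀ y : ℝ, ((‖es W q y‖ ^ 2 : ℝ) : ℂ) =
        ∑ t ∈ W, ∑ u ∈ W, ((q t * q u : ℝ) : ℂ) * ph (t - u) y := by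
      intro y
      rw [← Complex.normSq_eq_norm_sq, ← Complex.mul_conj]
      unfold es
      rw [map_sum, sum_mul_sum]
      refine sum_congr rfl (fun t _ => sum_congr rfl (fun u _ => ?_))
      rw [map_mul, Complex.conj_ofReal, ← ph_mul_conj]
      push_cast
      ring
    simp only [h2]
    have hint2 : ∀ t : ℝ, IntervalIntegrable
        (fun y => ∑ u ∈ W, ((q t * q u : ℝ) : ℂ) * ph (t - u) y) volume a b := by
      intro t
      have := IntervalIntegrable.sum W (fun u _ => hint t u)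
      have e : (∑ u ∈ W, fun y => ((q t * q u : ℝ) : ℂ) * ph (t - u) y) =
          fun y => ∑ u ∈ W, ((q t * q u : ℝ) : ℂ) * ph (t - u) y := by
        funext y
        rw [Finset.sum_apply]
      rwa [e] at this
    rw [intervalIntegral.integral_finsetSum (fun t _ => hint2 t)]
    refine sum_congr rfl (fun t _ => ?_)
    rw [intervalIntegral.integral_finsetSum (fun u _ => hint t u)]
    refine sum_congr rfl (fun u _ => ?_)
    rw [intervalIntegral.integral_const_mul]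
  have h2 : ∫ y in a..b, ‖es W q y‖ ^ 2 ≤
      ∑ t ∈ W, ∑ u ∈ W, |q t * q u| * ‖∫ y in a..b, ph (t - u) y‖ := by
    have h3 : ∫ y in a..b, ‖es W q y‖ ^ 2 ≤ ‖((∫ y in a..b, ‖es W q y‖ ^ 2 : ℝ) : ℂ)‖ := by
      rw [Complex.norm_real]
      exact le_abs_self _
    refine h3.trans ?_
    rw [h1]
    refine (norm_sum_le _ _).trans (sum_le_sum (fun t _ => ?_))
    refine (norm_sum_le _ _).trans (sum_le_sum (fun u _ => ?_))
    rw [norm_mul, Complex.norm_real, Real.norm_eq_abs]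
  refine h2.trans ?_
  have h3 : ∀ t ∈ W, ∑ u ∈ W, |q t * q u| * ‖∫ y in a..b, ph (t - u) y‖ ≤
      (b - a) * q t ^ 2 + ∑ u ∈ W.erase t, (q t ^ 2 + q u ^ 2) * (b * (1 / |t - u|)) := by
    intro t ht
    rw [← add_sum_erase W _ ht]
    refine add_le_add ?_ (sum_le_sum (fun u hu => ?_))
    · have h4 : ‖∫ y in a..b, ph (t - t) y‖ ≤ b - a := by
        have := intervalIntegral.norm_integral_le_of_norm_le_const (a := a) (b := b)
          (f := ph (t - t)) (C := 1) (fun y _ => (ph_norm _ _).le)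
        rwa [one_mul, abs_of_nonneg (by linarith)] at this
      rw [abs_mul_self, ← pow_two, mul_comm]
      exact mul_le_mul_of_nonneg_right h4 (sq_nonneg _)
    · have hne : t - u ≠ 0 := sub_ne_zero.2 (ne_of_mem_erase hu).symm
      have h4 := ker ha hab hne
      have h5 : |q t * q u| * 2 ≤ q t ^ 2 + q u ^ 2 := by
        rw [abs_mul]
        nlinarith [sq_nonneg (|q t| - |q u|), sq_abs (q t), sq_abs (q u)]
      calc |q t * q u| * ‖∫ y in a..b, ph (t - u) y‖ ≤ |q t * q u| * (2 * b / |t - u|) :=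
            mul_le_mul_of_nonneg_left h4 (abs_nonneg _)
        _ = (|q t * q u| * 2) * (b * (1 / |t - u|)) := by ring
        _ ≤ _ := mul_le_mul_of_nonneg_right h5 (by positivity)
  refine (sum_le_sum h3).trans ?_
  rw [sum_add_distrib, ← mul_sum]
  have h6 : ∑ t ∈ W, ∑ u ∈ W.erase t, (q t ^ 2 + q u ^ 2) * (b * (1 / |t - u|)) =
      2 * ∑ t ∈ W, ∑ u ∈ W.erase t, q t ^ 2 * (b * (1 / |t - u|)) := by
    have h7 : ∑ t ∈ W, ∑ u ∈ W.erase t, q u ^ 2 * (b * (1 / |t - u|)) =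
        ∑ t ∈ W, ∑ u ∈ W.erase t, q t ^ 2 * (b * (1 / |t - u|)) := by
      rw [sum_comm' (s' := fun u => W.erase u) (t' := W) (by
        intro t u
        simp only [mem_erase]
        tauto)]
      refine sum_congr rfl (fun u _ => sum_congr rfl (fun t _ => ?_))
      rw [abs_sub_comm]
    rw [two_mul]
    nth_rewrite 2 [← h7]
    rw [← sum_add_distrib]
    refine sum_congr rfl (fun t _ => ?_)
    rw [← sum_add_distrib]
    refine sum_congr rfl (fun u _ => ?_)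
    ring
  rw [h6]
  have h8 : ∀ t ∈ W, ∑ u ∈ W.erase t, q t ^ 2 * (b * (1 / |t - u|)) ≤
      q t ^ 2 * (b * (2 * (2 + Real.log W.card) / σ)) := by
    intro t ht
    rw [← mul_sum, ← mul_sum]
    exact mul_le_mul_of_nonneg_left (mul_le_mul_of_nonneg_left (recip hσ W hsep t ht) hb.le)
      (sq_nonneg _)
  have h9 := sum_le_sum h8
  rw [← sum_mul] at h9
  calc (b - a) * ∑ t ∈ W, q t ^ 2 + 2 * ∑ t ∈ W, ∑ u ∈ W.erase t, q t ^ 2 * (b * (1 / |t - u|))
      ≤ (b - a) * ∑ t ∈ W, q t ^ 2 +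
        2 * ((∑ t ∈ W, q t ^ 2) * (b * (2 * (2 + Real.log W.card) / σ))) := by linarith
    _ = _ := by ring

/-- from the perturbed integers to the interval -/
theorem perturbed (W : Finset ℝ) (q : ℝ → ℝ) (a : ℝ) {η : ℝ} (hη : 0 < η) (hη1 : η ≤ 1) (n : ℕ) :
    ∑ k ∈ range n, ∫ x in (0 : ℝ)..1, ‖es W q (a + k + η * x)‖ ^ 2 ≤
      η⁻¹ * ∫ y in a..(a + n), ‖es W q y‖ ^ 2 := by
  have h1 : ∀ k ∈ range n, ∫ x in (0 : ℝ)..1, ‖es W q (a + k + η * x)‖ ^ 2 ≤
      η⁻¹ * ∫ y in (a + (k : ℕ))..(a + (k + 1 : ℕ)), ‖es W q y‖ ^ 2 := by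
    intro k _
    rw [intervalIntegral.integral_comp_add_mul (fun y => ‖es W q y‖ ^ 2) hη.ne' (a + k),
      smul_eq_mul]
    apply mul_le_mul_of_nonneg_left _ (inv_nonneg.2 hη.le)
    push_cast
    refine intervalIntegral.integral_mono_interval (by linarith) (by linarith) (by linarith) ?_
      (es_int W q _ _)
    exact Filter.Eventually.of_forall (fun y => by positivity)
  refine (sum_le_sum h1).trans ?_
  rw [← mul_sum, intervalIntegral.sum_integral_adjacent_intervals (a := fun k : ℕ => a + (k : ℝ))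
    (fun k _ => es_int W q _ _)]
  simp

/-- the uniform measure on `[0, 1]` -/
noncomputable def U : Measure ℝ := volume.restrict (Set.Icc 0 1)

instance U_prob : IsProbabilityMeasure U := ⟨by simp [U]⟩

theorem pi_U (M : ℕ) : Measure.pi (fun _ : Fin M => U) =
    (volume : Measure (Fin M → ℝ)).restrict (Set.Icc 0 1) := by
  rw [volume_pi, ← Set.pi_univ_Icc, Measure.restrict_pi_pi]
  rfl

/-- the index `h + H m` -/
theorem sum_blocks {A : Type} [AddCommMonoid A] (M H : ℕ) (F : ℕ → A) :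
    ∑ n ∈ range (M * H), F n = ∑ h : Fin H, ∑ m : Fin M, F ((h : ℕ) + H * (m : ℕ)) := by
  rw [Finset.sum_range, ← Equiv.sum_comp finProdFinEquiv (fun n : Fin (M * H) => F n),
    Fintype.sum_prod_type, sum_comm]
  rfl

open Classical in
/-- **Level sets at perturbed integers.** -/
theorem basic (𝒯 : Finset ℝ) (h𝒯 : 𝒯.Nonempty) (M H : ℕ) (hH : 1 ≤ H) (a η δ : ℝ) (hδ : 0 < δ)
    (hδ1 : δ ≤ 1) :
    ∃ E : Set (Fin M → ℝ), MeasurableSet E ∧ volume (E ∩ Set.Icc 0 1) ≤ ENNReal.ofReal δ ∧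
      ∀ θ ∉ E, ∀ q : ℝ → ℝ, (∀ t, 0 ≤ q t) → ∑ t ∈ 𝒯, q t = 1 → ∀ j : ℕ,
        ((univ.filter (fun k : Fin H × Fin M => (1 / 2 : ℝ) ^ j ≤
          ‖es 𝒯 q (a + (((k.1 : ℕ) + H * (k.2 : ℕ) : ℕ) : ℝ) + η * θ k.2)‖)).card : ℝ) ≤
        4 ^ j * (8 * (∑ n ∈ range (M * H), ∫ x in (0 : ℝ)..1, ‖es 𝒯 q (a + n + η * x)‖ ^ 2) +
          H * (3 + 1025 * Real.log (16 * (M + 1)) * Real.log 𝒯.card + Real.log (H / δ))) := by
  have : Nonempty 𝒯 := h𝒯.to_subtype
  have hH0 : (0 : ℝ) < H := by exact_mod_cast hH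
  have hcard : Fintype.card 𝒯 = 𝒯.card := Fintype.card_coe 𝒯
  have hq1 : (1 : ℝ) ≤ 𝒯.card := by exact_mod_cast card_pos.2 h𝒯
  let f : Fin H → Fin M → ℝ → ℝ := fun h m x => a + (((h : ℕ) + H * (m : ℕ) : ℕ) : ℝ) + η * x
  have hf : ∀ h m, Measurable (f h m) := fun h m =>
    measurable_const.add (measurable_const.mul measurable_id)
  have hpr : ∀ h m, IsProbabilityMeasure (U.map (f h m)) := fun h m =>
    Measure.isProbabilityMeasure_map (hf h m).aemeasurable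
  have hlaw := fun h : Fin H => uniform_law (M := M) (fun m => U.map (f h m))
    (fun (t : 𝒯) (y : ℝ) => ph t y) (fun t => ph_meas t) (fun t y => (ph_norm t y).le) (δ / H)
    (by positivity)
  choose E hEm hEle hE using hlaw
  let g : Fin H → (Fin M → ℝ) → (Fin M → ℝ) := fun h θ m => f h m (θ m)
  have hg : ∀ h, Measurable (g h) := fun h =>
    measurable_pi_lambda _ (fun m => (hf h m).comp (measurable_pi_apply m))
  refine ⟨⋃ h, g h ⁻¹' (E h), MeasurableSet.iUnion (fun h => hg h (hEm h)), ?_, ?_⟩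
  · rw [← Measure.restrict_apply (MeasurableSet.iUnion (fun h => hg h (hEm h))), ← pi_U]
    have h1 : ∀ h, Measure.pi (fun _ : Fin M => U) (g h ⁻¹' (E h)) ≤ ENNReal.ofReal (δ / H) := by
      intro h
      rw [← Measure.map_apply (hg h) (hEm h)]
      have h2 := Measure.pi_map_pi (μ := fun _ : Fin M => U) (f := fun m => f h m)
        (fun m => (hf h m).aemeasurable)
      have h3 : (fun (x : Fin M → ℝ) i => f h i (x i)) = g h := rfl
      rw [h3] at h2
      rw [h2]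
      exact hEle h
    calc Measure.pi (fun _ : Fin M => U) (⋃ h, g h ⁻¹' (E h))
        ≤ ∑ h, Measure.pi (fun _ : Fin M => U) (g h ⁻¹' (E h)) := measure_iUnion_fintype_le _ _
      _ ≤ ∑ _h : Fin H, ENNReal.ofReal (δ / H) := sum_le_sum (fun h _ => h1 h)
      _ = ENNReal.ofReal δ := by
          rw [sum_const, card_univ, Fintype.card_fin, nsmul_eq_mul, ← ENNReal.ofReal_natCast,
            ← ENNReal.ofReal_mul hH0.le, mul_div_cancel₀ _ hH0.ne']
  · intro θ hθ q hq hqs j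
    have hmean : ∀ y, mean (fun (t : 𝒯) (y : ℝ) => ph t y) (fun t : 𝒯 => q t) y = es 𝒯 q y := by
      intro y
      unfold mean es
      exact Finset.sum_coe_sort 𝒯 (fun t => (q t : ℂ) * ph t y)
    have hone : ∀ h : Fin H, ((univ.filter (fun m : Fin M => (1 / 2 : ℝ) ^ j ≤
        ‖es 𝒯 q (f h m (θ m))‖)).card : ℝ) ≤
        4 ^ j * (8 * ∑ m : Fin M, ∫ x in (0 : ℝ)..1, ‖es 𝒯 q (f h m x)‖ ^ 2) +
        4 ^ j * (3 + 1025 * Real.log (16 * (M + 1)) * Real.log 𝒯.card + Real.log (H / δ)) := by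
      intro h
      have hθh : g h θ ∉ E h := fun hc => hθ (Set.mem_iUnion.2 ⟨h, hc⟩)
      have h1 := hE h (g h θ) hθh (fun t : 𝒯 => q t) (fun t => hq t) (by
        rw [← hqs]
        exact Finset.sum_coe_sort 𝒯 q) j
      simp only [hmean] at h1
      have h2 : mom (fun m => U.map (f h m)) (fun (t : 𝒯) (y : ℝ) => ph t y)
          (fun t : 𝒯 => q t) = ∑ m : Fin M, ∫ x in (0 : ℝ)..1, ‖es 𝒯 q (f h m x)‖ ^ 2 := by
        unfold mom
        refine sum_congr rfl (fun m _ => ?_)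
        simp only [hmean]
        rw [integral_map (hf h m).aemeasurable
          ((es_meas 𝒯 q).norm.pow_const 2).aestronglyMeasurable, U,
          intervalIntegral.integral_of_le (by norm_num), integral_Icc_eq_integral_Ioc]
      rw [h2, hcard] at h1
      have hδH : δ / H ≤ 1 := by
        rw [div_le_one hH0]
        have : (1 : ℝ) ≤ H := by exact_mod_cast hH
        linarith
      have h3 := loss_le M hq1 (by positivity : 0 < δ / H) hδH j
      rw [one_div_div] at h3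
      calc ((univ.filter (fun m : Fin M => (1 / 2 : ℝ) ^ j ≤ ‖es 𝒯 q (f h m (θ m))‖)).card : ℝ)
          ≤ 8 * 4 ^ j * (∑ m : Fin M, ∫ x in (0 : ℝ)..1, ‖es 𝒯 q (f h m x)‖ ^ 2) + 2 +
            loss M 𝒯.card (δ / H) j := h1
        _ ≤ _ := by linarith
    have hcnt : ((univ.filter (fun k : Fin H × Fin M => (1 / 2 : ℝ) ^ j ≤
          ‖es 𝒯 q (a + (((k.1 : ℕ) + H * (k.2 : ℕ) : ℕ) : ℝ) + η * θ k.2)‖)).card : ℝ) =
        ∑ h : Fin H, ((univ.filter (fun m : Fin M => (1 / 2 : ℝ) ^ j ≤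
          ‖es 𝒯 q (f h m (θ m))‖)).card : ℝ) := by
      rw [card_filter, Nat.cast_sum, Fintype.sum_prod_type]
      refine sum_congr rfl (fun h _ => ?_)
      rw [card_filter, Nat.cast_sum]
    rw [hcnt]
    refine (sum_le_sum (fun h _ => hone h)).trans (le_of_eq ?_)
    rw [sum_add_distrib, sum_const, card_univ, Fintype.card_fin, nsmul_eq_mul, ← mul_sum,
      ← mul_sum, sum_blocks M H (fun n => ∫ x in (0 : ℝ)..1, ‖es 𝒯 q (a + n + η * x)‖ ^ 2)]
    ring

/-- duality -/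
theorem dual_step {K : Type} [Fintype K] (y : K → ℝ) (b : K → ℂ) (hb : ∀ k, ‖b k‖ ≤ 1) (V : ℝ)
    (hV : 0 < V) (W : Finset ℝ) (hW : W.Nonempty)
    (h : ∀ t ∈ W, V ≤ ‖∑ k, b k * ph t (y k)‖) :
    ∃ W' ⊆ W, W'.Nonempty ∧ W.card ≤ 4 * W'.card ∧
      V / 2 ≤ ∑ k, ‖es W' (fun _ => 1 / (W'.card : ℝ)) (y k)‖ := by
  classical
  let D : ℝ → ℂ := fun t => ∑ k, b k * ph t (y k)
  let u : Fin 4 → ℂ := ![1, -1, Complex.I, -Complex.I]
  have hu : ∀ i, ‖u i‖ = 1 := by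
    intro i
    fin_cases i <;> simp [u]
  let P : Fin 4 → Finset ℝ := fun i => W.filter (fun t => V / 2 ≤ (u i * D t).re)
  have hcov : W ⊆ univ.biUnion P := by
    intro t ht
    rw [mem_biUnion]
    by_contra hcon
    push Not at hcon
    have hn : ∀ i, (u i * D t).re < V / 2 := by
      intro i
      by_contra hc
      exact hcon i (mem_univ i) (mem_filter.2 ⟨ht, not_lt.1 hc⟩)
    have g1 := hn 0
    have g2 := hn 1
    have g3 := hn 2
    have g4 := hn 3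
    simp only [u, Matrix.cons_val_zero, Matrix.cons_val_one, Matrix.cons_val, one_mul, neg_mul,
      Complex.neg_re, Complex.mul_re, Complex.I_re, Complex.I_im, zero_mul, zero_sub,
      neg_neg] at g1 g2 g3 g4
    have g5 : ‖D t‖ ^ 2 < V ^ 2 := by
      rw [← Complex.normSq_eq_norm_sq, Complex.normSq_apply]
      nlinarith
    have g6 := h t ht
    have g7 : V ^ 2 ≤ ‖D t‖ ^ 2 := pow_le_pow_left₀ hV.le g6 2
    linarith
  have hcard : W.card ≤ ∑ i, (P i).card := (card_le_card hcov).trans card_biUnion_le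
  obtain ⟨i, hi⟩ : ∃ i, W.card ≤ 4 * (P i).card := by
    by_contra hcon
    push Not at hcon
    have h1 : ∑ i : Fin 4, 4 * (P i).card < ∑ i : Fin 4, W.card :=
      sum_lt_sum_of_nonempty ⟨0, mem_univ _⟩ (fun i _ => hcon i)
    rw [← mul_sum, sum_const, card_univ, Fintype.card_fin, smul_eq_mul] at h1
    omega
  have hWc := card_pos.2 hW
  have hPc : 0 < (P i).card := by omega
  refine ⟨P i, filter_subset _ _, card_pos.1 hPc, hi, ?_⟩
  have hPc0 : (0 : ℝ) < (P i).card := by exact_mod_cast hPc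
  have h1 : (P i).card * (V / 2) ≤ ∑ t ∈ P i, (u i * D t).re := by
    calc (P i).card * (V / 2) = ∑ t ∈ P i, V / 2 := by rw [sum_const, nsmul_eq_mul]
      _ ≤ _ := sum_le_sum (fun t ht => (mem_filter.1 ht).2)
  have h2 : ∑ t ∈ P i, (u i * D t).re ≤ ∑ k, ‖∑ t ∈ P i, ph t (y k)‖ := by
    rw [← Complex.re_sum, ← mul_sum]
    refine (Complex.re_le_norm _).trans ?_
    rw [norm_mul, hu, one_mul]
    have h3 : ∑ t ∈ P i, D t = ∑ k, b k * ∑ t ∈ P i, ph t (y k) := by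
      simp only [D]
      rw [sum_comm]
      refine sum_congr rfl (fun k _ => ?_)
      rw [mul_sum]
    rw [h3]
    refine (norm_sum_le _ _).trans (sum_le_sum (fun k _ => ?_))
    rw [norm_mul]
    exact mul_le_of_le_one_left (norm_nonneg _) (hb k)
  have h3 : ∀ k, ‖es (P i) (fun _ => 1 / ((P i).card : ℝ)) (y k)‖ =
      1 / ((P i).card : ℝ) * ‖∑ t ∈ P i, ph t (y k)‖ := by
    intro k
    unfold es
    rw [← mul_sum, norm_mul, Complex.norm_real, Real.norm_of_nonneg (by positivity)]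
  simp only [h3]
  rw [← mul_sum, one_div, ← div_eq_inv_mul, le_div_iff₀ hPc0]
  linarith

/-- extension of a weight by zero -/
theorem es_ext (𝒯 W : Finset ℝ) (hW : W ⊆ 𝒯) (q : ℝ → ℝ) (hq : ∀ t, t ∉ W → q t = 0) (y : ℝ) :
    es 𝒯 q y = es W q y := by
  unfold es
  refine (sum_subset hW (fun t _ ht => ?_)).symm
  rw [hq t ht]
  simp

/-- the size of the second moment -/
theorem mom_le (𝒯 W : Finset ℝ) (hW : W ⊆ 𝒯) (q : ℝ → ℝ) (hq : ∀ t, t ∉ W → q t = 0) {a σ η : ℝ}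
    (ha : 0 < a) (hσ : 0 < σ) (hη : 0 < η) (hη1 : η ≤ 1)
    (hsep : ∀ t ∈ W, ∀ u ∈ W, t ≠ u → σ ≤ |t - u|) (n : ℕ) :
    ∑ k ∈ range n, ∫ x in (0 : ℝ)..1, ‖es 𝒯 q (a + k + η * x)‖ ^ 2 ≤
      η⁻¹ * ((n + 4 * (a + n) * (2 + Real.log W.card) / σ) * ∑ t ∈ W, q t ^ 2) := by
  simp only [es_ext 𝒯 W hW q hq]
  refine (perturbed W q a hη hη1 n).trans ?_
  apply mul_le_mul_of_nonneg_left _ (inv_nonneg.2 hη.le)
  have hn : (0 : ℝ) ≤ n := Nat.cast_nonneg n
  have h := meansq ha (by linarith : a ≤ a + n) hσ W hsep q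
  rwa [add_sub_cancel_left] at h

/-- the loss in the number of points -/
noncomputable def lossT (M H : ℕ) (c δ : ℝ) : ℝ :=
  H * (3 + 1025 * Real.log (16 * (M + 1)) * Real.log c + Real.log (H / δ))

theorem lossT_pos {M H : ℕ} {c δ : ℝ} (hH : 1 ≤ H) (hc : 1 ≤ c) (hδ : 0 < δ) (hδ1 : δ ≤ 1) :
    3 * (H : ℝ) ≤ lossT M H c δ := by
  unfold lossT
  have hH0 : (1 : ℝ) ≤ H := by exact_mod_cast hH
  have h1 : 0 ≤ Real.log c := Real.log_nonneg hc
  have h2 : 0 ≤ Real.log (H / δ) := Real.log_nonneg (by rw [le_div_iff₀ hδ]; linarith)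
  have hM0 : (0 : ℝ) ≤ M := Nat.cast_nonneg M
  have h3 : 0 ≤ Real.log (16 * (M + 1)) := Real.log_nonneg (by linarith)
  have h4 : 0 ≤ 1025 * Real.log (16 * (M + 1)) * Real.log c := by positivity
  nlinarith

/-- **Large values.** -/
theorem large (𝒯 : Finset ℝ) (h𝒯 : 𝒯.Nonempty) (M H : ℕ) (hH : 1 ≤ H) (a η δ : ℝ) (ha : 0 < a)
    (hη : 0 < η) (hη1 : η ≤ 1) (hδ : 0 < δ) (hδ1 : δ ≤ 1) :
    ∃ E : Set (Fin M → ℝ), MeasurableSet E ∧ volume (E ∩ Set.Icc 0 1) ≤ ENNReal.ofReal δ ∧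
      ∀ θ ∉ E, ∀ b : Fin H × Fin M → ℂ, (∀ k, ‖b k‖ ≤ 1) → ∀ V : ℝ, 0 < V →
        ∀ σ : ℝ, 0 < σ → ∀ W ⊆ 𝒯, W.Nonempty → (∀ t ∈ W, ∀ u ∈ W, t ≠ u → σ ≤ |t - u|) →
        (∀ t ∈ W, V ≤ ‖∑ k : Fin H × Fin M, b k *
          ph t (a + (((k.1 : ℕ) + H * (k.2 : ℕ) : ℕ) : ℝ) + η * θ k.2)‖) →
        ∃ R : ℕ, 1 ≤ R ∧ W.card ≤ 4 * R ∧ V ^ 2 ≤ 128 * (M * H) *
          (8 * (η⁻¹ * ((M * H + 4 * (a + M * H) * (2 + Real.log R) / σ) * (1 / R))) +
            lossT M H 𝒯.card δ) := by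
  classical
  obtain ⟨E, hE1, hE2, hE3⟩ := basic 𝒯 h𝒯 M H hH a η δ hδ hδ1
  refine ⟨E, hE1, hE2, ?_⟩
  intro θ hθ b hb V hV σ hσ W hW hWn hsep hlarge
  obtain ⟨W', hW', hWn', hcard, hdual⟩ := dual_step
    (fun k : Fin H × Fin M => a + (((k.1 : ℕ) + H * (k.2 : ℕ) : ℕ) : ℝ) + η * θ k.2) b hb V hV W
    hWn hlarge
  have hR : 1 ≤ W'.card := card_pos.2 hWn'
  have hR0 : (0 : ℝ) < W'.card := by exact_mod_cast hR
  refine ⟨W'.card, hR, hcard, ?_⟩
  obtain ⟨q, hqd⟩ : ∃ q : ℝ → ℝ, q = fun t => if t ∈ W' then 1 / (W'.card : ℝ) else 0 := ⟨_, rfl⟩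
  have hq0 : ∀ t, t ∉ W' → q t = 0 := fun t ht => by rw [hqd]; simp [ht]
  have hqn : ∀ t, 0 ≤ q t := fun t => by
    rw [hqd]
    simp only
    split_ifs <;> positivity
  have hW'𝒯 : W' ⊆ 𝒯 := hW'.trans hW
  have hqs : ∑ t ∈ 𝒯, q t = 1 := by
    rw [← sum_subset hW'𝒯 (fun t _ ht => hq0 t ht), hqd]
    rw [sum_congr rfl (g := fun _ => 1 / (W'.card : ℝ)) (fun t ht => if_pos ht), sum_const,
      nsmul_eq_mul, mul_one_div, div_self hR0.ne']
  have hq2 : ∑ t ∈ W', q t ^ 2 = 1 / (W'.card : ℝ) := by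
    rw [hqd]
    rw [sum_congr rfl (g := fun _ => (1 / (W'.card : ℝ)) ^ 2)
      (fun t ht => by simp only [if_pos ht]), sum_const, nsmul_eq_mul]
    field_simp
  have hes : ∀ y, es 𝒯 q y = es W' (fun _ => 1 / (W'.card : ℝ)) y := by
    intro y
    rw [es_ext 𝒯 W' hW'𝒯 q hq0]
    unfold es
    refine sum_congr rfl (fun t ht => ?_)
    rw [hqd]
    simp only [if_pos ht]
  have hcount := hE3 θ hθ q hqn hqs
  have hmom := mom_le 𝒯 W' hW'𝒯 q hq0 ha hσ hη hη1
    (fun t ht u hu => hsep t (hW' ht) u (hW' hu)) (M * H)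
  rw [hq2] at hmom
  push_cast at hmom
  obtain ⟨Q, hQ⟩ : ∃ Q : ℝ, Q = 8 * (η⁻¹ * ((M * H + 4 * (a + M * H) *
    (2 + Real.log W'.card) / σ) * (1 / W'.card))) + lossT M H 𝒯.card δ := ⟨_, rfl⟩
  rw [← hQ]
  have hcT : (1 : ℝ) ≤ 𝒯.card := by exact_mod_cast card_pos.2 h𝒯
  have hlossp := lossT_pos (M := M) hH hcT hδ hδ1
  have hH0 : (0 : ℝ) < H := by exact_mod_cast hH
  have hcount2 : ∀ j : ℕ, ((univ.filter (fun k : Fin H × Fin M => (1 / 2 : ℝ) ^ j ≤
      ‖es 𝒯 q (a + (((k.1 : ℕ) + H * (k.2 : ℕ) : ℕ) : ℝ) + η * θ k.2)‖)).card : ℝ) ≤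
      4 ^ j * Q := by
    intro j
    refine (hcount j).trans ?_
    apply mul_le_mul_of_nonneg_left _ (by positivity)
    rw [hQ]
    unfold lossT
    linarith
  have hQ0 : 0 ≤ Q := by
    have h1 : 0 ≤ ∑ k ∈ range (M * H), ∫ x in (0 : ℝ)..1, ‖es 𝒯 q (a + k + η * x)‖ ^ 2 :=
      sum_nonneg (fun k _ => intervalIntegral.integral_nonneg (by norm_num)
        (fun x _ => by positivity))
    rw [hQ]
    linarith
  have hnorm1 : ∀ y, ‖es 𝒯 q y‖ ≤ 1 := by
    intro y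
    refine (es_norm 𝒯 q y).trans (le_of_eq ?_)
    rw [← hqs]
    exact sum_congr rfl (fun t _ => abs_of_nonneg (hqn t))
  have hsum := sum_one (fun k : Fin H × Fin M =>
    ‖es 𝒯 q (a + (((k.1 : ℕ) + H * (k.2 : ℕ) : ℕ) : ℝ) + η * θ k.2)‖) (fun k => norm_nonneg _)
    (fun k => hnorm1 _) Q hQ0 hcount2
  have hN : (Fintype.card (Fin H × Fin M) : ℝ) = M * H := by
    rw [Fintype.card_prod, Fintype.card_fin, Fintype.card_fin]
    push_cast
    ring
  rw [hN] at hsum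
  simp only [← hes] at hdual
  have htriv : ∑ k : Fin H × Fin M,
      ‖es 𝒯 q (a + (((k.1 : ℕ) + H * (k.2 : ℕ) : ℕ) : ℝ) + η * θ k.2)‖ ≤ M * H := by
    rw [← hN]
    calc _ ≤ ∑ _k : Fin H × Fin M, (1 : ℝ) := sum_le_sum (fun k _ => hnorm1 _)
      _ = _ := by rw [sum_const, card_univ, nsmul_eq_mul, mul_one]
  obtain ⟨N', hN'⟩ : ∃ N' : ℝ, N' = M * H := ⟨_, rfl⟩
  rw [← hN'] at hsum htriv ⊢
  have hx : 1 ≤ 4 * N' / V := by
    rw [le_div_iff₀ hV]
    linarith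
  obtain ⟨n, hn1, hn2⟩ := exists_nat_pow_near hx (by norm_num : (1 : ℝ) < 2)
  have hJ := hsum (n + 1)
  have h1 : N' / 2 ^ (n + 1) ≤ V / 4 := by
    rw [div_le_iff₀ (by positivity)]
    rw [div_lt_iff₀ hV] at hn2
    linarith
  have h2 : (2 : ℝ) ^ (n + 1) ≤ 8 * N' / V := by
    rw [pow_succ]
    calc (2 : ℝ) ^ n * 2 ≤ 4 * N' / V * 2 := by linarith
      _ = 8 * N' / V := by ring
  have h3 : V / 4 ≤ 4 * (8 * N' / V) * Q := by
    calc V / 4 ≤ 4 * 2 ^ (n + 1) * Q := by linarith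
      _ ≤ 4 * (8 * N' / V) * Q := by
          apply mul_le_mul_of_nonneg_right _ hQ0
          linarith
  have h4 : V / 4 * V ≤ 4 * (8 * N' / V) * Q * V := mul_le_mul_of_nonneg_right h3 hV.le
  have h5 : 4 * (8 * N' / V) * Q * V = 32 * N' * Q := by
    field_simp
    ring
  rw [h5] at h4
  nlinarith

end Pool.Agent.X149.DU
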