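import Mathlib
import Pool.Agent.H167R2.KNLin

/-!
# Signings of vectors from sets of small metric entropy
-/

set_option autoImplicit false

open Finset

namespace Pool.Agent.X149.EntropyKomlos

variable {d : ℕ}

/-- the base bound -/
theorem base {ι : Type} [Fintype ι] (v : ι → EuclideanSpace ℝ (Fin d)) (hv : ∀ j, ‖v j‖ ≤ 1) :
    ∃ x : ι → ℝ, (∀ j, x j = 1 ∨ x j = -1) ∧
      ∀ i, |∑ j, x j * v j i| ≤
        70000000 * (1 + Real.log (1 + ((min d (Fintype.card ι) : ℕ) : ℝ))) ^ (1 / 4 : ℝ) := by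
  classical
  have hcol : ∀ j, ∑ i, (v j i) ^ 2 ≤ 1 := by
    intro j
    have h1 : ‖v j‖ ^ 2 ≤ 1 := by
      have := norm_nonneg (v j)
      have := hv j
      nlinarith
    rw [EuclideanSpace.norm_sq_eq] at h1
    refine le_trans (le_of_eq ?_) h1
    refine Finset.sum_congr rfl fun i _ => ?_
    rw [Real.norm_eq_abs, sq_abs]
  have hent : ∀ i j, |v j i| ≤ 1 := by
    intro i j
    rw [← sq_le_one_iff_abs_le_one]
    exact (Finset.single_le_sum (f := fun k => v j k ^ 2) (fun _ _ => sq_nonneg _)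
      (Finset.mem_univ i)).trans (hcol j)
  obtain ⟨y, hy1, hy2⟩ := H167KN.komlos_form2 (fun i j => v j i) 1 one_pos le_rfl hent hcol
    (max (Fintype.card ι) 1) (le_max_right _ _)
    (fun j => (Finset.card_le_univ _).trans (le_max_left _ _)) 0 (fun _ => 0) (fun _ => by simp)
  refine ⟨y, fun j => eq_or_eq_neg_of_abs_eq (hy1 j), fun i => ?_⟩
  have h := hy2 i
  simp only [sub_zero, Nat.cast_zero, zero_mul, zero_add] at h
  have e1 : (∑ j, y j * v j i) = ∑ j, v j i * y j := Finset.sum_congr rfl fun j _ => mul_comm _ _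
  rw [e1]
  refine h.trans (mul_le_mul_of_nonneg_left ((min_le_left _ _).trans (le_of_eq ?_)) (by norm_num))
  congr 1
  simp [H167BK.slog]

/-- scaled version for a part of a family -/
theorem base_part {ι : Type} (J : Finset ι) (v : ι → EuclideanSpace ℝ (Fin d)) (ρ : ℝ) (hρ : 0 < ρ)
    (hv : ∀ j ∈ J, ‖v j‖ ≤ ρ) :
    ∃ x : ι → ℝ, (∀ j, x j = 1 ∨ x j = -1) ∧
      ∀ i, |∑ j ∈ J, x j * v j i| ≤
        ρ * (70000000 * (1 + Real.log (1 + ((min d J.card : ℕ) : ℝ))) ^ (1 / 4 : ℝ)) := by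
  classical
  obtain ⟨x, hx1, hx2⟩ := base (ι := {j // j ∈ J}) (fun j => ρ⁻¹ • v j.1) (fun j => by
    rw [norm_smul, Real.norm_eq_abs, abs_of_pos (inv_pos.2 hρ)]
    rw [inv_mul_le_iff₀ hρ, mul_one]
    exact hv j.1 j.2)
  refine ⟨fun j => if h : j ∈ J then x ⟨j, h⟩ else 1, fun j => ?_, fun i => ?_⟩
  · show (if h : j ∈ J then x ⟨j, h⟩ else 1) = 1 ∨ (if h : j ∈ J then x ⟨j, h⟩ else 1) = -1
    by_cases h : j ∈ J
    · rw [dif_pos h]; exact hx1 _
    · rw [dif_neg h]; exact Or.inl rfl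
  · have h := hx2 i
    rw [Fintype.card_coe] at h
    have e1 : (∑ j : {j // j ∈ J}, x j * (ρ⁻¹ • v j.1) i) =
        ρ⁻¹ * ∑ j ∈ J, (if h : j ∈ J then x ⟨j, h⟩ else 1) * v j i := by
      rw [Finset.mul_sum, ← Finset.sum_coe_sort J]
      refine Finset.sum_congr rfl fun j _ => ?_
      rw [dif_pos j.2]
      simp only [PiLp.smul_apply, smul_eq_mul]
      ring
    rw [e1, abs_mul, abs_of_pos (inv_pos.2 hρ), inv_mul_le_iff₀ hρ] at h
    exact h

/-- pairs inside the classes of `f` -/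
theorem pairing {ι : Type} (N : ℕ) (f : ι → Fin N) : ∀ (k : ℕ) (J : Finset ι), J.card = k →
    ∃ (L : Finset ι) (m : ℕ) (p q : Fin m → ι), L ⊆ J ∧ L.card ≤ N ∧ 2 * m + L.card = J.card ∧
      (∀ k, p k ∈ J ∧ q k ∈ J ∧ f (p k) = f (q k)) ∧
      ∀ (a : Fin m → ℝ) (b : ι → ℝ), (∀ k, a k = 1 ∨ a k = -1) → (∀ i, b i = 1 ∨ b i = -1) →
        ∃ x : ι → ℝ, (∀ i, x i = 1 ∨ x i = -1) ∧
          ∀ g : ι → ℝ, ∑ i ∈ J, x i * g i = ∑ k, a k * (g (p k) - g (q k)) + ∑ i ∈ L, b i * g i := by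
  classical
  intro k
  induction k using Nat.strong_induction_on with
  | _ k ih =>
    intro J hJ
    by_cases hN : J.card ≤ N
    · refine ⟨J, 0, Fin.elim0, Fin.elim0, Finset.Subset.refl _, hN, by simp, fun k => k.elim0, ?_⟩
      intro a b _ hb
      exact ⟨b, hb, fun g => by simp⟩
    · push Not at hN
      obtain ⟨i, hi, j, hj, hij, hf⟩ := Finset.exists_ne_map_eq_of_card_lt_of_maps_to
        (s := J) (t := (Finset.univ : Finset (Fin N))) (by simpa using hN) (f := f)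
        (fun _ _ => Finset.mem_univ _)
      have hji : j ∈ J.erase i := Finset.mem_erase.2 ⟨hij.symm, hj⟩
      have hc1 : (J.erase i).card + 1 = J.card := Finset.card_erase_add_one hi
      have hc2 : ((J.erase i).erase j).card + 1 = (J.erase i).card := Finset.card_erase_add_one hji
      obtain ⟨L, m, p, q, hL, hLN, hm, hpq, hab⟩ := ih ((J.erase i).erase j).card (by omega)
        ((J.erase i).erase j) rfl
      have hsub : (J.erase i).erase j ⊆ J := (Finset.erase_subset _ _).trans (Finset.erase_subset _ _)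
      refine ⟨L, m + 1, Fin.cons i p, Fin.cons j q, hL.trans hsub, hLN, by omega, ?_, ?_⟩
      · intro k
        refine Fin.cases ?_ (fun k => ?_) k
        · exact ⟨hi, hj, hf⟩
        · obtain ⟨h1, h2, h3⟩ := hpq k
          exact ⟨hsub h1, hsub h2, h3⟩
      · intro a b ha hb
        obtain ⟨x, hx, hxg⟩ := hab (fun k => a k.succ) b (fun k => ha k.succ) hb
        refine ⟨Function.update (Function.update x i (a 0)) j (-a 0), fun t => ?_, fun g => ?_⟩
        · by_cases h1 : t = j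
          · subst h1
            rw [Function.update_self]
            rcases ha 0 with h | h
            · right; rw [h]
            · left; rw [h]; norm_num
          · rw [Function.update_of_ne h1]
            by_cases h2 : t = i
            · subst h2
              rw [Function.update_self]
              exact ha 0
            · rw [Function.update_of_ne h2]
              exact hx t
        · rw [← Finset.add_sum_erase J _ hi, ← Finset.add_sum_erase (J.erase i) _ hji]
          have e1 : ∑ t ∈ (J.erase i).erase j,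
              Function.update (Function.update x i (a 0)) j (-a 0) t * g t =
              ∑ t ∈ (J.erase i).erase j, x t * g t := by
            refine Finset.sum_congr rfl fun t ht => ?_
            have h1 : t ≠ j := (Finset.mem_erase.1 ht).1
            have h2 : t ≠ i := (Finset.mem_erase.1 (Finset.mem_erase.1 ht).2).1
            rw [Function.update_of_ne h1, Function.update_of_ne h2]
          rw [e1, hxg g, Fin.sum_univ_succ]
          rw [Function.update_of_ne hij, Function.update_self, Function.update_self]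
          simp only [Fin.cons_zero, Fin.cons_succ]
          ring

/-- the classes of `f` have diameter at most `η` on `T` -/
def Cell (T : Set (EuclideanSpace ℝ (Fin d))) (N : ℕ) (η : ℝ) : Prop :=
  ∃ f : EuclideanSpace ℝ (Fin d) → Fin N, ∀ x ∈ T, ∀ y ∈ T, f x = f y → ‖x - y‖ ≤ η

/-- differences -/
theorem cell_sub {T T' : Set (EuclideanSpace ℝ (Fin d))} {N : ℕ} {η : ℝ} (h : Cell T N η)
    (hT : ∀ z ∈ T', ∃ x ∈ T, ∃ y ∈ T, z = x - y) : Cell T' (N * N) (2 * η) := by
  classical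
  obtain ⟨f, hf⟩ := h
  refine ⟨fun z => if hz : ∃ x ∈ T, ∃ y ∈ T, z = x - y then
    finProdFinEquiv (f hz.choose, f hz.choose_spec.2.choose) else finProdFinEquiv (f z, f z), ?_⟩
  intro z hz w hw hzw
  have h1 := hT z hz
  have h2 := hT w hw
  simp only [dif_pos h1, dif_pos h2] at hzw
  have h3 := finProdFinEquiv.injective hzw
  rw [Prod.mk.injEq] at h3
  have hx1 := h1.choose_spec.1
  have hy1 := h1.choose_spec.2.choose_spec.1
  have e1 := h1.choose_spec.2.choose_spec.2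
  have hx2 := h2.choose_spec.1
  have hy2 := h2.choose_spec.2.choose_spec.1
  have e2 := h2.choose_spec.2.choose_spec.2
  have d1 := hf _ hx1 _ hx2 h3.1
  have d2 := hf _ hy1 _ hy2 h3.2
  rw [e1, e2]
  have e3 : ∀ a b a' b' : EuclideanSpace ℝ (Fin d), a - b - (a' - b') = (a - a') - (b - b') := by
    intro a b a' b'; abel
  rw [e3]
  refine (norm_sub_le _ _).trans ?_
  linarith

/-- the iterated difference sets -/
def Tq (T : Set (EuclideanSpace ℝ (Fin d))) (ρ : ℕ → ℝ) : ℕ → Set (EuclideanSpace ℝ (Fin d))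
  | 0 => T
  | s + 1 => {z | ‖z‖ ≤ ρ (s + 1) ∧ ∃ x ∈ Tq T ρ s, ∃ y ∈ Tq T ρ s, z = x - y}

theorem cell_Tq {T : Set (EuclideanSpace ℝ (Fin d))} {ρ : ℕ → ℝ} {N : ℕ} {η : ℝ} (h : Cell T N η) :
    ∀ s : ℕ, Cell (Tq T ρ s) (N ^ (2 ^ s)) (2 ^ s * η) := by
  intro s
  induction s with
  | zero => simpa [Tq] using h
  | succ s ih =>
    have h1 := cell_sub (T' := Tq T ρ (s + 1)) ih (fun z hz => hz.2)
    rw [← pow_add, ← two_mul, ← mul_assoc] at h1
    have e1 : 2 * 2 ^ s = 2 ^ (s + 1) := by rw [pow_succ]; ring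
    have e2 : (2 : ℝ) * 2 ^ s = 2 ^ (s + 1) := by rw [pow_succ]; ring
    rw [e1, e2] at h1
    exact h1

theorem norm_Tq {T : Set (EuclideanSpace ℝ (Fin d))} {ρ : ℕ → ℝ} (h : ∀ x ∈ T, ‖x‖ ≤ ρ 0) :
    ∀ s : ℕ, ∀ x ∈ Tq T ρ s, ‖x‖ ≤ ρ s := by
  intro s
  cases s with
  | zero => exact h
  | succ s => exact fun x hx => hx.1

/-- the cost of a part with at most `N` vectors of norm at most `ρ` -/
noncomputable def cost (ρ : ℝ) (N : ℕ) : ℝ :=
  ρ * (70000000 * (1 + Real.log (1 + (N : ℝ))) ^ (1 / 4 : ℝ))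

theorem cost_mono {ρ : ℝ} (hρ : 0 < ρ) {M N : ℕ} (h : M ≤ N) :
    ρ * (70000000 * (1 + Real.log (1 + (M : ℝ))) ^ (1 / 4 : ℝ)) ≤ cost ρ N := by
  unfold cost
  have hM : (0 : ℝ) ≤ M := Nat.cast_nonneg _
  have h1 : (M : ℝ) ≤ N := by exact_mod_cast h
  have h2 : 0 ≤ Real.log (1 + (M : ℝ)) := Real.log_nonneg (by linarith)
  gcongr

/-- the chain of pairings -/
theorem chain {T : Set (EuclideanSpace ℝ (Fin d))} {ρ : ℕ → ℝ} (hρ : ∀ s, 0 < ρ s)
    (hT : ∀ x ∈ T, ‖x‖ ≤ ρ 0) (N : ℕ → ℕ) (n₀ S : ℕ)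
    (hN : ∀ s < S, Cell (Tq T ρ s) (N s) (ρ (s + 1))) :
    ∀ t s : ℕ, s + t = S → ∀ (n : ℕ) (v : Fin n → EuclideanSpace ℝ (Fin d)), n ≤ n₀ →
      (∀ j, v j ∈ Tq T ρ s) → ∃ x : Fin n → ℝ, (∀ j, x j = 1 ∨ x j = -1) ∧
        ∀ i, |∑ j, x j * v j i| ≤ ∑ u ∈ Finset.Ico s S, cost (ρ u) (N u) + cost (ρ S) (min d n₀) := by
  classical
  intro t
  induction t with
  | zero =>
    intro s hs n v hn hv
    have hsS : s = S := by omega
    subst hsS
    obtain ⟨x, hx1, hx2⟩ := base_part (Finset.univ : Finset (Fin n)) v (ρ s) (hρ s)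
      (fun j _ => norm_Tq hT s _ (hv j))
    refine ⟨x, hx1, fun i => (hx2 i).trans ?_⟩
    rw [Finset.Ico_self, Finset.sum_empty, zero_add, Finset.card_univ, Fintype.card_fin]
    exact cost_mono (hρ s) (by omega)
  | succ t ih =>
    intro s hs n v hn hv
    obtain ⟨f, hf⟩ := hN s (by omega)
    obtain ⟨L, m, p, q, hL, hLN, hm, hpq, hab⟩ := pairing (N s) (fun j => f (v j)) _
      (Finset.univ : Finset (Fin n)) rfl
    rw [Finset.card_univ, Fintype.card_fin] at hm
    obtain ⟨a, ha1, ha2⟩ := ih (s + 1) (by omega) m (fun k => v (p k) - v (q k)) (by omega)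
      (fun k => ⟨hf _ (hv _) _ (hv _) (hpq k).2.2, v (p k), hv _, v (q k), hv _, rfl⟩)
    obtain ⟨b, hb1, hb2⟩ := base_part L v (ρ s) (hρ s) (fun j _ => norm_Tq hT s _ (hv j))
    obtain ⟨x, hx1, hx2⟩ := hab a b ha1 hb1
    refine ⟨x, hx1, fun i => ?_⟩
    rw [hx2 (fun j => v j i)]
    have h1 := ha2 i
    have h2 := (hb2 i).trans (cost_mono (hρ s) ((min_le_right _ _).trans hLN))
    simp only [PiLp.sub_apply] at h1
    refine (abs_add_le _ _).trans ?_
    rw [Finset.sum_eq_sum_Ico_succ_bot (show s < S by omega)]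
    linarith

end Pool.Agent.X149.EntropyKomlos
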