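import Mathlib

/-! Functions of low degree on product sets: alternating sums, supports, substitutions, products. -/

namespace Pool.Agent.X149.LD

open Finset

/-- `g` depends only on the coordinates in `T` -/
def Dep {ι α β : Type} (T : Finset ι) (g : (ι → α) → β) : Prop :=
  ∀ x y : ι → α, (∀ i ∈ T, x i = y i) → g x = g y

/-- The function `f` with values in the field `K` is a linear combination of functions each of
which depends on at most `d` coordinates. -/
def Deg {ι α : Type} (K : Type) [Field K] (d : ℕ) (f : (ι → α) → K) : Prop :=
  f ∈ Submodule.span K {g : (ι → α) → K | ∃ T : Finset ι, T.card ≤ d ∧ Dep T g}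

section
variable {ι α κ : Type} {K : Type} [Field K]

theorem deg_of_dep {T : Finset ι} {g : (ι → α) → K} {d : ℕ} (hT : T.card ≤ d) (hg : Dep T g) :
    Deg K d g := Submodule.subset_span ⟨T, hT, hg⟩

theorem deg_mono {a b : ℕ} (hab : a ≤ b) {f : (ι → α) → K} (hf : Deg K a f) : Deg K b f := by
  refine Submodule.span_mono ?_ hf
  rintro g ⟨T, hT, hg⟩
  exact ⟨T, hT.trans hab, hg⟩

theorem deg_const (c : K) (d : ℕ) : Deg K d (fun _ : ι → α => c) :=
  deg_of_dep (T := ∅) (by simp) (fun _ _ _ => rfl)

theorem deg_add {d : ℕ} {f g : (ι → α) → K} (hf : Deg K d f) (hg : Deg K d g) :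
    Deg K d (fun x => f x + g x) := Submodule.add_mem _ hf hg

theorem deg_sub {d : ℕ} {f g : (ι → α) → K} (hf : Deg K d f) (hg : Deg K d g) :
    Deg K d (fun x => f x - g x) := Submodule.sub_mem _ hf hg

theorem deg_smul {d : ℕ} {f : (ι → α) → K} (c : K) (hf : Deg K d f) :
    Deg K d (fun x => c * f x) := Submodule.smul_mem _ c hf

theorem deg_sum {J : Type} {d : ℕ} (s : Finset J) (f : J → (ι → α) → K)
    (hf : ∀ j ∈ s, Deg K d (f j)) : Deg K d (fun x => ∑ j ∈ s, f j x) := by
  have h : (fun x => ∑ j ∈ s, f j x) = ∑ j ∈ s, f j := by
    funext x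
    rw [Finset.sum_apply]
  rw [h]
  exact Submodule.sum_mem _ hf

theorem deg_mul {a b : ℕ} {f g : (ι → α) → K} (hf : Deg K a f) (hg : Deg K b g) :
    Deg K (a + b) (fun x => f x * g x) := by
  classical
  refine Submodule.span_induction₂
    (p := fun (u v : (ι → α) → K) _ _ => Deg K (a + b) (fun x => u x * v x))
    ?_ ?_ ?_ ?_ ?_ ?_ ?_ hf hg
  · rintro u v ⟨T, hT, hu⟩ ⟨S, hS, hv⟩
    refine deg_of_dep (T := T ∪ S) ((Finset.card_union_le _ _).trans (by omega)) ?_
    intro x y hxy
    show u x * v x = u y * v y
    rw [hu x y (fun i hi => hxy i (Finset.mem_union_left _ hi)),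
      hv x y (fun i hi => hxy i (Finset.mem_union_right _ hi))]
  · intro y _
    simpa using deg_const (ι := ι) (α := α) (0 : K) (a + b)
  · intro x _
    simpa using deg_const (ι := ι) (α := α) (0 : K) (a + b)
  · intro x y z _ _ _ h1 h2
    have := deg_add h1 h2
    simpa [add_mul] using this
  · intro x y z _ _ _ h1 h2
    have := deg_add h1 h2
    simpa [mul_add] using this
  · intro r x y _ _ h
    have := deg_smul r h
    simpa [mul_assoc] using this
  · intro r x y _ _ h
    have := deg_smul r h
    simpa [mul_left_comm] using this

theorem deg_prod {J : Type} (s : Finset J) (d : J → ℕ) (f : J → (ι → α) → K)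
    (hf : ∀ j ∈ s, Deg K (d j) (f j)) : Deg K (∑ j ∈ s, d j) (fun x => ∏ j ∈ s, f j x) := by
  classical
  induction s using Finset.induction_on with
  | empty => simpa using deg_const (ι := ι) (α := α) (1 : K) 0
  | insert j s hj ih =>
    have h1 := ih (fun i hi => hf i (Finset.mem_insert_of_mem hi))
    have h2 := deg_mul (hf j (Finset.mem_insert_self _ _)) h1
    simpa [Finset.sum_insert hj, Finset.prod_insert hj] using h2

theorem deg_pow {d : ℕ} {f : (ι → α) → K} (hf : Deg K d f) (m : ℕ) :
    Deg K (m * d) (fun x => f x ^ m) := by
  induction m with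
  | zero => simpa using deg_const (ι := ι) (α := α) (1 : K) 0
  | succ m ih =>
    have h := deg_mul ih hf
    have e : (m + 1) * d = m * d + d := by ring
    rw [e]
    simpa [pow_succ] using h

/-- Substitution of functions of at most `m` variables. -/
theorem deg_comp {β : Type} {d m : ℕ} {f : (ι → α) → K} (hf : Deg K d f)
    (φ : (κ → β) → ι → α) (hφ : ∀ i, ∃ T : Finset κ, T.card ≤ m ∧ Dep T (fun y => φ y i)) :
    Deg K (m * d) (fun y => f (φ y)) := by
  classical
  choose T hT hdep using hφ
  refine Submodule.span_induction
    (p := fun (u : (ι → α) → K) _ => Deg K (m * d) (fun y => u (φ y))) ?_ ?_ ?_ ?_ hf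
  · rintro u ⟨S, hS, hu⟩
    refine deg_of_dep (T := S.biUnion T) ?_ ?_
    · calc (S.biUnion T).card ≤ ∑ i ∈ S, (T i).card := Finset.card_biUnion_le
        _ ≤ ∑ i ∈ S, m := Finset.sum_le_sum (fun i _ => hT i)
        _ = S.card * m := by rw [Finset.sum_const, smul_eq_mul]
        _ ≤ d * m := Nat.mul_le_mul_right _ hS
        _ = m * d := Nat.mul_comm _ _
    · intro x y hxy
      refine hu _ _ (fun i hi => ?_)
      exact hdep i x y (fun j hj => hxy j (Finset.mem_biUnion.2 ⟨i, hi, hj⟩))
  · simpa using deg_const (ι := κ) (α := β) (0 : K) (m * d)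
  · intro x y _ _ h1 h2
    exact deg_add h1 h2
  · intro r x _ h
    exact deg_smul r h

end

section cube
variable {κ : Type} [Fintype κ] [DecidableEq κ] {K : Type} [Field K]

/-- the difference in direction `i` -/
def diff (i : κ) (f : (κ → Bool) → K) : (κ → Bool) → K :=
  fun y => f (Function.update y i true) - f (Function.update y i false)

theorem diff_deg {d : ℕ} {f : (κ → Bool) → K} (hf : Deg K d f) (i : κ) :
    Deg K (d - 1) (diff i f) ∧ (d = 0 → diff i f = 0) := by
  refine Submodule.span_induction
    (p := fun (u : (κ → Bool) → K) _ => Deg K (d - 1) (diff i u) ∧ (d = 0 → diff i u = 0))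
    ?_ ?_ ?_ ?_ hf
  · rintro u ⟨T, hT, hu⟩
    by_cases hi : i ∈ T
    · constructor
      · refine deg_of_dep (T := T.erase i) ?_ ?_
        · rw [Finset.card_erase_of_mem hi]
          omega
        · intro x y hxy
          have h1 : u (Function.update x i true) = u (Function.update y i true) := by
            refine hu _ _ (fun j hj => ?_)
            by_cases hji : j = i
            · subst hji; simp
            · simpa [Function.update_of_ne hji] using hxy j (Finset.mem_erase.2 ⟨hji, hj⟩)
          have h2 : u (Function.update x i false) = u (Function.update y i false) := by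
            refine hu _ _ (fun j hj => ?_)
            by_cases hji : j = i
            · subst hji; simp
            · simpa [Function.update_of_ne hji] using hxy j (Finset.mem_erase.2 ⟨hji, hj⟩)
          simp only [diff]
          rw [h1, h2]
      · intro h0
        exfalso
        have := Finset.card_pos.2 ⟨i, hi⟩
        omega
    · have h0 : diff i u = 0 := by
        funext y
        simp only [diff, Pi.zero_apply]
        rw [sub_eq_zero]
        refine hu _ _ (fun j hj => ?_)
        have hji : j ≠ i := fun h => hi (h ▸ hj)
        simp [Function.update_of_ne hji]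
      refine ⟨?_, fun _ => h0⟩
      rw [h0]
      exact deg_const (ι := κ) (α := Bool) (0 : K) (d - 1)
  · have h0 : diff i (0 : (κ → Bool) → K) = 0 := by
      funext y; simp [diff]
    rw [h0]
    exact ⟨deg_const (ι := κ) (α := Bool) (0 : K) (d - 1), fun _ => rfl⟩
  · intro x y _ _ h1 h2
    have e : diff i (x + y) = fun z => diff i x z + diff i y z := by
      funext z; simp only [diff, Pi.add_apply]; ring
    rw [e]
    refine ⟨deg_add h1.1 h2.1, fun h => ?_⟩
    rw [h1.2 h, h2.2 h]
    funext z; simp
  · intro r x _ h
    have e : diff i (r • x) = fun z => r * diff i x z := by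
      funext z; simp only [diff, Pi.smul_apply, smul_eq_mul]; ring
    rw [e]
    refine ⟨deg_smul r h.1, fun hd => ?_⟩
    rw [h.2 hd]
    funext z; simp

open Classical in
/-- the points of the support which agree with `x` off `S` -/
noncomputable def sup (f : (κ → Bool) → K) (S : Finset κ) (x : κ → Bool) : Finset (κ → Bool) :=
  Finset.univ.filter (fun y => (∀ i, i ∉ S → y i = x i) ∧ f y ≠ 0)

theorem mem_sup {f : (κ → Bool) → K} {S : Finset κ} {x y : κ → Bool} :
    y ∈ sup f S x ↔ (∀ i, i ∉ S → y i = x i) ∧ f y ≠ 0 := by
  simp [sup]

/-- A function of degree at most `d` that does not vanish at `x` does not vanish at at least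
`2 ^ (|S| - d)` of the points that agree with `x` off `S`. -/
theorem sup_card (S : Finset κ) : ∀ (d : ℕ) (f : (κ → Bool) → K), Deg K d f →
    ∀ x, f x ≠ 0 → 2 ^ S.card ≤ 2 ^ d * (sup f S x).card := by
  classical
  induction S using Finset.induction_on with
  | empty =>
    intro d f _ x hx
    have h1 : 1 ≤ (sup f ∅ x).card := Finset.card_pos.2 ⟨x, mem_sup.2 ⟨fun _ _ => rfl, hx⟩⟩
    have h2 : 1 ≤ 2 ^ d := Nat.one_le_two_pow
    simpa using Nat.mul_le_mul h2 h1
  | insert i S hi ih =>
    intro d f hf x hx
    rw [Finset.card_insert_of_notMem hi]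
    -- slices
    have hslice : ∀ b : Bool, (sup f S (Function.update x i b)) ⊆ sup f (insert i S) x := by
      intro b y hy
      rw [mem_sup] at hy ⊢
      refine ⟨fun j hj => ?_, hy.2⟩
      rw [Finset.mem_insert, not_or] at hj
      rw [hy.1 j hj.2, Function.update_of_ne hj.1]
    have hdisj : Disjoint (sup f S (Function.update x i true))
        (sup f S (Function.update x i false)) := by
      rw [Finset.disjoint_left]
      intro y hy hy'
      rw [mem_sup] at hy hy'
      have h1 := hy.1 i hi
      have h2 := hy'.1 i hi
      rw [Function.update_self] at h1 h2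
      rw [h1] at h2
      exact Bool.noConfusion h2
    have hsum : (sup f S (Function.update x i true)).card
        + (sup f S (Function.update x i false)).card ≤ (sup f (insert i S) x).card := by
      rw [← Finset.card_union_of_disjoint hdisj]
      exact Finset.card_le_card (Finset.union_subset (hslice true) (hslice false))
    by_cases hz : ∃ y, (∀ j, j ∉ S → y j = x j) ∧ diff i f y ≠ 0
    · obtain ⟨y, hy1, hy2⟩ := hz
      have hd0 : d ≠ 0 := fun h => hy2 (by rw [(diff_deg hf i).2 h]; rfl)
      have h1 := ih (d - 1) (diff i f) (diff_deg hf i).1 y hy2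
      have h2 : (sup (diff i f) S y).card ≤ (sup f (insert i S) x).card := by
        refine Finset.card_le_card_of_injOn
          (fun z => if f (Function.update z i true) ≠ 0 then Function.update z i true
            else Function.update z i false) ?_ ?_
        · intro z hz
          have hz' := mem_sup.1 (Finset.mem_coe.1 hz)
          have hne : f (Function.update z i true) ≠ 0 ∨ f (Function.update z i false) ≠ 0 := by
            by_contra hcon
            push Not at hcon
            apply hz'.2
            simp [diff, hcon.1, hcon.2]
          show (if f (Function.update z i true) ≠ 0 then Function.update z i true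
            else Function.update z i false) ∈ ((sup f (insert i S) x : Finset (κ → Bool)) : Set _)
          rw [Finset.mem_coe]
          have hoff : ∀ b : Bool, ∀ j, j ∉ insert i S → Function.update z i b j = x j := by
            intro b j hj
            rw [Finset.mem_insert, not_or] at hj
            rw [Function.update_of_ne hj.1, hz'.1 j hj.2, hy1 j hj.2]
          split_ifs with h
          · exact mem_sup.2 ⟨hoff true, h⟩
          · refine mem_sup.2 ⟨hoff false, ?_⟩
            rcases hne with h' | h'
            · exact absurd h' h
            · exact h'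
        · intro z hz w hw hzw
          have hz' := mem_sup.1 (Finset.mem_coe.1 hz)
          have hw' := mem_sup.1 (Finset.mem_coe.1 hw)
          have hkey : ∀ b c : Bool, Function.update z i b = Function.update w i c → z = w := by
            intro b c h
            funext j
            by_cases hj : j = i
            · subst hj
              rw [hz'.1 j hi, hw'.1 j hi]
            · have := congrFun h j
              rwa [Function.update_of_ne hj, Function.update_of_ne hj] at this
          simp only at hzw
          split_ifs at hzw <;> exact hkey _ _ hzw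
      have h3 : 2 ^ (S.card + 1) = 2 * 2 ^ S.card := by ring
      have h4 : 2 ^ d = 2 * 2 ^ (d - 1) := by
        obtain ⟨e, rfl⟩ := Nat.exists_eq_succ_of_ne_zero hd0
        rw [Nat.succ_sub_one, pow_succ]
        ring
      rw [h3, h4, Nat.mul_assoc]
      exact Nat.mul_le_mul_left 2 (h1.trans (Nat.mul_le_mul_left _ h2))
    · push Not at hz
      have heq : ∀ y, (∀ j, j ∉ S → y j = x j) →
          f (Function.update y i true) = f (Function.update y i false) := by
        intro y hy
        have := hz y hy
        simpa [diff, sub_eq_zero] using this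
      have hx2 : ∀ b : Bool, f (Function.update x i b) ≠ 0 := by
        intro b
        have h1 := heq x (fun _ _ => rfl)
        have h2 : Function.update x i (x i) = x := Function.update_eq_self i x
        cases b with
        | true =>
          cases hxi : x i with
          | true => rw [hxi] at h2; rwa [h2]
          | false => rw [hxi] at h2; rw [h1, h2]; exact hx
        | false =>
          cases hxi : x i with
          | true => rw [hxi] at h2; rw [← h1, h2]; exact hx
          | false => rw [hxi] at h2; rwa [h2]
      have h1 := ih d f hf _ (hx2 true)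
      have h2 := ih d f hf _ (hx2 false)
      calc 2 ^ (S.card + 1) = 2 ^ S.card + 2 ^ S.card := by ring
        _ ≤ 2 ^ d * (sup f S (Function.update x i true)).card
            + 2 ^ d * (sup f S (Function.update x i false)).card := Nat.add_le_add h1 h2
        _ = 2 ^ d * ((sup f S (Function.update x i true)).card
            + (sup f S (Function.update x i false)).card) := by ring
        _ ≤ 2 ^ d * (sup f (insert i S) x).card := Nat.mul_le_mul_left _ hsum

/-- The support of a function of degree at most `d` on the cube that does not vanish at `x`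
has at least `2 ^ (n - d)` points. -/
theorem support_card {d : ℕ} {f : (κ → Bool) → K} (hf : Deg K d f) {x : κ → Bool} (hx : f x ≠ 0) :
    2 ^ Fintype.card κ ≤ 2 ^ d * Set.ncard {y : κ → Bool | f y ≠ 0} := by
  classical
  have h := sup_card (Finset.univ : Finset κ) d f hf x hx
  have e : ((sup f Finset.univ x : Finset (κ → Bool)) : Set (κ → Bool)) = {y | f y ≠ 0} := by
    ext y
    rw [Finset.mem_coe, mem_sup]
    simp
  rw [← e, Set.ncard_coe_finset]
  rwa [Finset.card_univ] at h

/-- A second point of the support. -/
theorem exists_ne {d : ℕ} {f : (κ → Bool) → K} (hf : Deg K d f) (hd : d < Fintype.card κ)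
    {x : κ → Bool} (hx : f x ≠ 0) : ∃ y, y ≠ x ∧ f y ≠ 0 := by
  classical
  by_contra hcon
  push Not at hcon
  have h := support_card hf hx
  have h1 : Set.ncard {y : κ → Bool | f y ≠ 0} ≤ 1 := by
    rw [Set.ncard_le_one_iff]
    intro a b ha hb
    have h1 : a = x := by by_contra hne; exact ha (hcon a hne)
    have h2 : b = x := by by_contra hne; exact hb (hcon b hne)
    rw [h1, h2]
  have h2 : 2 ^ Fintype.card κ ≤ 2 ^ d := h.trans (by
    calc 2 ^ d * Set.ncard {y : κ → Bool | f y ≠ 0} ≤ 2 ^ d * 1 := Nat.mul_le_mul_left _ h1
      _ = 2 ^ d := Nat.mul_one _)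
  have h3 := (Nat.pow_le_pow_iff_right (by norm_num : 1 < 2)).1 h2
  omega

end cube

end Pool.Agent.X149.LD
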