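import Pool.Agent.X149.LowDegree

/-! Functions of low degree on families of sets: small members and boxes. -/

namespace Pool.Agent.X149.LDS

open Finset Pool.Agent.X149.LD

/-- The function `f` on the subsets of `X`, with values in the field `K`, has degree at most `d`:
it is a linear combination of functions `g` for which `g A` depends only on `A ∩ T`, `T` a set of
at most `d` elements. -/
def DegreeLE (K : Type) [Field K] {X : Type} (d : ℕ) (f : Set X → K) : Prop :=
  f ∈ Submodule.span K {g : Set X → K | ∃ T : Finset X, T.card ≤ d ∧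
    ∀ A B : Set X, A ∩ (T : Set X) = B ∩ (T : Set X) → g A = g B}

variable {K : Type} [Field K] {X : Type}

/-- the set with a given indicator function -/
def setOf' (x : X → Bool) : Set X := {p | x p = true}

open Classical in
/-- the indicator function of a set -/
noncomputable def ind (A : Set X) : X → Bool := fun p => decide (p ∈ A)

theorem setOf_ind (A : Set X) : setOf' (ind A) = A := by
  ext p; simp [setOf', ind]

theorem ind_setOf (x : X → Bool) : ind (setOf' x) = x := by
  funext p
  simp only [ind, setOf', Set.mem_setOf_eq]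
  cases h : x p <;> simp

theorem deg_of {d : ℕ} {f : Set X → K} (hf : DegreeLE K d f) :
    Deg K d (fun x : X → Bool => f (setOf' x)) := by
  refine Submodule.span_induction
    (p := fun (u : Set X → K) _ => Deg K d (fun x : X → Bool => u (setOf' x))) ?_ ?_ ?_ ?_ hf
  · rintro u ⟨T, hT, hu⟩
    refine deg_of_dep hT ?_
    intro x y hxy
    refine hu _ _ ?_
    ext p
    constructor
    · rintro ⟨h1, h2⟩
      refine ⟨?_, h2⟩
      show y p = true
      rw [← hxy p (by simpa using h2)]
      exact h1
    · rintro ⟨h1, h2⟩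
      refine ⟨?_, h2⟩
      show x p = true
      rw [hxy p (by simpa using h2)]
      exact h1
  · exact deg_const (ι := X) (α := Bool) (0 : K) d
  · intro x y _ _ h1 h2
    exact deg_add h1 h2
  · intro r x _ h
    exact deg_smul r h

theorem of_deg {d : ℕ} {f : (X → Bool) → K} (hf : Deg K d f) :
    DegreeLE K d (fun A : Set X => f (ind A)) := by
  refine Submodule.span_induction
    (p := fun (u : (X → Bool) → K) _ => DegreeLE K d (fun A : Set X => u (ind A))) ?_ ?_ ?_ ?_ hf
  · rintro u ⟨T, hT, hu⟩
    refine Submodule.subset_span ⟨T, hT, ?_⟩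
    intro A B hAB
    refine hu _ _ (fun i hi => ?_)
    have : i ∈ A ↔ i ∈ B := by
      have h := Set.ext_iff.1 hAB i
      simpa [hi] using h
    simp [ind, this]
  · exact Submodule.zero_mem _
  · intro x y _ _ h1 h2
    exact Submodule.add_mem _ h1 h2
  · intro r x _ h
    exact Submodule.smul_mem _ r h

/-- A nonzero function of degree at most `d` does not vanish at some set of at most `d`
elements. -/
theorem exists_small [Finite X] {d : ℕ} {f : Set X → K} (hf : DegreeLE K d f) {A₀ : Set X}
    (h0 : f A₀ ≠ 0) : ∃ A : Set X, A.ncard ≤ d ∧ f A ≠ 0 := by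
  classical
  have := Fintype.ofFinite X
  obtain ⟨A, hA, hmin⟩ : ∃ A : Set X, f A ≠ 0 ∧ ∀ B : Set X, f B ≠ 0 → A.ncard ≤ B.ncard := by
    have hne : ∃ n, ∃ A : Set X, f A ≠ 0 ∧ A.ncard = n := ⟨_, A₀, h0, rfl⟩
    obtain ⟨A, hA, hn⟩ := Nat.find_spec hne
    refine ⟨A, hA, fun B hB => ?_⟩
    rw [hn]
    exact Nat.find_min' hne ⟨B, hB, rfl⟩
  refine ⟨A, ?_, hA⟩
  by_contra hlt
  push Not at hlt
  have h1 := sup_card A.toFinset d (fun x => f (setOf' x)) (deg_of hf) (ind A)
    (by simpa [setOf_ind] using hA)
  have hc : A.toFinset.card = A.ncard := (Set.ncard_eq_toFinset_card' A).symm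
  have h2 : 2 ≤ (sup (fun x => f (setOf' x)) A.toFinset (ind A)).card := by
    have h3 : 2 ^ (d + 1) ≤ 2 ^ A.toFinset.card :=
      Nat.pow_le_pow_right (by norm_num) (by omega)
    have h4 : 2 ^ (d + 1) = 2 ^ d * 2 := by ring
    have h5 := h3.trans h1
    rw [h4] at h5
    exact Nat.le_of_mul_le_mul_left h5 (by positivity)
  obtain ⟨y, hy, hne⟩ := Finset.exists_mem_ne (by omega :
    1 < (sup (fun x => f (setOf' x)) A.toFinset (ind A)).card) (ind A)
  rw [LD.mem_sup] at hy
  have hsub : setOf' y ⊆ A := by
    intro p hp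
    by_contra hpA
    have := hy.1 p (by simpa using hpA)
    rw [show y p = true from hp] at this
    simp [ind, hpA] at this
  have hss : setOf' y ⊂ A := by
    refine ⟨hsub, fun hAs => hne ?_⟩
    rw [← ind_setOf y, Set.Subset.antisymm hsub hAs]
  have h6 := Set.ncard_lt_ncard hss (Set.toFinite A)
  have h7 := hmin _ hy.2
  omega

theorem support_big [Finite X] {d : ℕ} {f : Set X → K} (hf : DegreeLE K d f) {A₀ : Set X}
    (h0 : f A₀ ≠ 0) : 2 ^ Nat.card X ≤ 2 ^ d * Set.ncard {A : Set X | f A ≠ 0} := by
  classical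
  have := Fintype.ofFinite X
  have h := support_card (deg_of hf) (x := ind A₀) (by simpa [setOf_ind] using h0)
  rw [Nat.card_eq_fintype_card]
  refine h.trans (Nat.mul_le_mul_left _ (le_of_eq ?_))
  refine Set.ncard_congr (fun x _ => setOf' x) ?_ ?_ ?_
  · intro x hx
    exact hx
  · intro x y _ _ hxy
    rw [← ind_setOf x, ← ind_setOf y, hxy]
  · intro A hA
    exact ⟨ind A, by simpa [setOf_ind] using hA, setOf_ind A⟩

end Pool.Agent.X149.LDS
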