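import Mathlib

/-! Uniform laws for averages of bounded functions at independent random points: short samples,
a union bound over the level sets of the averages of the samples. -/

set_option autoImplicit false

namespace Pool.Agent.X149.US

open MeasureTheory Finset

theorem quad {x : ℝ} (hx : |x| ≤ 1) : Real.exp x ≤ 1 + x + x ^ 2 := by
  have := Real.abs_exp_sub_one_sub_id_le hx
  rw [abs_le] at this
  linarith

section count
variable {ι : Type} [Fintype ι]

/-- the probability of a sample -/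
noncomputable def wt (p : ι → ℝ) {L : ℕ} (f : Fin L → ι) : ℝ := ∏ l, p (f l)

theorem wt_nonneg {p : ι → ℝ} (hp : ∀ i, 0 ≤ p i) {L : ℕ} (f : Fin L → ι) : 0 ≤ wt p f :=
  prod_nonneg (fun _ _ => hp _)

open Classical in
theorem sum_wt (p : ι → ℝ) (g : ι → ℝ) (L : ℕ) :
    ∑ f : Fin L → ι, wt p f * ∏ l, g (f l) = (∑ i, p i * g i) ^ L := by
  have := Finset.prod_univ_sum (fun _ : Fin L => (univ : Finset ι)) (fun _ i => p i * g i)
  rw [Finset.prod_const, Finset.card_univ, Fintype.card_fin] at this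
  rw [this, Fintype.piFinset_univ]
  refine sum_congr rfl (fun f _ => ?_)
  rw [prod_mul_distrib, wt]

open Classical in
theorem count_dir (p : ι → ℝ) (hp : ∀ i, 0 ≤ p i) (hp1 : ∑ i, p i = 1) (x : ι → ℝ)
    (hx : ∀ i, |x i| ≤ 2) (h0 : ∑ i, p i * x i = 0) (L : ℕ) (s : ℝ) (hs : 0 ≤ s) (hs4 : s ≤ 4) :
    ∑ f : Fin L → ι, wt p f * (if (L : ℝ) * s ≤ ∑ l, x (f l) then (1 : ℝ) else 0) ≤
      Real.exp (-(L * s ^ 2 / 16)) := by
  have hlam : s / 8 ≤ 1 / 2 := by linarith
  have h1 : ∑ i, p i * Real.exp (s / 8 * x i) ≤ Real.exp (4 * (s / 8) ^ 2) := by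
    have h2 : ∀ i, Real.exp (s / 8 * x i) ≤ 1 + s / 8 * x i + 4 * (s / 8) ^ 2 := by
      intro i
      have h3 := hx i
      have h4 : |s / 8 * x i| ≤ 1 := by
        rw [abs_mul, abs_of_nonneg (by linarith : 0 ≤ s / 8)]
        nlinarith [abs_nonneg (x i)]
      have h5 := quad h4
      have h6 : x i ^ 2 ≤ 4 := by
        have := abs_le.1 h3
        nlinarith
      nlinarith [sq_nonneg (s / 8)]
    calc ∑ i, p i * Real.exp (s / 8 * x i) ≤
          ∑ i, (p i * (1 + 4 * (s / 8) ^ 2) + s / 8 * (p i * x i)) := by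
          refine sum_le_sum (fun i _ => ?_)
          have := mul_le_mul_of_nonneg_left (h2 i) (hp i)
          linarith
      _ = 1 + 4 * (s / 8) ^ 2 := by
          rw [sum_add_distrib, ← sum_mul, ← mul_sum, h0, hp1]
          ring
      _ ≤ Real.exp (4 * (s / 8) ^ 2) := by
          have := Real.add_one_le_exp (4 * (s / 8) ^ 2)
          linarith
  have h3 : (∑ f : Fin L → ι, wt p f * (if (L : ℝ) * s ≤ ∑ l, x (f l) then (1 : ℝ) else 0)) *
      Real.exp (s / 8 * (L * s)) ≤ (∑ i, p i * Real.exp (s / 8 * x i)) ^ L := by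
    rw [← sum_wt, sum_mul]
    refine sum_le_sum (fun f _ => ?_)
    rw [mul_assoc]
    refine mul_le_mul_of_nonneg_left ?_ (wt_nonneg hp f)
    rw [← Real.exp_sum, ← mul_sum]
    by_cases h : (L : ℝ) * s ≤ ∑ l, x (f l)
    · rw [if_pos h, one_mul, Real.exp_le_exp]
      exact mul_le_mul_of_nonneg_left h (by linarith)
    · rw [if_neg h, zero_mul]
      exact (Real.exp_pos _).le
  have h4 : (∑ i, p i * Real.exp (s / 8 * x i)) ^ L ≤ Real.exp (L * (4 * (s / 8) ^ 2)) := by
    calc (∑ i, p i * Real.exp (s / 8 * x i)) ^ L ≤ (Real.exp (4 * (s / 8) ^ 2)) ^ L :=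
          pow_le_pow_left₀ (sum_nonneg (fun i _ => mul_nonneg (hp i) (Real.exp_pos _).le)) h1 L
      _ = _ := by rw [← Real.exp_nat_mul]
  have h5 := h3.trans h4
  have h6 : Real.exp (-(L * s ^ 2 / 16)) = Real.exp (L * (4 * (s / 8) ^ 2)) /
      Real.exp (s / 8 * (L * s)) := by
    rw [← Real.exp_sub]
    congr 1
    ring
  rw [h6, le_div_iff₀ (Real.exp_pos _)]
  exact h5

open Classical in
theorem count_cplx (p : ι → ℝ) (hp : ∀ i, 0 ≤ p i) (hp1 : ∑ i, p i = 1) (z : ι → ℂ)
    (hz : ∀ i, ‖z i‖ ≤ 1) (L : ℕ) (hL : 1 ≤ L) (s : ℝ) (hs : 0 ≤ s) (hs8 : s ≤ 8) :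
    ∑ f : Fin L → ι, wt p f *
      (if s < ‖(L : ℂ)⁻¹ * ∑ l, z (f l) - ∑ i, (p i : ℂ) * z i‖ then (1 : ℝ) else 0) ≤
      4 * Real.exp (-(L * s ^ 2 / 64)) := by
  have hL0 : (0 : ℝ) < L := by exact_mod_cast hL
  have hLc : (L : ℂ) ≠ 0 := by exact_mod_cast hL0.ne'
  obtain ⟨F, hF⟩ : ∃ F : ℂ, F = ∑ i, (p i : ℂ) * z i := ⟨_, rfl⟩
  rw [← hF]
  have hFn : ‖F‖ ≤ 1 := by
    rw [hF, ← hp1]
    refine (norm_sum_le _ _).trans (sum_le_sum (fun i _ => ?_))
    rw [norm_mul, Complex.norm_real, Real.norm_of_nonneg (hp i)]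
    exact mul_le_of_le_one_right (hp i) (hz i)
  have h0 : ∑ i, (p i : ℂ) * (z i - F) = 0 := by
    simp only [mul_sub]
    rw [sum_sub_distrib, ← sum_mul, ← hF, ← Complex.ofReal_sum, hp1]
    simp
  have hdir : ∀ u : ℂ, ‖u‖ = 1 → ∑ f : Fin L → ι, wt p f *
      (if (L : ℝ) * (s / 2) ≤ ∑ l, (u * (z (f l) - F)).re then (1 : ℝ) else 0) ≤
      Real.exp (-(L * s ^ 2 / 64)) := by
    intro u hu
    have := count_dir p hp hp1 (fun i => (u * (z i - F)).re) (by
      intro i
      refine (Complex.abs_re_le_norm _).trans ?_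
      rw [norm_mul, hu, one_mul]
      calc ‖z i - F‖ ≤ ‖z i‖ + ‖F‖ := norm_sub_le _ _
        _ ≤ 2 := by linarith [hz i]) (by
      have e : ∀ i, p i * (u * (z i - F)).re = (u * ((p i : ℂ) * (z i - F))).re := by
        intro i
        have : u * ((p i : ℂ) * (z i - F)) = (p i : ℂ) * (u * (z i - F)) := by ring
        rw [this, Complex.re_ofReal_mul]
      simp only [e]
      rw [← Complex.re_sum, ← mul_sum, h0, mul_zero, Complex.zero_re]) L (s / 2) (by linarith)
      (by linarith)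
    have e : (L : ℝ) * (s / 2) ^ 2 / 16 = L * s ^ 2 / 64 := by ring
    rw [e] at this
    exact this
  have key : ∀ f : Fin L → ι,
      (if s < ‖(L : ℂ)⁻¹ * ∑ l, z (f l) - F‖ then (1 : ℝ) else 0) ≤
      (((if (L : ℝ) * (s / 2) ≤ ∑ l, ((1 : ℂ) * (z (f l) - F)).re then (1 : ℝ) else 0) +
      (if (L : ℝ) * (s / 2) ≤ ∑ l, ((-1 : ℂ) * (z (f l) - F)).re then (1 : ℝ) else 0)) +
      (if (L : ℝ) * (s / 2) ≤ ∑ l, (Complex.I * (z (f l) - F)).re then (1 : ℝ) else 0)) +
      (if (L : ℝ) * (s / 2) ≤ ∑ l, (-Complex.I * (z (f l) - F)).re then (1 : ℝ) else 0) := by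
    intro f
    have hnn : ∀ P : Prop, (0 : ℝ) ≤ (if P then (1 : ℝ) else 0) := by
      intro P
      split_ifs <;> norm_num
    by_cases hf2 : s < ‖(L : ℂ)⁻¹ * ∑ l, z (f l) - F‖
    · rw [if_pos hf2]
      have e1 : (L : ℂ)⁻¹ * ∑ l, z (f l) - F = (L : ℂ)⁻¹ * ∑ l, (z (f l) - F) := by
        rw [sum_sub_distrib, sum_const, card_univ, Fintype.card_fin, nsmul_eq_mul, mul_sub,
          inv_mul_cancel_left₀ hLc]
      rw [e1, norm_mul, norm_inv, Complex.norm_natCast, lt_inv_mul_iff₀ hL0] at hf2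
      obtain ⟨S, hS⟩ : ∃ S : ℂ, S = ∑ l, (z (f l) - F) := ⟨_, rfl⟩
      have hre : ∀ u : ℂ, ∑ l, (u * (z (f l) - F)).re = (u * S).re := by
        intro u
        rw [hS, mul_sum, Complex.re_sum]
      rw [← hS] at hf2
      simp only [hre]
      by_contra hcon
      have hcon := not_le.1 hcon
      have n1 := hnn ((L : ℝ) * (s / 2) ≤ ((1 : ℂ) * S).re)
      have n2 := hnn ((L : ℝ) * (s / 2) ≤ ((-1 : ℂ) * S).re)
      have n3 := hnn ((L : ℝ) * (s / 2) ≤ (Complex.I * S).re)
      have n4 := hnn ((L : ℝ) * (s / 2) ≤ (-Complex.I * S).re)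
      have g1 : ¬ ((L : ℝ) * (s / 2) ≤ ((1 : ℂ) * S).re) := fun h => by
        rw [if_pos h] at hcon; linarith
      have g2 : ¬ ((L : ℝ) * (s / 2) ≤ ((-1 : ℂ) * S).re) := fun h => by
        rw [if_pos h] at hcon; linarith
      have g3 : ¬ ((L : ℝ) * (s / 2) ≤ (Complex.I * S).re) := fun h => by
        rw [if_pos h] at hcon; linarith
      have g4 : ¬ ((L : ℝ) * (s / 2) ≤ (-Complex.I * S).re) := fun h => by
        rw [if_pos h] at hcon; linarith
      rw [not_le] at g1 g2 g3 g4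
      simp only [one_mul, neg_mul, Complex.neg_re, Complex.mul_re, Complex.I_re, Complex.I_im,
        zero_mul, one_mul, zero_sub, neg_neg] at g1 g2 g3 g4
      have g5 : ‖S‖ ^ 2 ≤ ((L : ℝ) * s) ^ 2 := by
        rw [← Complex.normSq_eq_norm_sq, Complex.normSq_apply]
        nlinarith
      have g6 := abs_le_of_sq_le_sq' g5 (by positivity)
      linarith [g6.2]
    · rw [if_neg hf2]
      have n1 := hnn ((L : ℝ) * (s / 2) ≤ ∑ l, ((1 : ℂ) * (z (f l) - F)).re)
      have n2 := hnn ((L : ℝ) * (s / 2) ≤ ∑ l, ((-1 : ℂ) * (z (f l) - F)).re)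
      have n3 := hnn ((L : ℝ) * (s / 2) ≤ ∑ l, (Complex.I * (z (f l) - F)).re)
      have n4 := hnn ((L : ℝ) * (s / 2) ≤ ∑ l, (-Complex.I * (z (f l) - F)).re)
      linarith
  have hsum : ∑ f : Fin L → ι, wt p f *
      (if s < ‖(L : ℂ)⁻¹ * ∑ l, z (f l) - F‖ then (1 : ℝ) else 0) ≤ _ :=
    sum_le_sum (fun f _ => mul_le_mul_of_nonneg_left (key f) (wt_nonneg hp f))
  refine hsum.trans ?_
  simp only [mul_add]
  rw [sum_add_distrib, sum_add_distrib, sum_add_distrib]
  have k1 := hdir 1 (by simp)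
  have k2 := hdir (-1) (by simp)
  have k3 := hdir Complex.I (by simp)
  have k4 := hdir (-Complex.I) (by simp)
  linarith

end count

section measure
variable {ι : Type} [Fintype ι] {X : Type} [MeasurableSpace X]

/-- the weighted sum of the functions -/
noncomputable def mean (φ : ι → X → ℂ) (p : ι → ℝ) (x : X) : ℂ := ∑ i, (p i : ℂ) * φ i x

/-- the average over a sample -/
noncomputable def samp (φ : ι → X → ℂ) {L : ℕ} (f : Fin L → ι) (x : X) : ℂ :=
  (L : ℂ)⁻¹ * ∑ l, φ (f l) x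

theorem mean_meas {φ : ι → X → ℂ} (hm : ∀ i, Measurable (φ i)) (p : ι → ℝ) :
    Measurable (mean φ p) := by
  unfold mean
  exact Finset.measurable_fun_sum _ (fun i _ => measurable_const.mul (hm i))

theorem samp_meas {φ : ι → X → ℂ} (hm : ∀ i, Measurable (φ i)) {L : ℕ} (f : Fin L → ι) :
    Measurable (samp φ f) := by
  unfold samp
  exact measurable_const.mul (Finset.measurable_fun_sum _ (fun i _ => hm _))

theorem maurey (ν : Measure X) [IsFiniteMeasure ν] (φ : ι → X → ℂ) (hm : ∀ i, Measurable (φ i))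
    (hφ : ∀ i x, ‖φ i x‖ ≤ 1) (p : ι → ℝ) (hp : ∀ i, 0 ≤ p i) (hp1 : ∑ i, p i = 1) (L : ℕ)
    (hL : 1 ≤ L) (s : ℝ) (hs : 0 ≤ s) (hs8 : s ≤ 8)
    (hν : ν.real Set.univ * (4 * Real.exp (-(L * s ^ 2 / 64))) < 1) :
    ∃ f : Fin L → ι, ν.real {x | s < ‖samp φ f x - mean φ p x‖} < 1 := by
  classical
  by_contra hcon
  push Not at hcon
  have hB : ∀ f : Fin L → ι, MeasurableSet {x | s < ‖samp φ f x - mean φ p x‖} := fun f =>
    measurableSet_lt measurable_const ((samp_meas hm f).sub (mean_meas hm p)).norm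
  have h1 : (1 : ℝ) ≤ ∑ f : Fin L → ι, wt p f *
      ν.real {x | s < ‖samp φ f x - mean φ p x‖} := by
    calc (1 : ℝ) = ∑ f : Fin L → ι, wt p f * 1 := by
          have := sum_wt p (fun _ => 1) L
          simp only [prod_const_one, mul_one, hp1, one_pow] at this
          simp only [mul_one]
          exact this.symm
      _ ≤ _ := sum_le_sum (fun f _ => mul_le_mul_of_nonneg_left (hcon f) (wt_nonneg hp f))
  have h2 : ∑ f : Fin L → ι, wt p f *
      ν.real {x | s < ‖samp φ f x - mean φ p x‖} =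
      ∫ x, ∑ f : Fin L → ι, wt p f *
        Set.indicator {x | s < ‖samp φ f x - mean φ p x‖} (fun _ => (1 : ℝ)) x ∂ν := by
    rw [integral_finsetSum]
    · refine sum_congr rfl (fun f _ => ?_)
      rw [integral_const_mul, integral_indicator (hB f), setIntegral_const, smul_eq_mul, mul_one]
    · intro f _
      exact ((integrable_const (1 : ℝ)).indicator (hB f)).const_mul _
  have h3 : ∫ x, ∑ f : Fin L → ι, wt p f *
        Set.indicator {x | s < ‖samp φ f x - mean φ p x‖} (fun _ => (1 : ℝ)) x ∂ν ≤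
      ∫ _, 4 * Real.exp (-(L * s ^ 2 / 64)) ∂ν := by
    refine integral_mono ?_ (integrable_const _) ?_
    · exact integrable_finsetSum _
        (fun f _ => ((integrable_const (1 : ℝ)).indicator (hB f)).const_mul _)
    · intro x
      have h4 := count_cplx p hp hp1 (fun i => φ i x) (fun i => hφ i x) L hL s hs hs8
      refine le_trans (le_of_eq ?_) h4
      refine sum_congr rfl (fun f _ => ?_)
      rw [Set.indicator_apply]
      simp only [Set.mem_setOf_eq, samp, mean]
  rw [integral_const, smul_eq_mul] at h3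
  rw [h2] at h1
  linarith

theorem chernoff {M : ℕ} (μ : Fin M → Measure X) [∀ n, IsProbabilityMeasure (μ n)] (A : Set X)
    (hA : MeasurableSet A) (K : ℝ) :
    (Measure.pi μ).real {y | K ≤ ∑ n, A.indicator (fun _ => (1 : ℝ)) (y n)} ≤
      Real.exp (2 * ∑ n, (μ n).real A - K) := by
  classical
  have hind : ∀ x, Real.exp (A.indicator (fun _ => (1 : ℝ)) x) =
      1 + A.indicator (fun _ => Real.exp 1 - 1) x := by
    intro x
    by_cases hx : x ∈ A <;> simp [hx]
  have hmeas : Measurable (fun x : X => Real.exp (A.indicator (fun _ => (1 : ℝ)) x)) :=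
    Real.measurable_exp.comp (measurable_const.indicator hA)
  have hint : ∀ n, ∫ x, Real.exp (A.indicator (fun _ => (1 : ℝ)) x) ∂(μ n) =
      1 + (Real.exp 1 - 1) * (μ n).real A := by
    intro n
    simp only [hind]
    rw [integral_add (integrable_const _) ((integrable_const _).indicator hA),
      integral_indicator hA, setIntegral_const, integral_const]
    simp [mul_comm]
  have hprod := integral_fintype_prod_eq_prod (𝕜 := ℝ) (μ := μ)
    (fun (_ : Fin M) (x : X) => Real.exp (A.indicator (fun _ => (1 : ℝ)) x))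
  have hle : ∫ y : Fin M → X, ∏ n, Real.exp (A.indicator (fun _ => (1 : ℝ)) (y n))
      ∂(Measure.pi μ) ≤ Real.exp (2 * ∑ n, (μ n).real A) := by
    rw [hprod]
    simp only [hint]
    rw [mul_sum, Real.exp_sum]
    refine prod_le_prod (fun n _ => ?_) (fun n _ => ?_)
    · have : 1 ≤ Real.exp 1 := Real.one_le_exp (by norm_num)
      have h2 : 0 ≤ (μ n).real A := measureReal_nonneg
      nlinarith
    · have h1 := Real.add_one_le_exp (2 * (μ n).real A)
      have h2 : 0 ≤ (μ n).real A := measureReal_nonneg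
      have h3 : Real.exp 1 < 3 := by
        have := Real.exp_one_lt_d9
        linarith
      nlinarith
  have hset : {y : Fin M → X | K ≤ ∑ n, A.indicator (fun _ => (1 : ℝ)) (y n)} =
      {y | Real.exp K ≤ ∏ n, Real.exp (A.indicator (fun _ => (1 : ℝ)) (y n))} := by
    ext y
    show K ≤ _ ↔ Real.exp K ≤ _
    rw [← Real.exp_sum, Real.exp_le_exp]
  have hI : Integrable (fun y : Fin M → X => ∏ n, Real.exp (A.indicator (fun _ => (1 : ℝ)) (y n)))
      (Measure.pi μ) := by
    refine Integrable.of_bound (C := (Real.exp 1) ^ M) ?_ ?_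
    · exact (Finset.measurable_fun_prod _
        (fun n _ => hmeas.comp (measurable_pi_apply n))).aestronglyMeasurable
    · refine Filter.Eventually.of_forall (fun y => ?_)
      rw [Real.norm_of_nonneg (prod_nonneg (fun _ _ => (Real.exp_pos _).le))]
      calc ∏ n, Real.exp (A.indicator (fun _ => (1 : ℝ)) (y n)) ≤ ∏ n : Fin M, Real.exp 1 := by
            refine prod_le_prod (fun _ _ => (Real.exp_pos _).le) (fun n _ => ?_)
            refine Real.exp_le_exp.2 ?_
            by_cases hx : y n ∈ A <;> simp [hx]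
        _ = (Real.exp 1) ^ M := by rw [prod_const, card_univ, Fintype.card_fin]
  have hmk := mul_meas_ge_le_integral_of_nonneg (μ := Measure.pi μ)
    (Filter.Eventually.of_forall (fun y : Fin M → X =>
      prod_nonneg (fun n _ => (Real.exp_pos (A.indicator (fun _ => (1 : ℝ)) (y n))).le))) hI
    (Real.exp K)
  rw [hset, Real.exp_sub, le_div_iff₀ (Real.exp_pos _), mul_comm]
  exact hmk.trans hle

/-- the length of the samples at level `j` -/
noncomputable def len (M j : ℕ) : ℕ := ⌈1024 * 4 ^ j * Real.log (16 * (M + 1))⌉₊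

/-- the loss at level `j` -/
noncomputable def loss (M : ℕ) (q δ : ℝ) (j : ℕ) : ℝ :=
  len M j * Real.log q + Real.log (1 / δ) + (j + 1) * Real.log 2

theorem len_pos (M j : ℕ) : 1 ≤ len M j := by
  unfold len
  rw [Nat.one_le_ceil_iff]
  have : (0 : ℝ) ≤ M := Nat.cast_nonneg M
  have h1 : 0 < Real.log (16 * (M + 1)) := Real.log_pos (by linarith)
  positivity

/-- the sum of the second moments -/
noncomputable def mom {M : ℕ} (μ : Fin M → Measure X) (φ : ι → X → ℂ) (p : ι → ℝ) : ℝ :=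
  ∑ n, ∫ x, ‖mean φ p x‖ ^ 2 ∂(μ n)

theorem mean_le {φ : ι → X → ℂ} (hφ : ∀ i x, ‖φ i x‖ ≤ 1) {p : ι → ℝ} (hp : ∀ i, 0 ≤ p i)
    (hp1 : ∑ i, p i = 1) (x : X) : ‖mean φ p x‖ ≤ 1 := by
  unfold mean
  rw [← hp1]
  refine (norm_sum_le _ _).trans (sum_le_sum (fun i _ => ?_))
  rw [norm_mul, Complex.norm_real, Real.norm_of_nonneg (hp i)]
  exact mul_le_of_le_one_right (hp i) (hφ i x)

open Classical in
/-- **Uniform law.** -/
theorem uniform_law [Nonempty ι] {M : ℕ} (μ : Fin M → Measure X)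
    [∀ n, IsProbabilityMeasure (μ n)] (φ : ι → X → ℂ) (hm : ∀ i, Measurable (φ i))
    (hφ : ∀ i x, ‖φ i x‖ ≤ 1) (δ : ℝ) (hδ : 0 < δ) :
    ∃ E : Set (Fin M → X), MeasurableSet E ∧ Measure.pi μ E ≤ ENNReal.ofReal δ ∧
      ∀ y ∉ E, ∀ p : ι → ℝ, (∀ i, 0 ≤ p i) → ∑ i, p i = 1 → ∀ j : ℕ,
        ((univ.filter (fun n : Fin M => (1 / 2 : ℝ) ^ j ≤ ‖mean φ p (y n)‖)).card : ℝ) ≤
          8 * 4 ^ j * mom μ φ p + 2 + loss M (Fintype.card ι) δ j := by
  have hq : (1 : ℝ) ≤ Fintype.card ι := by exact_mod_cast Fintype.card_pos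
  let A : (j : ℕ) → (Fin (len M j) → ι) → Set X := fun j f =>
    {x | 3 / 4 * (1 / 2 : ℝ) ^ j ≤ ‖samp φ f x‖}
  have hA : ∀ j f, MeasurableSet (A j f) := fun j f =>
    measurableSet_le measurable_const (samp_meas hm f).norm
  let B : (j : ℕ) → (Fin (len M j) → ι) → Set (Fin M → X) := fun j f =>
    {y | 2 * ∑ n, (μ n).real (A j f) + loss M (Fintype.card ι) δ j ≤
      ∑ n, (A j f).indicator (fun _ => (1 : ℝ)) (y n)}
  have hB : ∀ j f, MeasurableSet (B j f) := fun j f =>
    measurableSet_le measurable_const (Finset.measurable_fun_sum _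
      (fun n _ => (measurable_const.indicator (hA j f)).comp (measurable_pi_apply n)))
  refine ⟨⋃ j, ⋃ f, B j f, MeasurableSet.iUnion (fun j => MeasurableSet.iUnion (fun f => hB j f)),
    ?_, ?_⟩
  · have hone : ∀ j, Measure.pi μ (⋃ f, B j f) ≤ ENNReal.ofReal (δ / 2 / 2 ^ j) := by
      intro j
      have hBf : ∀ f, Measure.pi μ (B j f) ≤
          ENNReal.ofReal (Real.exp (-loss M (Fintype.card ι) δ j)) := by
        intro f
        have h1 := chernoff μ (A j f) (hA j f)
          (2 * ∑ n, (μ n).real (A j f) + loss M (Fintype.card ι) δ j)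
        rw [sub_add_cancel_left] at h1
        rw [← ENNReal.ofReal_toReal (measure_ne_top (Measure.pi μ) (B j f))]
        exact ENNReal.ofReal_le_ofReal h1
      calc Measure.pi μ (⋃ f, B j f) ≤ ∑ f, Measure.pi μ (B j f) := measure_iUnion_fintype_le _ _
        _ ≤ ∑ _f : Fin (len M j) → ι,
            ENNReal.ofReal (Real.exp (-loss M (Fintype.card ι) δ j)) :=
            sum_le_sum (fun f _ => hBf f)
        _ = ENNReal.ofReal (δ / 2 / 2 ^ j) := by
            rw [sum_const, card_univ, Fintype.card_fun, Fintype.card_fin, nsmul_eq_mul,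
              ← ENNReal.ofReal_natCast, ← ENNReal.ofReal_mul (by positivity)]
            congr 1
            unfold loss
            have e1 : -(len M j * Real.log (Fintype.card ι) + Real.log (1 / δ) +
                ((j : ℝ) + 1) * Real.log 2) = -(len M j * Real.log (Fintype.card ι)) +
                Real.log δ + -(((j + 1 : ℕ) : ℝ) * Real.log 2) := by
              rw [one_div, Real.log_inv]
              push_cast
              ring
            rw [e1, Real.exp_add, Real.exp_add, Real.exp_log hδ, Real.exp_neg, Real.exp_neg,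
              ← Real.log_pow, ← Real.log_pow, Real.exp_log (by positivity),
              Real.exp_log (by positivity)]
            push_cast
            field_simp
            ring
    calc Measure.pi μ (⋃ j, ⋃ f, B j f) ≤ ∑' j, Measure.pi μ (⋃ f, B j f) := measure_iUnion_le _
      _ ≤ ∑' j : ℕ, ENNReal.ofReal (δ / 2 / 2 ^ j) := ENNReal.tsum_le_tsum hone
      _ = ENNReal.ofReal (∑' j : ℕ, δ / 2 / 2 ^ j) :=
          (ENNReal.ofReal_tsum_of_nonneg (fun j => by positivity) (summable_geometric_two' δ)).symm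
      _ = ENNReal.ofReal δ := by rw [tsum_geometric_two' δ]
  · intro y hy p hp hp1 j
    obtain ⟨τ, hτ⟩ : ∃ τ : ℝ, τ = (1 / 2) ^ j := ⟨_, rfl⟩
    have hτ0 : 0 < τ := by rw [hτ]; positivity
    have hτ1 : τ ≤ 1 := by rw [hτ]; exact pow_le_one₀ (by norm_num) (by norm_num)
    have hτ2 : τ ^ 2 * 4 ^ j = 1 := by
      rw [hτ, ← pow_mul, mul_comm j 2, pow_mul, ← mul_pow]
      norm_num
    obtain ⟨f, hf⟩ := maurey (∑ n, (μ n + Measure.dirac (y n))) φ hm hφ p hp hp1 (len M j)
      (len_pos M j) (τ / 4) (by positivity) (by linarith) (by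
        have h1 : (∑ n, (μ n + Measure.dirac (y n))).real Set.univ = 2 * M := by
          rw [measureReal_def, Measure.coe_finsetSum, Finset.sum_apply]
          simp only [Measure.add_apply, measure_univ]
          rw [sum_const, card_univ, Fintype.card_fin, nsmul_eq_mul, one_add_one_eq_two]
          simp [mul_comm]
        rw [h1]
        have h2 : Real.log (16 * (M + 1)) ≤ len M j * (τ / 4) ^ 2 / 64 := by
          have h3 : 1024 * 4 ^ j * Real.log (16 * (M + 1)) ≤ len M j := Nat.le_ceil _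
          have h4 : (len M j : ℝ) * (τ / 4) ^ 2 / 64 = len M j * τ ^ 2 / 1024 := by ring
          rw [h4, le_div_iff₀ (by norm_num)]
          calc Real.log (16 * (M + 1)) * 1024
              = (1024 * 4 ^ j * Real.log (16 * (M + 1))) * τ ^ 2 := by
                have : (1024 * 4 ^ j * Real.log (16 * (M + 1))) * τ ^ 2 =
                  1024 * Real.log (16 * (M + 1)) * (τ ^ 2 * 4 ^ j) := by ring
                rw [this, hτ2]; ring
            _ ≤ len M j * τ ^ 2 := mul_le_mul_of_nonneg_right h3 (by positivity)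
        have hM0 : (0 : ℝ) ≤ M := Nat.cast_nonneg M
        have h5 : Real.exp (-(len M j * (τ / 4) ^ 2 / 64)) ≤ (16 * (M + 1) : ℝ)⁻¹ := by
          rw [Real.exp_neg]
          apply inv_anti₀ (by positivity)
          rw [← Real.log_le_iff_le_exp (by positivity)]
          exact h2
        calc (2 * M : ℝ) * (4 * Real.exp (-(len M j * (τ / 4) ^ 2 / 64)))
            ≤ (2 * M) * (4 * (16 * (M + 1) : ℝ)⁻¹) := by gcongr
          _ < 1 := by
              rw [show (2 * M : ℝ) * (4 * (16 * (M + 1) : ℝ)⁻¹) = M / (2 * (M + 1)) by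
                field_simp; ring]
              rw [div_lt_one (by positivity)]
              linarith)
    obtain ⟨bad, hbad⟩ : ∃ bad : Set X, bad = {x | τ / 4 < ‖samp φ f x - mean φ p x‖} := ⟨_, rfl⟩
    rw [← hbad] at hf
    have hbadm : MeasurableSet bad := by
      rw [hbad]
      exact measurableSet_lt measurable_const ((samp_meas hm f).sub (mean_meas hm p)).norm
    have hsum : (∑ n, (μ n + Measure.dirac (y n))).real bad =
        ∑ n, (μ n).real bad + ∑ n, (Measure.dirac (y n)).real bad := by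
      rw [measureReal_def, Measure.coe_finsetSum, Finset.sum_apply,
        ENNReal.toReal_sum (fun n _ => measure_ne_top _ _), ← sum_add_distrib]
      refine sum_congr rfl (fun n _ => ?_)
      rw [Measure.add_apply, ENNReal.toReal_add (measure_ne_top _ _) (measure_ne_top _ _)]
      rfl
    rw [hsum] at hf
    have hy0 : ∀ n, y n ∉ bad := by
      intro n hn
      have h1 : (Measure.dirac (y n)).real bad = 1 := by
        rw [measureReal_def, Measure.dirac_apply' _ hbadm, Set.indicator_of_mem hn]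
        simp
      have h2 : (Measure.dirac (y n)).real bad ≤ ∑ n, (Measure.dirac (y n)).real bad :=
        single_le_sum (f := fun n => (Measure.dirac (y n)).real bad)
          (fun _ _ => measureReal_nonneg) (mem_univ n)
      have h3 : 0 ≤ ∑ n, (μ n).real bad := sum_nonneg (fun _ _ => measureReal_nonneg)
      linarith
    have hmu : ∑ n, (μ n).real bad ≤ 1 := by
      have h3 : 0 ≤ ∑ n, (Measure.dirac (y n)).real bad := sum_nonneg
        (fun _ _ => measureReal_nonneg)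
      linarith
    have hyB : y ∉ B j f := fun h => hy (Set.mem_iUnion.2 ⟨j, Set.mem_iUnion.2 ⟨f, h⟩⟩)
    have hyB' : ∑ n, (A j f).indicator (fun _ => (1 : ℝ)) (y n) <
        2 * ∑ n, (μ n).real (A j f) + loss M (Fintype.card ι) δ j := by
      by_contra hc
      exact hyB (not_lt.1 hc)
    have hcnt : ((univ.filter (fun n : Fin M => (1 / 2 : ℝ) ^ j ≤ ‖mean φ p (y n)‖)).card : ℝ) ≤
        ∑ n, (A j f).indicator (fun _ => (1 : ℝ)) (y n) := by
      rw [card_filter]
      push_cast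
      refine sum_le_sum (fun n _ => ?_)
      by_cases h : (1 / 2 : ℝ) ^ j ≤ ‖mean φ p (y n)‖
      · have h1 : y n ∈ A j f := by
          show 3 / 4 * (1 / 2 : ℝ) ^ j ≤ ‖samp φ f (y n)‖
          have h2 : ¬ (τ / 4 < ‖samp φ f (y n) - mean φ p (y n)‖) := by
            have := hy0 n
            rw [hbad] at this
            exact this
          rw [← hτ] at h ⊢
          have h3 : ‖mean φ p (y n)‖ ≤ ‖samp φ f (y n)‖ +
              ‖samp φ f (y n) - mean φ p (y n)‖ := by
            have := norm_sub_norm_le (mean φ p (y n)) (samp φ f (y n))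
            rw [norm_sub_rev] at this
            linarith
          linarith [not_lt.1 h2]
        rw [if_pos h, Set.indicator_of_mem h1]
      · rw [if_neg h]
        exact Set.indicator_nonneg (fun _ _ => zero_le_one) _
    have hAm : ∀ n, (μ n).real (A j f) ≤ 4 * 4 ^ j * (∫ x, ‖mean φ p x‖ ^ 2 ∂(μ n)) +
        (μ n).real bad := by
      intro n
      have h1 : A j f ⊆ {x | τ ^ 2 / 4 ≤ ‖mean φ p x‖ ^ 2} ∪ bad := by
        intro x hx
        by_cases hxb : x ∈ bad
        · exact Or.inr hxb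
        · left
          have h2 : ¬ (τ / 4 < ‖samp φ f x - mean φ p x‖) := by
            rw [hbad] at hxb
            exact hxb
          have h3 : 3 / 4 * τ ≤ ‖samp φ f x‖ := by
            rw [hτ]; exact hx
          have h4 := norm_sub_norm_le (samp φ f x) (mean φ p x)
          have h5 : τ / 2 ≤ ‖mean φ p x‖ := by linarith [not_lt.1 h2]
          show τ ^ 2 / 4 ≤ ‖mean φ p x‖ ^ 2
          nlinarith
      have hI : Integrable (fun x => ‖mean φ p x‖ ^ 2) (μ n) := by
        refine Integrable.of_bound (C := 1)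
          ((mean_meas hm p).norm.pow_const 2).aestronglyMeasurable
          (Filter.Eventually.of_forall (fun x => ?_))
        rw [Real.norm_of_nonneg (by positivity)]
        exact pow_le_one₀ (norm_nonneg _) (mean_le hφ hp hp1 x)
      have h2 := mul_meas_ge_le_integral_of_nonneg (μ := μ n)
        (Filter.Eventually.of_forall (fun x => by positivity)) hI (τ ^ 2 / 4)
      have h3 : (μ n).real {x | τ ^ 2 / 4 ≤ ‖mean φ p x‖ ^ 2} ≤
          4 * 4 ^ j * (∫ x, ‖mean φ p x‖ ^ 2 ∂(μ n)) := by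
        calc (μ n).real {x | τ ^ 2 / 4 ≤ ‖mean φ p x‖ ^ 2}
            = 4 * 4 ^ j * (τ ^ 2 / 4 * (μ n).real {x | τ ^ 2 / 4 ≤ ‖mean φ p x‖ ^ 2}) := by
              have : 4 * 4 ^ j * (τ ^ 2 / 4 * (μ n).real {x | τ ^ 2 / 4 ≤ ‖mean φ p x‖ ^ 2}) =
                (τ ^ 2 * 4 ^ j) * (μ n).real {x | τ ^ 2 / 4 ≤ ‖mean φ p x‖ ^ 2} := by ring
              rw [this, hτ2, one_mul]
          _ ≤ _ := mul_le_mul_of_nonneg_left h2 (by positivity)
      calc (μ n).real (A j f) ≤ (μ n).real ({x | τ ^ 2 / 4 ≤ ‖mean φ p x‖ ^ 2} ∪ bad) :=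
            measureReal_mono h1
        _ ≤ (μ n).real {x | τ ^ 2 / 4 ≤ ‖mean φ p x‖ ^ 2} + (μ n).real bad :=
            measureReal_union_le _ _
        _ ≤ _ := add_le_add_left h3 _
    have hAs : ∑ n, (μ n).real (A j f) ≤ 4 * 4 ^ j * mom μ φ p + 1 := by
      calc ∑ n, (μ n).real (A j f) ≤ ∑ n, (4 * 4 ^ j * (∫ x, ‖mean φ p x‖ ^ 2 ∂(μ n)) +
            (μ n).real bad) := sum_le_sum (fun n _ => hAm n)
        _ = 4 * 4 ^ j * mom μ φ p + ∑ n, (μ n).real bad := by
            rw [sum_add_distrib, ← mul_sum]; rfl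
        _ ≤ _ := by linarith
    linarith

/-- summing the levels -/
theorem levels_one (J : ℕ) (x : ℝ) (hx : 0 ≤ x) (hx1 : x ≤ 1) :
    x ≤ (1 / 2) ^ J + ∑ j ∈ range (J + 1), 2 * (1 / 2) ^ j *
      (if (1 / 2 : ℝ) ^ j ≤ x then (1 : ℝ) else 0) := by
  induction J with
  | zero =>
    simp
    split_ifs <;> linarith
  | succ J ih =>
    rw [sum_range_succ]
    by_cases h : (1 / 2 : ℝ) ^ (J + 1) ≤ x
    · rw [if_pos h]
      have : (1 / 2 : ℝ) ^ (J + 1) = (1 / 2) ^ J / 2 := by rw [pow_succ]; ring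
      have h2 : (0 : ℝ) < (1 / 2) ^ J := by positivity
      linarith
    · have h3 : 0 ≤ ∑ j ∈ range (J + 1), 2 * (1 / 2 : ℝ) ^ j *
          (if (1 / 2 : ℝ) ^ j ≤ x then (1 : ℝ) else 0) := sum_nonneg (fun j _ => by
            split_ifs <;> positivity)
      rw [if_neg h]
      linarith [not_le.1 h]

theorem levels_two (J : ℕ) (x : ℝ) (hx : 0 ≤ x) (hx1 : x ≤ 1) :
    x ^ 2 ≤ (1 / 4) ^ J + ∑ j ∈ range (J + 1), 4 * (1 / 4) ^ j *
      (if (1 / 2 : ℝ) ^ j ≤ x then (1 : ℝ) else 0) := by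
  have e : ∀ j : ℕ, ((1 / 2 : ℝ) ^ j) ^ 2 = (1 / 4) ^ j := by
    intro j
    rw [← pow_mul, mul_comm, pow_mul]
    norm_num
  induction J with
  | zero =>
    simp
    split_ifs <;> nlinarith
  | succ J ih =>
    rw [sum_range_succ]
    by_cases h : (1 / 2 : ℝ) ^ (J + 1) ≤ x
    · rw [if_pos h]
      have : (1 / 4 : ℝ) ^ (J + 1) = (1 / 4) ^ J / 4 := by rw [pow_succ]; ring
      have h2 : (0 : ℝ) < (1 / 4) ^ J := by positivity
      linarith
    · have h3 : 0 ≤ ∑ j ∈ range (J + 1), 4 * (1 / 4 : ℝ) ^ j *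
          (if (1 / 2 : ℝ) ^ j ≤ x then (1 : ℝ) else 0) := sum_nonneg (fun j _ => by
            split_ifs <;> positivity)
      rw [if_neg h, ← e (J + 1)]
      have h4 : x ^ 2 ≤ ((1 / 2 : ℝ) ^ (J + 1)) ^ 2 := pow_le_pow_left₀ hx (not_le.1 h).le 2
      linarith

theorem loss_le (M : ℕ) {q δ : ℝ} (hq : 1 ≤ q) (hδ : 0 < δ) (hδ1 : δ ≤ 1) (j : ℕ) :
    2 + loss M q δ j ≤
      4 ^ j * (3 + 1025 * Real.log (16 * (M + 1)) * Real.log q + Real.log (1 / δ)) := by
  unfold loss
  have hM0 : (0 : ℝ) ≤ M := Nat.cast_nonneg M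
  have h4 : (1 : ℝ) ≤ 4 ^ j := one_le_pow₀ (by norm_num)
  have hl : 1 ≤ Real.log (16 * (M + 1)) := by
    rw [Real.le_log_iff_exp_le (by positivity)]
    have := Real.exp_one_lt_d9
    linarith
  have hlen : (len M j : ℝ) ≤ 1025 * 4 ^ j * Real.log (16 * (M + 1)) := by
    have h1 : (len M j : ℝ) < 1024 * 4 ^ j * Real.log (16 * (M + 1)) + 1 :=
      Nat.ceil_lt_add_one (by positivity)
    nlinarith
  have hlq : 0 ≤ Real.log q := Real.log_nonneg hq
  have hld : 0 ≤ Real.log (1 / δ) := Real.log_nonneg (by rw [le_div_iff₀ hδ]; linarith)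
  have h2 : ((j : ℝ) + 1) * Real.log 2 ≤ 4 ^ j := by
    have h3 : ((j : ℝ) + 1) ≤ 2 ^ j := by
      have : j + 1 ≤ 2 ^ j := Nat.lt_two_pow_self
      exact_mod_cast this
    have h5 : Real.log 2 ≤ 1 := by
      have := Real.log_two_lt_d9
      linarith
    have h6 : (2 : ℝ) ^ j ≤ 4 ^ j := pow_le_pow_left₀ (by norm_num) (by norm_num) j
    have h7 : (0 : ℝ) ≤ Real.log 2 := Real.log_nonneg (by norm_num)
    calc ((j : ℝ) + 1) * Real.log 2 ≤ 2 ^ j * 1 := by
          apply mul_le_mul h3 h5 h7 (by positivity)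
      _ ≤ 4 ^ j := by linarith
  have h8 := mul_le_mul_of_nonneg_right hlen hlq
  have h9 : Real.log (1 / δ) ≤ 4 ^ j * Real.log (1 / δ) := le_mul_of_one_le_left hld h4
  nlinarith

open Classical in
/-- the sum of the norms from the level counts -/
theorem sum_one {κ : Type} [Fintype κ] (g : κ → ℝ) (hg : ∀ k, 0 ≤ g k) (hg1 : ∀ k, g k ≤ 1)
    (Q : ℝ) (hQ : 0 ≤ Q) (h : ∀ j : ℕ, ((univ.filter (fun k => (1 / 2 : ℝ) ^ j ≤ g k)).card : ℝ) ≤
      4 ^ j * Q) (J : ℕ) : ∑ k, g k ≤ Fintype.card κ / 2 ^ J + 4 * 2 ^ J * Q := by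
  have h1 : ∑ k, g k ≤ ∑ k, ((1 / 2) ^ J + ∑ j ∈ range (J + 1), 2 * (1 / 2) ^ j *
      (if (1 / 2 : ℝ) ^ j ≤ g k then (1 : ℝ) else 0)) :=
    sum_le_sum (fun k _ => levels_one J (g k) (hg k) (hg1 k))
  refine h1.trans ?_
  rw [sum_add_distrib, sum_const, card_univ, nsmul_eq_mul, sum_comm]
  have h2 : ∀ j ∈ range (J + 1), ∑ k, 2 * (1 / 2 : ℝ) ^ j *
      (if (1 / 2 : ℝ) ^ j ≤ g k then (1 : ℝ) else 0) ≤ 2 * 2 ^ j * Q := by
    intro j _
    rw [← mul_sum]
    have h3 := h j
    rw [card_filter] at h3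
    push_cast at h3
    calc 2 * (1 / 2 : ℝ) ^ j * ∑ k, (if (1 / 2 : ℝ) ^ j ≤ g k then (1 : ℝ) else 0)
        ≤ 2 * (1 / 2 : ℝ) ^ j * (4 ^ j * Q) := by
          apply mul_le_mul_of_nonneg_left _ (by positivity)
          exact h3
      _ = 2 * ((1 / 2 : ℝ) * 4) ^ j * Q := by rw [mul_pow]; ring
      _ = 2 * 2 ^ j * Q := by norm_num
  have h3 := sum_le_sum h2
  have h4 : ∑ j ∈ range (J + 1), 2 * (2 : ℝ) ^ j * Q ≤ 4 * 2 ^ J * Q := by
    rw [← sum_mul, ← mul_sum, geom_sum_eq (by norm_num)]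
    apply mul_le_mul_of_nonneg_right _ hQ
    rw [pow_succ]
    norm_num
    linarith
  have h5 : (Fintype.card κ : ℝ) * (1 / 2) ^ J = Fintype.card κ / 2 ^ J := by
    rw [one_div, inv_pow]
    rfl
  rw [h5]
  linarith

open Classical in
/-- the sum of the squares from the level counts -/
theorem sum_two {κ : Type} [Fintype κ] (g : κ → ℝ) (hg : ∀ k, 0 ≤ g k) (hg1 : ∀ k, g k ≤ 1)
    (Q : ℝ) (h : ∀ j : ℕ, ((univ.filter (fun k => (1 / 2 : ℝ) ^ j ≤ g k)).card : ℝ) ≤
      4 ^ j * Q) (J : ℕ) : ∑ k, g k ^ 2 ≤ Fintype.card κ / 4 ^ J + 4 * (J + 1) * Q := by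
  have h1 : ∑ k, g k ^ 2 ≤ ∑ k, ((1 / 4) ^ J + ∑ j ∈ range (J + 1), 4 * (1 / 4) ^ j *
      (if (1 / 2 : ℝ) ^ j ≤ g k then (1 : ℝ) else 0)) :=
    sum_le_sum (fun k _ => levels_two J (g k) (hg k) (hg1 k))
  refine h1.trans ?_
  rw [sum_add_distrib, sum_const, card_univ, nsmul_eq_mul, sum_comm]
  have h2 : ∀ j ∈ range (J + 1), ∑ k, 4 * (1 / 4 : ℝ) ^ j *
      (if (1 / 2 : ℝ) ^ j ≤ g k then (1 : ℝ) else 0) ≤ 4 * Q := by
    intro j _
    rw [← mul_sum]
    have h3 := h j
    rw [card_filter] at h3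
    push_cast at h3
    calc 4 * (1 / 4 : ℝ) ^ j * ∑ k, (if (1 / 2 : ℝ) ^ j ≤ g k then (1 : ℝ) else 0)
        ≤ 4 * (1 / 4 : ℝ) ^ j * (4 ^ j * Q) := by
          apply mul_le_mul_of_nonneg_left _ (by positivity)
          exact h3
      _ = 4 * ((1 / 4 : ℝ) * 4) ^ j * Q := by rw [mul_pow]; ring
      _ = 4 * Q := by norm_num
  have h3 := sum_le_sum h2
  rw [sum_const, card_range, nsmul_eq_mul] at h3
  have h5 : (Fintype.card κ : ℝ) * (1 / 4) ^ J = Fintype.card κ / 4 ^ J := by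
    rw [one_div, inv_pow]
    rfl
  rw [h5]
  push_cast at h3
  linarith

end measure

end Pool.Agent.X149.US
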